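import Pool.Agent.Helper42.PW.Asm2
import Pool.Agent.Helper42.PW.MBVR

/-!
# Project W: `MOMBVR`, without hypotheses
-/

set_option autoImplicit false

namespace Pool.Agent.Helper42.PW

/-- **MOMBVR**, proved. -/
theorem z_mombvr : MOMBVR :=
  mombvR Pool.Agent.Helper50.ND.n_abs Pool.Agent.Helper91.PW.w_cnd Pool.Agent.Helper87.PW.w_momv
    a_selw Pool.Agent.Helper26.ND.n_anh Pool.Agent.Helper38.ND.n_ana
    Pool.Agent.Helper93.ND.n_bru Pool.Agent.Helper79.ND.n_brk Pool.Agent.Helper38.ND.mtw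
    (Pool.Agent.Helper17.PB.v_hyp Pool.Agent.Helper76.PB.a_smn Pool.Agent.Helper76.PB.a_kum)
    Pool.Agent.Helper53.PW.w_exb a_extw Pool.Agent.Helper76.PB.a_aln' a_apx a_shf

end Pool.Agent.Helper42.PW
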