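import Pool.Agent.Helper42.PW.Goals2

/-!
# Project W: N_TRN
-/

set_option autoImplicit false

namespace Pool.Agent.Helper42.PW

open NumberField Polynomial Module IsDedekindDomain
open Pool.Agent.Helper51.RP

theorem map_nf {p : ℕ} {R R' : Type} [CommRing R] [CommRing R'] (f : R →+* R') (α : R)
    (z : ℕ → R) : f (nf p α z) = nf p (f α) fun j ↦ f (z j) := by
  unfold nf
  rw [RingHom.map_det]
  congr 1
  ext i j
  simp only [RingHom.mapMatrix_apply, Matrix.map_apply, Matrix.of_apply]
  split_ifs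
  · rfl
  · rw [map_mul]

theorem n_trn : N_TRN := by
  intro p F F' _ _ _ _ e W W' he
  have he' : ∀ y : F', W.valuation F (e.symm y) = W'.valuation F' y := fun y => by
    rw [← he, e.apply_symm_apply]
  have ho : ∀ y : F, ordv W' (e y) = ordv W y := fun y => by
    unfold ordv
    rw [he]
  have hcl : ∀ u : F, Cl p W' (e u) ↔ Cl p W u := fun u => by
    unfold Cl
    have e1 : e u - 1 = e (u - 1) := by rw [map_sub, map_one]
    have e2 : (p : F') = e (p : F) := by rw [map_natCast]
    rw [e1, he, e2, he]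
  have hlp : ∀ u : F, LocPow p W' (e u) ↔ LocPow p W u := fun u => by
    constructor
    · rintro ⟨y, hy⟩
      refine ⟨e.symm y, ?_⟩
      rw [← he]
      have e1 : e (u * e.symm y ^ p - 1) = e u * y ^ p - 1 := by
        rw [map_sub, map_one, map_mul, map_pow, e.apply_symm_apply]
      rw [e1]
      exact hy
    · rintro ⟨y, hy⟩
      refine ⟨e y, ?_⟩
      have e1 : e u * e y ^ p - 1 = e (u * y ^ p - 1) := by
        rw [map_sub, map_one, map_mul, map_pow]
      rw [e1, he]
      exact hy
  intro α x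
  refine ⟨⟨?_, ?_⟩, ⟨?_, ?_⟩, ?_⟩
  · rintro ⟨y, hy⟩
    refine ⟨e.symm y, ?_⟩
    rw [← hcl, map_mul, map_pow, e.apply_symm_apply]
    exact hy
  · rintro ⟨y, hy⟩
    refine ⟨e y, ?_⟩
    rw [← map_pow, ← map_mul, hcl]
    exact hy
  · rintro ⟨z, hz⟩
    refine ⟨fun j => e.symm (z j), ?_⟩
    rw [← hcl, map_mul]
    have h1 : e (nf p α fun j => e.symm (z j)) = nf p (e α) z := by
      have h2 := map_nf (p := p) (e : F →+* F') α fun j => e.symm (z j)
      simpa using h2
    rw [h1]
    exact hz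
  · rintro ⟨z, hz⟩
    refine ⟨fun j => e (z j), ?_⟩
    have h1 : e (nf p α z) = nf p (e α) fun j => e (z j) := map_nf (p := p) (e : F →+* F') α z
    rw [← h1, ← map_mul, hcl]
    exact hz
  · unfold LocAt Tame
    rw [ho, ho]
    have h1 : ∀ i : ℕ, e x * ((-1) ^ (p - 1) * e α) ^ i = e (x * ((-1) ^ (p - 1) * α) ^ i) := by
      intro i
      rw [map_mul, map_pow, map_mul, map_pow, map_neg, map_one]
    simp only [h1, hlp]

end Pool.Agent.Helper42.PW
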