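import Pool.Agent.Helper42.PW.Defs

/-!
# Project W, part 1: norm forms and local norms

Every statement is a `def ... : Prop` with its complete proof in the docstring.
-/

set_option autoImplicit false

namespace Pool.Agent.Helper42.PW

open NumberField Polynomial Module IsDedekindDomain
open Pool.Agent.Helper51.RP Pool.Agent.Helper42.RD Pool.Agent.Helper42.PP Pool.Agent.Helper42.PP1
open Pool.Agent.Helper51.SigLeo (IwasawaLog)

/-- **N_EVL** (the norm form is the product over the conjugates).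

PROOF. Let `A` be the matrix in the definition of `nf p (β^p) z` and `V` the Vandermonde matrix
`V_{i,j} = (ε^i β)^j`; its determinant is not zero because the `ε^i β`, `i < p`, are distinct (`β ≠ 0`;
`Matrix.det_vandermonde_ne_zero_iff`). With `b = ε^i β`, `b^p = β^p`:
`(V A)_{i,c} = ∑_{r ≥ c} b^r z_{r-c} + ∑_{r < c} b^r β^p z_{p+r-c} = b^c ∑_{j < p} z_j b^j` (put `j = r - c`, resp.
`j = p + r - c`, `b^r b^p = b^(c+j)`). So `V A = diag(λ_i) V` with `λ_i = ∑_j z_j (ε^i β)^j`; take determinants. -/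
def N_EVL : Prop :=
  ∀ (p : ℕ) [Fact p.Prime] (Ω : Type) [Field Ω] (ε β : Ω), IsPrimitiveRoot ε p → β ≠ 0 →
  ∀ z : ℕ → Ω, nf p (β ^ p) z =
    ∏ i ∈ Finset.range p, ∑ j ∈ Finset.range p, z j * (ε ^ i * β) ^ j

/-- **N_ALG** (algebraic properties of the norm form).

PROOF. (1) `RingHom.map_det`. (2) The matrix is `c` times the identity. (3) With `D = diag(v^i)` the matrix for
`(α, z_j v^j)` is `D A D⁻¹`, where `A` is the one for `(α v^p, z)`: the entry `(i, j)` is `v^(i-j) z_{i-j}` for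
`j ≤ i` and `α v^(p+i-j) z_{p+i-j}` for `j > i` (for `v = 0` both sides are `z_0^p`: triangular matrices with
diagonal `z_0`). (4), (5) (from `N_EVL`) Let `Ω` be an algebraic closure of `F`, `ε` a primitive `p`-th root of unity
and `β` a root of `X^p - α` in `Ω`, `β ≠ 0`. (4) Let `z''_r = ∑_{j ≤ r} z_j z'_{r-j} + α ∑_{r < j < p} z_j z'_{p+r-j}`;
for every `b` with `b^p = α` (in particular `b = ε^i β`) `∑ z''_r b^r = (∑ z_j b^j) (∑ z'_j b^j)`. Use (1) for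
`F → Ω` and `N_EVL` for the three norm forms. (5) Let `z'_l = ∑_{j < p, n j ≡ l mod p} z_j α^((n j - l)/p)` for
`l < p` (natural numbers: for every `j < p` put `l = n j % p`, `(n j - l)/p = n j / p`), so that
`∑_l z'_l b^l = ∑_j z_j b^(n j)` for `b^p = α`. `nf (α^n) z = ∏_i ∑_j z_j (ε^i β^n)^j`, and as `n` is prime to `p` the
map `i ↦ i n` permutes `ZMod p`: `ε^i β^n` runs through the `(ε^i β)^n`. -/
def N_ALG : Prop :=
  (∀ (p : ℕ) (R R' : Type) [CommRing R] [CommRing R'] (f : R →+* R') (α : R) (z : ℕ → R),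
    f (nf p α z) = nf p (f α) fun j ↦ f (z j)) ∧
  (∀ (p : ℕ) (R : Type) [CommRing R] (α c : R), nf p α (fun j ↦ if j = 0 then c else 0) = c ^ p) ∧
  (∀ (p : ℕ) (F : Type) [Field F] (α v : F) (z : ℕ → F),
    nf p (α * v ^ p) z = nf p α fun j ↦ z j * v ^ j) ∧
  (∀ (p : ℕ) [Fact p.Prime] (F : Type) [Field F] [CharZero F] (α : F), α ≠ 0 →
    ∀ z z' : ℕ → F, ∃ z'' : ℕ → F, nf p α z * nf p α z' = nf p α z'') ∧
  ∀ (p : ℕ) [Fact p.Prime] (F : Type) [Field F] [CharZero F] (α : F), α ≠ 0 →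
    ∀ n : ℕ, n.Coprime p → ∀ z : ℕ → F, ∃ z' : ℕ → F, nf p (α ^ n) z = nf p α z'

/-- **N_CNT** (continuity of the norm form).

PROOF. Let `b` be an element of the value group, `b ≥ 1`, `b ≥ val(z_j)` for `j < p`, `b ≥ val(α) val(z_j)`,
`b ≥ val(α)`. If `exp(-N) ≤ 1` and `val(α' - α) ≤ exp(-N)`, `val(z'_j - z_j) ≤ exp(-N)` for `j < p`, the entries
of the two matrices (indices `i - j < p` and `p + i - j < p`) have valuations `≤ b` and their differences have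
valuations `≤ exp(-N) b` (`α' z' - α z = α' (z' - z) + (α' - α) z`). The determinant is a signed sum of products of
`p` entries, and a difference of two such products is a sum of terms `(product of p - 1 entries) · (a
difference of entries)`; so the difference of the determinants has valuation `≤ exp(-N) b^p`. Choose `N` with
`exp(-N) b^p ≤ γ`. -/
def N_CNT : Prop :=
  ∀ (p : ℕ) (F : Type) [Field F] [NumberField F] (W : HeightOneSpectrum (𝓞 F)) (α : F)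
    (z : ℕ → F) (γ : WithZero (Multiplicative ℤ)), γ ≠ 0 →
  ∃ N : ℕ, ∀ (α' : F) (z' : ℕ → F), W.valuation F (α' - α) ≤ WithZero.exp (-(N : ℤ)) →
    (∀ j < p, W.valuation F (z' j - z j) ≤ WithZero.exp (-(N : ℤ))) →
    W.valuation F (nf p α' z' - nf p α z) ≤ γ

/-- **N_HEN** (Hensel's lemma for `p`-th powers, level `p³`).

PROOF. Let `V = W.valuation F`. CLAIM: if `V(t) < 1`, `V(t) ≤ V(p)³` and `s = (1 + t)/(1 + t/p)^p - 1` then
`V(s) < V(t)` or `t = 0`, `V(s) ≤ V(t)`, and `V(t/p) < 1`. Indeed `V(t/p) ≤ V(p)² V(1) ≤ 1` if `V(p) < 1`, more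
precisely `V(t/p) ≤ V(p)² < 1` if `V(p) < 1`, and `V(t/p) = V(t) < 1` if `V(p) = 1`. So `V(1 + t/p) = 1` and
`V(s) = V((1 + t/p)^p - 1 - t)`, `(1 + t/p)^p = 1 + t + ∑_{2 ≤ k ≤ p} C(p,k) (t/p)^k`. For `2 ≤ k`,
`V(C(p,k) (t/p)^k) ≤ V(t/p)^2 ≤ V(t) · V(t)/V(p)²`, and `V(t)/V(p)² ≤ V(p) < 1` if `V(p) < 1`, `= V(t) < 1` if
`V(p) = 1`. Put `t_0 = u - 1`, `v_0 = 1`, `v_(n+1) = v_n (1 + t_n/p)`, `t_(n+1) = (1 + t_n)/(1 + t_n/p)^p - 1`: then
`u = v_n^p (1 + t_n)`, `V(v_n - 1) < 1`, and `V(t_n) ≤ exp(-n)` by induction (the values are `0` or integral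
powers of `exp(-1)`). So `V(u - v_n^p) = V(v_n^p t_n) = V(t_n) ≤ exp(-n)`. -/
def N_HEN : Prop :=
  ∀ (p : ℕ) [Fact p.Prime] (F : Type) [Field F] [NumberField F] (W : HeightOneSpectrum (𝓞 F))
    (u : F), Cl p W u →
  ∀ N : ℕ, ∃ v : F, W.valuation F (v - 1) < 1 ∧
    W.valuation F (u - v ^ p) ≤ WithZero.exp (-(N : ℤ))

/-- **N_CHG** (the local norms depend only on the local class of `α`).

PROOF (from `N_ALG`, `N_CNT`, `N_HEN`). `PwAt p W (α/α')` gives `y ≠ 0` with `Cl p W u`, `u = (α/α') y^p`; so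
`α = α' y^(-p) u`. Let `x · nf p α z = 1 + t` be close to `1` (`Cl`), `x ≠ 0`, `n = nf p α z ≠ 0`
(`W.valuation (1 + t) = 1`). Let `γ ≠ 0` be a value smaller than `V(n)` and `≤ V(n) V(p)³` and let `N` be given by
`N_CNT` for `α`, `z`, `γ`. By `N_HEN` choose `v` with `V(u - v^p)` so small that
`V(α - α' (v/y)^p) = V(α' y^(-p)) V(u - v^p) ≤ exp(-N)`, `v ≠ 0`. So `V(nf (α' (v/y)^p) z - n) ≤ γ`, and
`nf (α' (v/y)^p) z = nf α' z'` with `z'_j = z_j (v/y)^j`. Hence `nf α' z' = n (1 + s)` with `V(s) < 1`,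
`V(s) ≤ V(p)³`, and `x · nf α' z' = (1 + t)(1 + s)` is close to `1`. -/
def N_CHG : Prop :=
  ∀ (p : ℕ) [Fact p.Prime] (F : Type) [Field F] [NumberField F] (W : HeightOneSpectrum (𝓞 F))
    (α α' : F), α ≠ 0 → α' ≠ 0 → PwAt p W (α / α') → ∀ x : F, NmAt p W α x → NmAt p W α' x

/-- **N_GRP** (the groups of local norms and of local `p`-th powers; invariance under `α ↦ α^n c^p`).

PROOF. `Cl`: `(1 + t)(1 + s) - 1 = t + s + t s`, `(1 + t)⁻¹ - 1 = -t/(1 + t)`, `V(1 + t) = 1`. `PwAt`: products of the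
`y`; inverse: `y⁻¹`; `α = y^p`: take `y⁻¹` (`y ≠ 0`); `Cl α`: `y = 1`. `NmAt` (from `N_ALG`): products by (4). Let
`x n = 1 + t`, `n = nf p α z`, with `Cl`; then `x⁻¹ n⁻¹` is close to `1` and `n⁻¹ = n^(p-1) (n⁻¹)^p` is a value of the norm
form: (4), `p - 1` times, and (2) with `c = n⁻¹` (for `p - 1 ≥ 1` factors). `x = y^p`: (2) with `c = y⁻¹`. `Cl x`: (2)
with `c = 1`. *Invariance.* `nf (α^n c^p) z = nf (α^n) (z_j c^j) = nf α z'` by (3), (5): one direction. Conversely let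
`n n' = 1 + p l` with `n', l ∈ ℕ`, `n'` prime to `p` (`Nat.exists_mul_emod_eq_one_of_coprime` or similar); with
`α' = α^n c^p`: `α'^(n') = α · (α^l c^(n'))^p`, so `α = α'^(n') d^p`, `d = (α^l c^(n'))⁻¹`, and the first direction
applies. For `PwAt`: `α y^p` close to `1` implies `(α y^p)^n = α^n c^p (y^n/c)^p` close to `1`; and conversely. -/
def N_GRP : Prop :=
  ∀ (p : ℕ) [Fact p.Prime] (F : Type) [Field F] [NumberField F] (W : HeightOneSpectrum (𝓞 F)),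
    (∀ u u' : F, Cl p W u → Cl p W u' → Cl p W (u * u')) ∧ (∀ u : F, Cl p W u → Cl p W u⁻¹) ∧
    (∀ α α' : F, PwAt p W α → PwAt p W α' → PwAt p W (α * α')) ∧
    (∀ α : F, PwAt p W α → PwAt p W α⁻¹) ∧ (∀ y : F, y ≠ 0 → PwAt p W (y ^ p)) ∧
    (∀ u : F, Cl p W u → PwAt p W u) ∧
    ∀ α : F, α ≠ 0 →
      (∀ x x' : F, NmAt p W α x → NmAt p W α x' → NmAt p W α (x * x')) ∧
      (∀ x : F, NmAt p W α x → NmAt p W α x⁻¹) ∧ (∀ y : F, y ≠ 0 → NmAt p W α (y ^ p)) ∧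
      (∀ u : F, Cl p W u → NmAt p W α u) ∧
      ∀ (n : ℕ) (c : F), n.Coprime p → c ≠ 0 →
        (∀ x : F, NmAt p W (α ^ n * c ^ p) x ↔ NmAt p W α x) ∧
        (PwAt p W (α ^ n * c ^ p) ↔ PwAt p W α)

/-- **N_CMP** (passage to an extension with the same completion). `F'/F`, `W'` a prime of `F'` above `W` with the
same valuation on `F`, `F` dense in `F'` for `W'`.

PROOF. `PwAt`: from `F` to `F'` by the inclusion. Conversely let `y ∈ F'` with `Cl p W' (α y^p)`; approximate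
`y ≠ 0` by `y₀ ∈ F` with `y₀/y = 1 + s`, `V(s) < 1`, `V(s) ≤ V(p)³` (`V = W'.valuation`): `α y₀^p = α y^p (1 + s)^p`
is close to `1`, and `V` restricted to `F` is `W.valuation F`. `NmAt` (from `N_ALG` (1), `N_CNT`): from `F` to `F'`
by the inclusion. Conversely let `z : ℕ → F'` with `x · nf p α z` close to `1`, `n = nf p α z ≠ 0`, `γ ≠ 0` a value
`< V(n)`, `≤ V(n) V(p)³`, `N` given by `N_CNT` for `(F', W', α, z, γ)` and `z⁰ : ℕ → F` with
`V(z⁰_j - z_j) ≤ exp(-N)` for all `j`. So `nf p α z⁰ = n (1 + s)` is close to `n`, `x · nf p α z⁰` is close to `1`,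
and `nf p α z⁰` is the image of the norm form over `F`. -/
def N_CMP : Prop :=
  ∀ (p : ℕ) [Fact p.Prime] (F F' : Type) [Field F] [NumberField F] [Field F'] [NumberField F']
    [Algebra F F'] (W : HeightOneSpectrum (𝓞 F)) (W' : HeightOneSpectrum (𝓞 F')),
    (∀ x : F, W'.valuation F' (algebraMap F F' x) = W.valuation F x) →
    (∀ (y : F') (N : ℕ), ∃ x : F,
      W'.valuation F' (y - algebraMap F F' x) ≤ WithZero.exp (-(N : ℤ))) →
  ∀ α x : F, (PwAt p W' (algebraMap F F' α) ↔ PwAt p W α) ∧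
    (NmAt p W' (algebraMap F F' α) (algebraMap F F' x) ↔ NmAt p W α x)

/-- **N_DNS** (primes with trivial decomposition group). `F'/F` Galois, `W'` a prime of `F'` with trivial
decomposition group over `F`, above `W`.

PROOF. The first statement: `e = 1`, see `Pool.Agent.Helper13.RD.ram_free`, `Pool.Agent.Helper40.RD.valW`. The residue
fields are equal, `Pool.Agent.Helper40.RS.absNorm_free` (compare `Pool.Agent.Helper42.PB.surj_of_norm` in
`PB/SEL.lean`: every integer of `F'` is congruent to an integer of `F` modulo `W'`). CLAIM: for `y ∈ F'`, `y ≠ 0`,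
there is `x ∈ F` with `V(y - x) < V(y)`, `V = W'.valuation F'`: let `π ∈ F` be a uniformizer at `W`,
`V(y) = V(π)^n`; `y/π^n` is a unit at `W'`, so it is congruent modulo `W'` to an integer of `F'`
(`exists_valuation_sub_lt_of_integer`), hence to an integer `c` of `F`; `x = π^n c`. By induction on `N`, starting
from `V(y) ≤ exp(m)` for some `m`, there is `x` with `V(y - x) ≤ exp(-N)`: the values are integral powers of
`exp 1`, or zero. -/
def N_DNS : Prop :=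
  ∀ (F F' : Type) [Field F] [NumberField F] [Field F'] [NumberField F'] [Algebra F F']
    [IsGalois F F'] (W : HeightOneSpectrum (𝓞 F)) (W' : HeightOneSpectrum (𝓞 F')), Above W' W →
    FreeP F W' →
    (∀ x : F, W'.valuation F' (algebraMap F F' x) = W.valuation F x) ∧
    ∀ (y : F') (N : ℕ), ∃ x : F,
      W'.valuation F' (y - algebraMap F F' x) ≤ WithZero.exp (-(N : ℤ))

/-- **L_PRM** (every prime above `p` is induced by an embedding in `k`).

PROOF. Let `N/ℚ` be a finite Galois extension which contains `F` (`normalClosure`, or the image of `F` in an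
algebraic closure), `𝔑` a prime of `N` above `W`. `N` has an embedding `τ₀` in `k` (by the hypothesis `hι`). The primes
`𝔑` and `𝔑₀ = {b : ‖τ₀ b‖ < 1}` (`Pool.Agent.Helper32.RDV.wt p τ₀`) are both above `p`, so there is `g ∈ Gal(N/ℚ)` with
`g 𝔑 = 𝔑₀` (`IsGalois` transitivity: `Ideal.exists_map_eq_of_isGalois`, or as in `Helper40.RS.conj_of_bel`), and
`τ = τ₀ ∘ g` restricted to `F` induces `W`: `b ∈ W ↔ b ∈ 𝔑 ↔ g b ∈ 𝔑₀ ↔ ‖τ b‖ < 1`, so `wt p τ = W`. For `x ∈ F`,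
`W.valuation x ≤ 1 ↔ ‖τ x‖ ≤ 1` (`Helper32.RDV.norm_le_one_of_val`, `val_of_norm`, `‖τ x‖ < 1` iff `W.valuation x < 1`
by passing to inverses); apply this to `x/y`. -/
def L_PRM : Prop :=
  ∀ (p : ℕ) [Fact p.Prime] (k : Type) [NormedField k] [NormedAlgebra ℚ_[p] k]
    [IsUltrametricDist k], Nonempty (AlgebraicClosure ℚ →+* k) →
  ∀ (F : Type) [Field F] [NumberField F] (W : HeightOneSpectrum (𝓞 F)),
    W.valuation F (p : F) < 1 →
  ∃ τ : F →+* k, ∀ x y : F, W.valuation F x ≤ W.valuation F y ↔ ‖τ x‖ ≤ ‖τ y‖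

/-- **L_ISO** (automorphisms of local fields are isometries).

PROOF. `ℚ_[p]` is complete and its norm is nonarchimedean, so the extension of the norm to the finite
extension `H` is unique: `‖x‖ = spectralNorm ℚ_[p] H x` (`spectralNorm_unique_field_norm_ext` or similar), and
the spectral norm is invariant (`spectralNorm_eq_of_equiv`). -/
def L_ISO : Prop :=
  ∀ (p : ℕ) [Fact p.Prime] (H : Type) [NormedField H] [NormedAlgebra ℚ_[p] H]
    [IsUltrametricDist H] [FiniteDimensional ℚ_[p] H] (σ : H ≃ₐ[ℚ_[p]] H) (x : H), ‖σ x‖ = ‖x‖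

/-- **L_RT** (`p`-th roots of elements close to `1`).

PROOF. As `N_HEN`: with `t` of norm `≤ p^(-3)`, `s = (1 + t)/(1 + t/p)^p - 1` has norm `≤ ‖t/p‖² ≤ ‖t‖/p`. Put
`t_0 = u - 1`, `v_0 = 1`, `v_(n+1) = v_n (1 + t_n/p)`; `u = v_n^p (1 + t_n)`, `‖t_n‖ ≤ p^(-3-n)`, `‖v_(n+1) - v_n‖ ≤ p ‖t_n‖`;
the `v_n` converge (`H` is complete: finite dimensional over `ℚ_[p]`) to `v` with `v^p = u`, `‖v - 1‖ ≤ p^(-2)`.
Uniqueness: `w = v/v'` has `w^p = 1`, `‖w - 1‖ ≤ p^(-2)`. If `w ≠ 1` it is a primitive `p`-th root of unity,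
`∏_{0<i<p} (1 - w^i) = p`, and `1 - w` divides all the `1 - w^i` in the ring of elements of norm `≤ 1`, so
`p^(-1) = ‖p‖ ≤ ‖1 - w‖^(p-1) ≤ ‖1 - w‖ ≤ p^(-2)`, a contradiction. -/
def L_RT : Prop :=
  ∀ (p : ℕ) [Fact p.Prime] (H : Type) [NormedField H] [NormedAlgebra ℚ_[p] H]
    [IsUltrametricDist H] [FiniteDimensional ℚ_[p] H],
    (∀ u : H, ‖u - 1‖ ≤ (1 / p : ℝ) ^ 3 → ∃ v : H, v ^ p = u ∧ ‖v - 1‖ ≤ (1 / p : ℝ) ^ 2) ∧
    ∀ v v' : H, v ^ p = v' ^ p → ‖v - 1‖ ≤ (1 / p : ℝ) ^ 2 → ‖v' - 1‖ ≤ (1 / p : ℝ) ^ 2 → v = v'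

/-- **L_LAT** (a cohomologically trivial subgroup of the units). `σ` generates the Galois group, of order `p`,
of `H` over the fixed field. There is a compact subgroup `V` of `Hˣ` (given as a subset of `H`), stable under `σ`,
of finite index in the units in the sense that `V` contains all the `u` with `‖u - 1‖ ≤ r`, with trivial `H⁰`
and `H¹`.

PROOF. Let `F₀` be the field of the fixed elements of `σ` (a closed subfield; `[H : F₀] = p`, Artin), `O = {a ∈ F₀ :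
‖a‖ ≤ 1}`, compact (`H` is proper). By the normal basis theorem (Mathlib: `IsGalois.exists_normalBasis` or similar
for `H/F₀`) there is `b` such that `b, σ b, ..., σ^(p-1) b` is a basis of `H/F₀`. For `c ∈ F₀` put
`Λ_c = {∑_i a_i c σ^i(b) : a_i ∈ O}`. The products `σ^i(b) σ^j(b)` are combinations of the `σ^l(b)` with coefficients
in `F₀`, of norm `≤ C`; so for `‖c‖ ≤ 1/(p C)`, `Λ_c Λ_c ⊆ p Λ_c` (`c² C ⊆ (p c) O`), and `‖x‖ < 1` for `x ∈ Λ_c` if `c` is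
small; fix `c = p^n` with these properties, `Λ = Λ_c`. `Λ` is an additive group, compact (image of `O^p`), stable
under `σ` and under multiplication by `p`, and it contains a ball around `0` (the coordinates for the basis
are continuous linear functions on the finite dimensional space `H`). Let `V = 1 + Λ`. It is closed under
multiplication; `(1 + x)⁻¹ = ∑ (-x)^n ∈ 1 + Λ` (`Λ` is closed; the partial sums are in `1 + Λ`; the powers `x^n ∈
p^(n-1) Λ` tend to `0`); stable under `σ`; `V ⊇ {u : ‖u - 1‖ ≤ r}` and `‖u‖ = 1` on `V`.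
*H⁰.* Let `v ∈ V`, `σ v = v`. CLAIM: for all `n` there is `z_n ∈ V` with `v = N(z_n) (1 + p^n x_n)`, `x_n ∈ Λ`, where
`N(z) = ∏_i σ^i(z)`. `n = 0`: `z = 1`. Step: `1 + p^n x_n = v/N(z_n)` is fixed by `σ`, so `σ x_n = x_n`, all the coordinates of
`x_n` are equal, `x_n = ∑_i σ^i(y)` with `y = a c b ∈ Λ`. `N(1 + p^n y) = 1 + p^n x_n + p^(n+1) λ`, `λ ∈ Λ` (the other terms are
products of at least two factors `p^n σ^i(y)`, in `p^(2n) Λ Λ ⊆ p^(2n+1) Λ`), so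
`(1 + p^n x_n)/N(1 + p^n y) ∈ 1 + p^(n+1) Λ` (`1 + p^(n+1) Λ` and `1 + p^n Λ` are groups, same proof). Put
`z_(n+1) = z_n (1 + p^n y)`. So `v` is in the closure of `N(V)`, which is compact, hence closed: `v ∈ N(V)`.
*H¹.* Let `v ∈ V`, `N(v) = 1`. CLAIM: for all `n` there is `z_n ∈ V` with `v = σ(z_n)/z_n · (1 + p^n x_n)`. Step:
`N(1 + p^n x_n) = 1`, so `p^n ∑_i σ^i(x_n) ∈ p^(2n+1) Λ`, `∑_i σ^i(x_n) = p^(n+1) λ`, `λ ∈ Λ` fixed by `σ`,
`λ = ∑ σ^i(y')`, `x_n - p^(n+1) y'` has trace `0`: its coordinates `a_i` satisfy `∑ a_i = 0`, so it is `σ y - y` with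
`y ∈ Λ` (partial sums of the `a_i`). `σ(1 + p^n y)/(1 + p^n y) = 1 + p^n (σ y - y) + p^(n+1)(...)`, in
`(1 + p^n x_n)(1 + p^(n+1) Λ)`. The set `{σ(z)/z : z ∈ V}` is compact. -/
def L_LAT : Prop :=
  ∀ (p : ℕ) [Fact p.Prime] (H : Type) [NormedField H] [NormedAlgebra ℚ_[p] H]
    [IsUltrametricDist H] [FiniteDimensional ℚ_[p] H] (σ : H ≃ₐ[ℚ_[p]] H), orderOf σ = p →
  ∃ (V : Subgroup Hˣ) (r : ℝ), 0 < r ∧ (∀ u ∈ V, Units.map (σ : H →* H) u ∈ V) ∧
    (∀ u : Hˣ, ‖(u : H) - 1‖ ≤ r → u ∈ V) ∧ (∀ u ∈ V, ‖(u : H)‖ = 1) ∧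
    (∀ v ∈ V, σ (v : H) = v → ∃ z ∈ V, ∏ i ∈ Finset.range p, (σ ^ i) (z : H) = v) ∧
    ∀ v ∈ V, ∏ i ∈ Finset.range p, (σ ^ i) (v : H) = 1 → ∃ z ∈ V, σ (z : H) = v * z

/-- **L_IDX** (in a cyclic extension of degree `p` of local fields the norm is not surjective).

PROOF (from `L_ISO`, `L_LAT`). Let `N(z) = ∏_{i<p} σ^i(z)`, `‖N z‖ = ‖z‖^p`. The group `Γ = {‖z‖ : z ∈ Hˣ}` is
infinite cyclic, generated by some `ρ < 1`: `H` is a finite dimensional `ℚ_[p]`-space, so it is proper; the norm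
is locally constant on `Hˣ` (ultrametric), so it takes finitely many values on the compact set
`{1/p ≤ ‖z‖ ≤ 1}`; hence `Γ` is discrete, and it contains `1/p`. Let `Γ₀` be the subgroup of the norms of the fixed
elements `≠ 0` of `σ`: `Γ^p ⊆ Γ₀ ⊆ Γ`, so `Γ₀ = Γ` or `Γ₀ = Γ^p`. If `Γ₀ = Γ` take `u` fixed with `‖u‖ = ρ`; `N z = u` would
give `‖z‖^p = ρ`, impossible. Let `Γ₀ = Γ^p` and suppose that every fixed `u ≠ 0` is a norm. Let `U = {‖z‖ = 1}`,
`V`, `r` as in `L_LAT`, `V ⊆ U`. `U/V` is finite: `U` is compact and covered by the open cosets of `{‖u - 1‖ ≤ min(r,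
1/2)} ⊆ V`. (1) If `u ∈ U` and `σ(u)/u ∈ V` then `u V` contains a norm of an element of `U`: `N(σ(u)/u) = 1`, so
`σ(u)/u = σ(v)/v`, `v ∈ V`; `u/v` is fixed, so it is `N(z)`, `‖z‖ = 1`. (2) In the finite group `A = U/V` with the
action of `σ` the fixed points are the norms. The kernel of `a ↦ σ(a)/a` is `A^σ`, so `|A^σ| |(σ-1)A| = |A| =
|N A| |ker N|`; hence `|(σ-1)A| = |ker N|`, and `(σ-1)A ⊆ ker N`, so they are equal. (3) If `x ∈ U`, `N x = 1`, then by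
(2) `x = (σ(y)/y) v`, `y ∈ U`, `v ∈ V`, `N v = 1`, `v = σ(w)/w`: so `x = σ(t)/t` with `t ∈ U`. (4) Let `π ∈ H` with
`‖π‖ = ρ`; `x = σ(π)/π` is in `U`, `N x = 1`; `x = σ(t)/t` with `‖t‖ = 1`, and `π/t` is fixed with norm `ρ ∉ Γ^p`
(`p ≥ 2`), a contradiction. -/
def L_IDX : Prop :=
  ∀ (p : ℕ) [Fact p.Prime] (H : Type) [NormedField H] [NormedAlgebra ℚ_[p] H]
    [IsUltrametricDist H] [FiniteDimensional ℚ_[p] H] (σ : H ≃ₐ[ℚ_[p]] H), orderOf σ = p →
  ∃ u : H, u ≠ 0 ∧ σ u = u ∧ ∀ z : H, ∏ i ∈ Finset.range p, (σ ^ i) z ≠ u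

/-- **L_CLO** (the closure of a number field in `k`, and the decomposition group).

PROOF. Let `b_1, ..., b_n` be a basis of `H/ℚ` and `ℋ` the `ℚ_[p]`-span of the `τ(b_i)`: it is a `ℚ_[p]`-subalgebra
of `k` (products of the `b_i` are rational combinations), finite dimensional, a domain, hence a field:
`ℋ = IntermediateField.adjoin ℚ_[p] (Set.range τ)`. Density: `ℚ` is dense in `ℚ_[p]`, so every `∑ c_i τ(b_i)` is
approximated by `τ(∑ q_i b_i)`. *Extension.* Let `g : H ≃+* H` with `‖τ (g x)‖ = ‖τ x‖`. Put on `H` the topology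
induced by `τ`; the ring homomorphism `x ↦ τ(g x)`, `H → ℋ`, is an isometry, so uniformly continuous, and `ℋ` is
complete; it extends to a ring homomorphism `ĝ : ℋ → ℋ` (`IsDenseInducing.extendRingHom`; or define `ĝ(y)` as the
limit of `τ(g x_n)` for `τ(x_n) → y`), isometric and `ℚ_[p]`-linear (`ℚ` is dense in `ℚ_[p]` and `ĝ` is continuous);
injective and hence bijective (finite dimension). -/
def L_CLO : Prop :=
  ∀ (p : ℕ) [Fact p.Prime] (k : Type) [NormedField k] [NormedAlgebra ℚ_[p] k]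
    [IsUltrametricDist k] (H : Type) [Field H] [NumberField H] (τ : H →+* k),
  ∃ ℋ : IntermediateField ℚ_[p] k, FiniteDimensional ℚ_[p] ℋ ∧ ∃ h : ∀ x : H, τ x ∈ ℋ,
    (∀ y ∈ ℋ, ∀ e : ℝ, 0 < e → ∃ x : H, ‖y - τ x‖ < e) ∧
    ∀ g : H ≃+* H, (∀ x, ‖τ (g x)‖ = ‖τ x‖) →
      ∃ g' : ℋ ≃ₐ[ℚ_[p]] ℋ, ∀ x : H, ((g' ⟨τ x, h x⟩ : ℋ) : k) = τ (g x)

/-- **L_DEN** (the fixed field of the decomposition group is the closure of the base field).

PROOF. Let `G = Gal(H/M)`, `D = {g : ‖τ(g x)‖ = ‖τ x‖ for all x}`. For `g ∉ D` the primes `𝔓(τ)` and `𝔓(τ ∘ g)` are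
different (`𝔓(τ) = {b ∈ 𝓞_H : ‖τ b‖ < 1}`; equal primes give equal norms: `‖τ x‖` and `‖τ(g x)‖` are powers of each
other with exponent `1` because both are `1/p` at `p`; see `RP.S_RAT` (1), `RL.L_WGT`), so by the Chinese
remainder theorem for every `η > 0` there is `E ∈ H` with `‖τ(E) - 1‖ ≤ η` and `‖τ(g E)‖ ≤ η` for `g ∉ D` (`E ≡ 1` modulo
a high power of `𝔓(τ)`, `E ≡ 0` modulo high powers of the other `𝔓(τ ∘ g)`). Let `y ∈ H` and `ρ > 0` with
`‖τ(g y) - τ(y)‖ ≤ ρ` for `g ∈ D`. Choose `η ≤ 1` with `η ‖τ(g y)‖ ≤ ρ` for all `g ∈ G` and put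
`x = |D|⁻¹ ∑_{g ∈ G} g(E y) ∈ M`. For `g ∈ D`, `‖τ(g E) - 1‖ = ‖τ(g(E - 1))‖ = ‖τ(E) - 1‖ ≤ η`, so
`‖τ(g(E y)) - τ(y)‖ ≤ max(‖τ(gE) - 1‖ ‖τ(g y)‖, ‖τ(g y) - τ(y)‖) ≤ ρ`; for `g ∉ D`, `‖τ(g(E y))‖ ≤ ρ`. So
`‖|D| τ(x) - |D| τ(y)‖ ≤ ρ` and `C = ‖|D|‖⁻¹` works. -/
def L_DEN : Prop :=
  ∀ (p : ℕ) [Fact p.Prime] (k : Type) [NormedField k] [NormedAlgebra ℚ_[p] k]
    [IsUltrametricDist k] (M H : Type) [Field M] [NumberField M] [Field H] [NumberField H]
    [Algebra M H] [IsGalois M H] (τ : H →+* k),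
  ∃ C : ℝ, 0 < C ∧ ∀ (y : H) (ρ : ℝ), 0 < ρ →
    (∀ g : H ≃ₐ[M] H, (∀ x, ‖τ (g x)‖ = ‖τ x‖) → ‖τ (g y) - τ y‖ ≤ ρ) →
    ∃ x : M, ‖τ (algebraMap M H x) - τ y‖ ≤ C * ρ

/-- **L_GVL** (local functionals give a local system; compare `RD.D_VAL`, of which the proof in
`Pool/Agent/Helper32/RD/VAL.lean` can be followed line by line). `R ⊆ S` is stable and consists of primes with
trivial decomposition group, none of them induced by an element of `T`; for `w ∈ R`, `θ w` is a surjective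
homomorphism `Mˣ → ZMod p` which kills the elements close to `1` at `w`.

PROOF. As `D_VAL`, with the given `θ w` in the place of the tame symbols. Let `rep` and `γ w` be as there
(`w.valuation (γ w y) = (rep w).valuation y`), `v x w = θ (rep w) ((γ w)⁻¹ x)` for `w ∈ R`, `v x w = ord_w(x) mod p` for
`w ∈ S ∖ R`. *equiv*, *add*, *stable*: as in `D_VAL`. *Local nature.* `v x w = 0` if `Cl p w x`; so `v x w = v y w`
if `Cl p w (x/y)`. *surj*: for `w ∈ R` choose `t_w` with `v t_w w = c w` (`θ` is surjective, `(γ w)⁻¹` bijective), for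
`w ∈ S ∖ R` a `t_w` with `ord_w(t_w) = (c w).val`; weak approximation with precision `V(p)³` (`weakApproxUnits`,
`γ w` a value `≤ V(t_w) V(p)³`). *approx*: `‖τ x‖ = 1` for all `τ` above `T`: take `x'` close to `x` at the primes `wt p τ`,
`τ` above `T`, not in `R`, and close to `1` at the other primes of `S`. *𝔪₀* is the product of `(p)³` and of the primes
of `S`; `α ≡ 1 mod 𝔪₀` implies `Cl p w α` for `w ∈ S`; *supp*: a prime which contains `p` is in `S`. -/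
def L_GVL : Prop :=
  ∀ (p : ℕ) [Fact p.Prime] (k : Type) [NormedField k] [NormedAlgebra ℚ_[p] k]
    [IsUltrametricDist k] (K M : Type) [Field K] [NumberField K] [Field M] [NumberField M]
    [Algebra K M] (δ : M ≃ₐ[K] M) (T : Set (K →+* k)) (R S : Set (HeightOneSpectrum (𝓞 M)))
    (θ : HeightOneSpectrum (𝓞 M) → Mˣ → ZMod p), S.Finite →
    (∀ w ∈ S, ∀ w', ConjP K w' w → w' ∈ S) →
    (∀ w : HeightOneSpectrum (𝓞 M), w.valuation M (p : M) < 1 → w ∈ S) → R ⊆ S →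
    (∀ w ∈ R, ∀ w', ConjP K w' w → w' ∈ R) → (∀ w ∈ R, FreeP K w) →
    (∀ w ∈ R, ∀ τ ∈ (above T : Set (M →+* k)), ¬ ∀ b : 𝓞 M, b ∈ w.asIdeal ↔ ‖τ (b : M)‖ < 1) →
    (∀ w ∈ R, (∀ x y, θ w (x * y) = θ w x + θ w y) ∧ (∃ x, θ w x ≠ 0) ∧
      ∀ x : Mˣ, Cl p w (x : M) → θ w x = 0) →
  ∃ (𝔪₀ : Ideal (𝓞 M)) (v : Mˣ → HeightOneSpectrum (𝓞 M) → ZMod p), LSys δ T S 𝔪₀ v ∧
    (∀ w ∈ S, w ∉ R → ∀ x : Mˣ, v x w = ((ordv w (x : M) : ℤ) : ZMod p)) ∧
    ∀ w ∈ R, ∃ w₀ ∈ R, ∃ g : M ≃ₐ[K] M, (∀ y : M, w.valuation M (g y) = w₀.valuation M y) ∧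
      ∀ x : Mˣ, v x w = θ w₀ (Pool.Agent.Helper42.PP.act g⁻¹ x)

end Pool.Agent.Helper42.PW
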