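import Pool.Agent.Helper42.PW.Defs3
import Pool.Agent.Helper42.PW.Goals1
import Pool.Agent.Helper38.ND.GoalsC
import Pool.Agent.Helper11.PP.GoalsE

/-!
# Project W, part 5: from classes to characters, families given by local conditions above `p`

Every statement is a `def ... : Prop` with its complete proof in the docstring.
-/

set_option autoImplicit false

namespace Pool.Agent.Helper42.PW

open NumberField Polynomial Module IsDedekindDomain
open Pool.Agent.Helper51.RP Pool.Agent.Helper42.RD Pool.Agent.Helper42.PP Pool.Agent.Helper42.PP1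
open Pool.Agent.Helper42.PB Pool.Agent.Helper11.PP Pool.Agent.Helper11.LE
open Pool.Agent.Helper38.FD (Chr CutsOut)
open Pool.Agent.Helper38.ND (cnt2)
open Pool.Agent.Helper77.PPB (ChN)

/-- **W_DEC** (a character which is trivial on the decomposition groups: the prime splits completely in its field).

PROOF. `F/K` is Galois (`Pool.Agent.Helper38.FD.isGalois_of_cutsOut`). Let `V` be a prime of `F` with
`x ∈ V ↔ ‖σ x‖ < 1` for `x ∈ 𝓞_K`, `g ∈ Gal(F/K)` with `V.valuation (g y) = V.valuation y`. To show: `g = 1`. (1) *`τ`.* `σ` has an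
extension `τ₀ : Ω → ℂ_p` (`Ω/K` is algebraic, `ℂ_p` algebraically closed: `IsAlgClosed.lift`). `V₀ = {b ∈ 𝓞_F : ‖τ₀ b‖ < 1}`
(`Pool.Agent.Helper32.RDV.wt p`) and `V` are above the same prime of `K`, so there is `h ∈ Gal(F/K)` with `b ∈ V ↔ h b ∈ V₀` (transitivity:
`Helper40.RS.conj_of_bel` or `Ideal.exists_map_eq_of_isGalois`); let `h̃ ∈ Gal(Ω/K)` be an extension of `h`, `τ = τ₀ ∘ h̃`: `τ` extends
`σ` and `b ∈ V ↔ ‖τ b‖ < 1` for `b ∈ 𝓞_F`. (2) *Lifting of `g`.* Let `B` be the integral closure of `ℤ` (or of `𝓞_F`) in `Ω`. `‖τ b‖ ≤ 1` for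
`b ∈ B`; `𝔐 = {b ∈ B : ‖τ b‖ < 1}` is a prime ideal. Let `g₁ ∈ Gal(Ω/K)` be an extension of `g` and `𝔐' = {b ∈ B : ‖τ(g₁ b)‖ < 1}`. Both
are above `V` (`b ∈ V ↔ g b ∈ V`). `Gal(Ω/F)`, a profinite group, acts transitively on the primes of `B` above `V`
(`Algebra.IsInvariant.exists_smul_of_under_eq_of_profinite` in `Mathlib/RingTheory/Invariant/Profinite.lean`), so there is
`h ∈ Gal(Ω/F)` such that for `g̃ = g₁ h` (or `g₁ h⁻¹`): `‖τ(g̃ b)‖ < 1 ↔ ‖τ b‖ < 1` for all `b ∈ B`; `g̃` extends `g`. (3) *`‖τ(g̃ x)‖ =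
‖τ x‖` for all `x ∈ Ω`.* Let `H ⊆ Ω` be a number field which contains `x`; `τ` and `τ' = τ ∘ g̃` restricted to `H` define the same prime
`W` of `H` (`wt p τ = wt p τ'`), and `‖τ y‖ = 1 ↔ W.valuation y = 1 ↔ ‖τ' y‖ = 1` (`Helper32.RDV.norm_le_one_of_val`, `val_of_norm`). If
`x ≠ 0`, `e = ord_W(p) > 0`, `n = ord_W(x)`, then `W.valuation (x^e p^(-n)) = 1`, so `‖τ x‖^e = ‖p‖^n = ‖τ' x‖^e`. So `DecT` gives
`χ g̃ = 1`, i.e. `g̃` is trivial on `F` (`CutsOut`), `g = 1`. *Second part:* let `w` be a prime of `F` above `p`. By `L_PRM` (for the field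
`F`; `Pool.Agent.Helper70.PW.l_prm`) there is `τ_F : F → ℂ_p` which induces `w`; use the first part for `σ = τ_F` restricted to `K`,
`V = w`. -/
def W_DEC : Prop :=
  ∀ (p : ℕ) [Fact p.Prime] (K : Type) [Field K] [NumberField K]
    (χ : Chr K (AlgebraicClosure K) ℂ_[p]) (F : IntermediateField K (AlgebraicClosure K))
    [NumberField F], CutsOut χ F →
  (∀ σ : K →+* ℂ_[p], DecT χ σ → SplF σ F) ∧
  ((∀ σ : K →+* ℂ_[p], DecT χ σ) → ∀ w : HeightOneSpectrum (𝓞 F), w.valuation F (p : F) < 1 →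
    FreeP K w)

/-- **W_LDT** (classes which are equal locally above `p` have characters which are equal on the decomposition groups above
`p`).

PROOF. Let `c = clp a`, `c' = clp a'`, `τ : Ω → ℂ_p` above `σ`, `g ∈ Gal(Ω/K)` with `‖τ (g x)‖ = ‖τ x‖`; to show
`cf c g = cf c' g`. `r = [K₁ : K]` divides `p - 1` (`LE.L_CYC`, proved: `r` is prime to `p` is enough); `g₁ = g^r` is trivial on
`j(K₁)` (`K₁/K` is Galois of degree `r`), and `‖τ (g₁ x)‖ = ‖τ x‖`. Let `s^p = j(a)`, `s'^p = j(a')`, `g₁ s = j(ε)^i s`,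
`g₁ s' = j(ε)^(i') s'` (`g₁ s` is also a `p`-th root of `j(a)`). By the Kummer relation `cf c g₁ = εk^i`, `cf c' g₁ = εk^(i')`. Let `y`
be as in `LocS` for `a/a'`, `t = s s'⁻¹ j(y)`: `t^p = j((a/a') y^p)` and `g₁ t = j(ε)^(i - i') t`. The prime of `K₁` induced by `τ ∘ j`
is above `p` and `W.valuation u ≤ W.valuation(p)³` implies `‖τ(j u)‖ ≤ ‖p‖³` (`Helper32.RDV.norm_le_one_of_val` for `u/p³`). So
`‖τ(t)^p - 1‖ ≤ p⁻³`. `X^p - 1 = ∏_{k < p} (X - ζ^k)`, `ζ = τ(j ε)`: if `‖τ t - ζ^k‖ ≥ λ` for all `k`, `λ = ‖ζ - 1‖`, `λ^(p-1) = p⁻¹`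
(`λ < 1`), then `p⁻³ ≥ λ^p = λ p⁻¹ ≥ p⁻²` (`λ ≥ λ^(p-1) = p⁻¹`), a contradiction. So `‖τ t - ζ^k‖ < λ` for some `k`. Apply this to
`g₁(t - j(ε)^k) = j(ε)^e t - j(ε)^k`, `e = i - i'` (an exponent modulo `p`): `‖ζ^e τ t - ζ^k‖ < λ`, so `‖(ζ^e - 1) τ t‖ < λ`, and
`‖τ t‖ = 1`; `‖ζ^e - 1‖ = λ` if `p ∤ e`. So `p ∣ e`, `εk^i = εk^(i')`, and `x = cf c g / cf c' g` satisfies `x^r = 1`. Also `x^p = 1`:
`cf c g ^ p = 1` because `cf c` cuts out `nf c`, Galois of degree `p` over `K` (`g^p` is trivial on `nf c`). So `x = 1`. -/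
def W_LDT : Prop :=
  ∀ (p : ℕ) [Fact p.Prime] (K K₁ : Type) [Field K] [NumberField K] [Field K₁] [NumberField K₁]
    [Algebra K K₁] (ε : K₁), Cyc p K K₁ ε → ∀ (j : K₁ →+* AlgebraicClosure K),
    (∀ x : K, j (algebraMap K K₁ x) = algebraMap K (AlgebraicClosure K) x) →
  ∀ εk : ℂ_[p]ˣ, IsPrimitiveRoot εk p →
  ∀ (nf : ClP p K₁ → IntermediateField K (AlgebraicClosure K))
    (cf : ClP p K₁ → Chr K (AlgebraicClosure K) ℂ_[p]),
    (∀ c ∈ BSet p K ε, nf c ∈ CycN p K) →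
    (∀ c ∈ BSet p K ε, CutsOut (cf c) (nf c) ∧ ∀ a : K₁ˣ, clp p a = c →
      ∀ s : AlgebraicClosure K, s ^ p = j (a : K₁) →
      ∀ g : AlgebraicClosure K ≃ₐ[K] AlgebraicClosure K, (∀ x : K₁, g (j x) = j x) → ∀ i : ℕ,
        g s = j ε ^ i * s → cf c g = εk ^ i) →
  ∀ a a' : K₁ˣ, clp p a ∈ BSet p K ε → clp p a' ∈ BSet p K ε →
    LocS p {W : HeightOneSpectrum (𝓞 K₁) | W.valuation K₁ (p : K₁) < 1} (a / a') →
  ∀ σ : K →+* ℂ_[p], DecT (cf (clp p a) * (cf (clp p a'))⁻¹) σ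

/-- **W_RAM** (the product of the norms of the ramified primes is a weight function). `Sp` is the set of the primes
above `p`.

PROOF (from `D_TAM`, `D_PRD`, `D_UNR`, `D_MAP`, `D_NLS`, all proved). Call `c`, `c'` equivalent if `c = clp a`, `c' = clp a'` with `a`, `a'` of
type `ω` and `LocS p (up K₁ Sp) (a/a')`: an equivalence relation on the classes of type `ω` (`LocS` of products and of
`p`-th powers). Let `e c` be the product of the norms of the `v ∈ Sp` such that there is `c' ∈ BSet` equivalent to `c` with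
`RamIn (nf c') v`, and `f c = condS K Sp c · e c`. `1 ≤ e c`, and `e` is constant on equivalence classes. Let `c ∈ BSet`,
`N = nf c`. `cond K N` is the product over the `v` with `RamIn N v`; the `v ∉ Sp` contribute `condS K Sp c` by `D_TAM` (`ValC c v`: the
valuations of `a` and `a y^p` are congruent modulo `p`). For `v ∈ Sp`: `RamIn N v` if and only if `RamIn (nf c') v` for some
`c' ∈ BSet` equivalent to `c`: let `RamIn (nf c') v`, `c' = clp a'`, `c = clp a`, `b = a'/a`; if `b` is a `p`-th power, `c = c'`;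
otherwise `clp b ∈ BSet`, `LocS p (up K₁ Sp) b` gives `NiceU p b` (`D_NLS`), so `clp b ∈ ASet` and `nf (clp b) ∈ CycF`; `D_PRD` for
`a' = b a` gives `RamIn (nf (clp b)) v` or `RamIn N v`, and the first is false by `D_UNR`. (Finiteness of the sets of primes:
`D_TAM`, or the sets with `RamIn` are finite as in `Pool/Agent/Helper95/PP`, `cond_eq`.) -/
def W_RAM : Prop :=
  ∀ (p : ℕ) [Fact p.Prime] (K K₁ : Type) [Field K] [NumberField K] [Field K₁] [NumberField K₁]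
    [Algebra K K₁] (ε : K₁), Cyc p K K₁ ε → ∀ (j : K₁ →+* AlgebraicClosure K),
    (∀ x : K, j (algebraMap K K₁ x) = algebraMap K (AlgebraicClosure K) x) →
  ∀ nf : ClP p K₁ → IntermediateField K (AlgebraicClosure K),
    (∀ c ∈ BSet p K ε, nf c ∈ CycN p K ∧ ∀ a : K₁ˣ, clp p a = c → Gen p j a (nf c)) →
    (∀ c ∈ BSet p K ε, (c ∈ ASet p K ε ↔ nf c ∈ CycF p K)) →
  ∀ Sp : Finset (HeightOneSpectrum (𝓞 K)), (∀ v, v ∈ Sp ↔ v.valuation K (p : K) < 1) →
  ∃ f : ClP p K₁ → ℕ, IsWt p K ε Sp f ∧ ∀ c ∈ BSet p K ε, f c = cond K (nf c)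

/-- **W_PRO** (a family given by local conditions at `S` has positive proportion).

PROOF. `D_TAU` (proved: `Pool.Agent.Helper15.PP.d_tau Pool.Agent.Helper74.PP.p_lfi`) for `F = K₁`, `Z = up K₁ S`, `H` the set of the elements
of type `ω`, gives the finite set `F₀`. Let `a₁` be of type `ω` with `clp a₁ ∈ A`, and `b_τ = a₁/τ` for `τ ∈ F₀`. Let `c = clp a ∈ BSet`,
`a` of type `ω`, `f c ≤ X`, `τ ∈ F₀` with `LocS p (up K₁ S) (a/τ)`: `a b_τ` is of type `ω` and `(a b_τ)/a₁ = a/τ`, so `c [b_τ] ∈ A` by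
`LocA` (`LocS` for `x` and `x⁻¹`). With `f = condS K S · e`: `e (c [b_τ]) = e (clp a₁)` and
`condS K S (c [b_τ]) ≤ condS K S c · condS K S [b_τ]` (`ValC (c c') v` implies `ValC c v` or `ValC c' v`; the sets are finite), so
`f (c [b_τ]) ≤ f c · e (clp a₁) · condS K S [b_τ] ≤ C X`. For fixed `τ` the map `c ↦ c [b_τ]` is injective, into
`(BSet ∩ A) ∪ {1}`. So `#{c ∈ BSet : f c ≤ X} ≤ |F₀| (#{c ∈ BSet ∩ A : f c ≤ C X} + 1)` (the last set is finite by the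
hypothesis). -/
def W_PRO : Prop :=
  ∀ (p : ℕ) [Fact p.Prime] (K K₁ : Type) [Field K] [NumberField K] [Field K₁] [NumberField K₁]
    [Algebra K K₁] (ε : K₁), IsPrimitiveRoot ε p →
  ∀ (S : Finset (HeightOneSpectrum (𝓞 K))) (A : Set (ClP p K₁)) (f : ClP p K₁ → ℕ),
    LocA p K ε S A → (∃ a : K₁ˣ, OmType p K ε (a : K₁) ∧ clp p a ∈ A) → IsWt p K ε S f →
    (∀ X : ℝ, {c | c ∈ BSet p K ε ∧ (f c : ℝ) ≤ X}.Finite) →
  ∃ C : ℝ, 0 < C ∧ ∀ X : ℝ,
    cV f (BSet p K ε) X ≤ C * (cV f (BSet p K ε ∩ A) (C * X) + 1)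

/-- The set `A` of characters of order `p` is given by local conditions above `p`: it is not empty, and whether a
character `φ` is in `A` depends only on the restrictions of `φ` to the decomposition groups above `p`. -/
structure LocC (p : ℕ) [Fact p.Prime] (K : Type) [Field K] [NumberField K]
    (A : Set (IntermediateField K (AlgebraicClosure K) × Chr K (AlgebraicClosure K) ℂ_[p])) :
    Prop where
  sub : A ⊆ ChN p K
  ne : A.Nonempty
  loc : ∀ x ∈ A, ∀ y ∈ ChN p K, (∀ σ : K →+* ℂ_[p], DecT (x.2 * y.2⁻¹) σ) → y ∈ A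

/-- **W_ASM** (from classes to characters; compare `ND.N_ASM`, proved in `Pool/Agent/Helper96/ND/NASM.lean`). `Bd r` are sets of
classes with constants `θ r`, `G` is a set of characters, `Z` a finite set of classes; the classes `c ∈ BSet` with
`(nf c, cf c) ∈ A`, `c ∉ Z`, whose character is not in `G` are in some `Bd r`.

PROOF (from `W_LDT`, `W_RAM`, `W_PRO`). Let `Sp` be the finite set of the primes above `p`, `f` the weight function of `W_RAM`,
`A' = {c | ∃ a a' : K₁ˣ of type ω, clp a = c, clp a' ∈ BSet, (nf (clp a'), cf (clp a')) ∈ A, LocS p (up K₁ Sp) (a/a')}`.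
`up K₁ Sp` is the set of the primes of `K₁` above `p`. `LocA p K ε Sp A'` is clear (products). `BSet ∩ A' = {c ∈ BSet : (nf c, cf c) ∈ A}`:
if `c ∈ A'` then `DecT (cf (clp a') * (cf c)⁻¹) σ` for all `σ` by `W_LDT`, so `(nf c, cf c) ∈ A` by `LocC.loc`; conversely take `a = a'`. `A'`
contains a class of type `ω`, because `A` is not empty and every element of `ChN` is `(nf c, cf c)`, `c ∈ BSet`. The map `c ↦ (nf c, cf c)`
is a bijection from `BSet` to `ChN` and from `BSet ∩ A'` to `A`, and `cond K (nf c) = f c`. So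
`cnt2 A X = cV f (BSet ∩ A') X`, `cnt2 ChN X = cV f BSet X`. By hypothesis `MomV` holds for `A'`, `f` and every `Bd r` (and for
`∅` with `0`), and for the set of all classes (with `S = ∅` replaced by `Sp`, `A = univ`, `Bd = ∅`). (1) The first property for
`univ`. (2) The number of the `x ∈ A`, `x ∉ G`, `cond ≤ X`, is at most `#Z + ∑_r #{c ∈ BSet ∩ A' ∩ Bd r : f ≤ X} ≤
#Z + ∑_r (θ r + η') cnt2 A X`, `η' = η/(n + 1)`, and `#Z ≤ η' cnt2 A X` for large `X` (`BSet ∩ A'` is infinite). (3) By `W_PRO`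
`cnt2 ChN X ≤ C (cV f (BSet ∩ A') (C X) + 1)`, and the doubling property gives `cV f (BSet ∩ A') (C X) ≤ C' cV f (BSet ∩ A') X` for large
`X`; `1 ≤ cnt2 A X` for large `X`. -/
def W_ASM : Prop :=
  ∀ (p : ℕ) [Fact p.Prime] (K K₁ : Type) [Field K] [NumberField K] [Field K₁] [NumberField K₁]
    [Algebra K K₁] (ε : K₁), Cyc p K K₁ ε → ∀ (j : K₁ →+* AlgebraicClosure K),
    (∀ x : K, j (algebraMap K K₁ x) = algebraMap K (AlgebraicClosure K) x) →
  ∀ εk : ℂ_[p]ˣ, IsPrimitiveRoot εk p →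
  ∀ (nf : ClP p K₁ → IntermediateField K (AlgebraicClosure K))
    (cf : ClP p K₁ → Chr K (AlgebraicClosure K) ℂ_[p]),
    (∀ c ∈ BSet p K ε, nf c ∈ CycN p K ∧ ∀ a : K₁ˣ, clp p a = c → Gen p j a (nf c)) →
    (∀ c ∈ BSet p K ε, (c ∈ ASet p K ε ↔ nf c ∈ CycF p K)) →
    (∀ c ∈ BSet p K ε, CutsOut (cf c) (nf c) ∧ ∀ a : K₁ˣ, clp p a = c →
      ∀ s : AlgebraicClosure K, s ^ p = j (a : K₁) →
      ∀ g : AlgebraicClosure K ≃ₐ[K] AlgebraicClosure K, (∀ x : K₁, g (j x) = j x) → ∀ i : ℕ,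
        g s = j ε ^ i * s → cf c g = εk ^ i) →
    (∀ N ∈ CycN p K, ∀ φ : Chr K (AlgebraicClosure K) ℂ_[p], CutsOut φ N →
      ∃! c, c ∈ BSet p K ε ∧ nf c = N ∧ cf c = φ) →
  ∀ A : Set (IntermediateField K (AlgebraicClosure K) × Chr K (AlgebraicClosure K) ℂ_[p]),
    LocC p K A →
  ∀ (n : ℕ) (Bd : Fin n → Set (ClP p K₁))
    (G : Set (IntermediateField K (AlgebraicClosure K) × Chr K (AlgebraicClosure K) ℂ_[p]))
    (Z : Set (ClP p K₁)) (θ : Fin n → ℝ), (∀ r, 0 ≤ θ r) → Z.Finite →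
    (∀ c ∈ BSet p K ε, (nf c, cf c) ∈ A → c ∉ Z → (nf c, cf c) ∉ G → ∃ r, c ∈ Bd r) →
    (∀ r, MomA p K ε (Bd r) (θ r)) → MomA p K ε ∅ 0 →
  (∀ X : ℕ, {x | x ∈ ChN p K ∧ cond K x.1 ≤ X}.Finite) ∧
  (∀ η : ℝ, 0 < η → ∀ᶠ X : ℕ in Filter.atTop,
    cnt2 {x | x ∈ A ∧ x ∉ G} X ≤ (∑ r, θ r + η) * cnt2 A X) ∧
  (∃ c : ℝ, 0 < c ∧ ∀ᶠ X : ℕ in Filter.atTop,
    0 < cnt2 (ChN p K) X ∧ c * cnt2 (ChN p K) X ≤ cnt2 A X)

end Pool.Agent.Helper42.PW
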