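import Pool.Agent.Helper42.PW.Goals1

/-!
# Project W, part 2: a local element which is not a norm, and descent to the number field

Every statement is a `def ... : Prop` with its complete proof in the docstring.
-/

set_option autoImplicit false

namespace Pool.Agent.Helper42.PW

open NumberField Polynomial Module IsDedekindDomain
open Pool.Agent.Helper51.RP Pool.Agent.Helper42.RD Pool.Agent.Helper42.PP Pool.Agent.Helper42.PP1
open Pool.Agent.Helper42.PB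
open Pool.Agent.Helper51.SigLeo (IwasawaLog)

/-- **N_TRN** (transport by an isomorphism).

PROOF. `e (nf p α z) = nf p (e α) (e ∘ z)` (`RingHom.map_det`), `W'.valuation (e u - 1) = W.valuation (u - 1)`; for
the converse use `e.symm`. -/
def N_TRN : Prop :=
  ∀ (p : ℕ) (F F' : Type) [Field F] [NumberField F] [Field F'] [NumberField F'] (e : F ≃+* F')
    (W : HeightOneSpectrum (𝓞 F)) (W' : HeightOneSpectrum (𝓞 F')),
    (∀ y : F, W'.valuation F' (e y) = W.valuation F y) →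
  ∀ α x : F, (PwAt p W' (e α) ↔ PwAt p W α) ∧ (NmAt p W' (e α) (e x) ↔ NmAt p W α x) ∧
    (LocAt p W' (e α) (e x) ↔ LocAt p W α x)

/-- **L_KEX** (a Kummer extension of a local field, with the extension of an automorphism). `𝓕` is a finite
extension of `ℚ_p` inside `k`, `β ∈ k`, `β^p = α ∈ 𝓕`, `β ∉ 𝓕`.

PROOF. `α` is not a `p`-th power in `𝓕`: if `α = b^p`, `b ∈ 𝓕`, then `(β/b)^p = 1`, so `β/b` is a power of `ε`
and `β ∈ 𝓕`. So `X^p - α` is irreducible over `𝓕` (`X_pow_sub_C_irreducible_of_prime`), it is the minimal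
polynomial of `β` over `𝓕`, and `1, β, ..., β^(p-1)` is a basis of `𝓕(β)` over `𝓕` (`IntermediateField.adjoin.powerBasis`).
Let `ℋ` be `𝓕(β)`, restricted to `ℚ_p` (`IntermediateField.restrictScalars`); it is finite dimensional over `ℚ_p`.
CLAIM: for every `ℚ_p`-algebra homomorphism `f : 𝓕 → ℋ` and `ρ ∈ ℋ` with `ρ^p = f(α)` there is a `ℚ_p`-algebra
homomorphism `ℋ → ℋ` which extends `f` and sends `β` to `ρ` (`ℋ ≅ AdjoinRoot (X^p - α)`, `AdjoinRoot.lift`; or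
`PowerBasis.lift` with `ℋ` an `𝓕`-algebra by `f`). It is injective, hence bijective (finite dimension over `ℚ_p`).
`γ`: `f` the inclusion, `ρ = ε β`. `g'`: `f = g`, `ρ = β^n c`: `ρ^p = α^n c^p = g(α)`. Finally `g' (γ y) = γ (g' y)`: on
`𝓕` both sides are `g y`; on `β`: `g'(ε β) = ε^n β^n c = (ε β)^n c = γ(β^n c)`; and `ℋ` is generated by `𝓕` and `β`. -/
def L_KEX : Prop :=
  ∀ (p : ℕ) [Fact p.Prime] (k : Type) [NormedField k] [NormedAlgebra ℚ_[p] k]
    [IsUltrametricDist k] (𝓕 : IntermediateField ℚ_[p] k) [FiniteDimensional ℚ_[p] 𝓕]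
    (ε α : 𝓕) (β : k), IsPrimitiveRoot ε p → α ≠ 0 → β ^ p = α → β ∉ 𝓕 →
  ∀ (g : 𝓕 ≃ₐ[ℚ_[p]] 𝓕) (n : ℕ) (c : 𝓕), g ε = ε ^ n → g α = α ^ n * c ^ p →
  ∃ (ℋ : IntermediateField ℚ_[p] k) (h : 𝓕 ≤ ℋ) (b : ℋ) (γ g' : ℋ ≃ₐ[ℚ_[p]] ℋ),
    FiniteDimensional ℚ_[p] ℋ ∧ (b : k) = β ∧
    (∀ y : ℋ, ∃ z : ℕ → 𝓕,
      y = ∑ j ∈ Finset.range p, IntermediateField.inclusion h (z j) * b ^ j) ∧
    (∀ y : 𝓕, γ (IntermediateField.inclusion h y) = IntermediateField.inclusion h y) ∧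
    γ b = IntermediateField.inclusion h ε * b ∧
    (∀ y : 𝓕, g' (IntermediateField.inclusion h y) = IntermediateField.inclusion h (g y)) ∧
    g' b = b ^ n * IntermediateField.inclusion h c ∧ ∀ y : ℋ, g' (γ y) = γ (g' y)

/-- **L_LOC** (an element of the base field which is not a norm). `𝓕` is a finite extension of `ℚ_p`, `ε ∈ 𝓕`, `α`
is not a `p`-th power in `𝓕`, `g` an automorphism of `𝓕` of order dividing `d`, prime to `p`, for which `α` has the
same type as `ε`. There is `u ≠ 0` in `𝓕`, fixed by `g`, which is not a norm from `𝓕(α^(1/p))`.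

PROOF (from `L_KEX`, `L_IDX`, `N_EVL`, `N_ALG`). `β ∉ 𝓕`. Let `ℋ`, `b`, `γ`, `g'` be as in `L_KEX`; `γ^p = 1`
(on `𝓕` and on `b`), `γ ≠ 1`, so `γ` has order `p`; `γ` and `g'` commute. `g'^d` is trivial on `𝓕`, and
`(g'^d b)^p = g'^d α = α = b^p`, so `g'^d b = ε^i b` for some `i` and `g'^d = γ^i` (they agree on `𝓕` and `b`);
so `g'^(d p) = 1`. Choose `e` with `p e ≡ 1 mod d` and let `g₁ = g'^(p e)`: `g₁^d = 1`, `g₁` is `g` on `𝓕` (`g^d = 1`), and
it commutes with `γ`. Let `E = {y ∈ ℋ : g₁ y = y}` (`IntermediateField.fixedField (Subgroup.zpowers g₁)`), a finite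
extension of `ℚ_p`, stable under `γ`; `σ = γ|_E`. `σ^p = 1`. `σ ≠ 1`: otherwise `γ` is in the fixing subgroup of
the fixed field of `⟨g₁⟩`, which is `⟨g₁⟩` (Artin: `IntermediateField.fixingSubgroup_fixedField`), so the order
`p` of `γ` divides `d`, a contradiction. So `σ` has order `p`, and `L_IDX` for `E` (with the norm of `ℋ`, i.e. of `k`) gives
`u ∈ E`, `u ≠ 0`, `σ u = u`, which is not a `∏_{i<p} σ^i(z)`, `z ∈ E`. *`u ∈ 𝓕`:* write `u = ∑_j z_j b^j`;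
`p u = ∑_{i<p} γ^i(u) = ∑_j z_j b^j ∑_i ε^(ij) = p z_0`, so `u = z_0`. And `g u = g₁ u = u`. Suppose that
`u = nf p α z`, `z : ℕ → 𝓕`. By `N_ALG` (1) and `N_EVL` in `ℋ`, `u = ∏_{i<p} γ^i(y)` with `y = ∑_j z_j b^j`
(`γ^i b = ε^i b`). Let `y' = ∏_{j<d} g₁^j(y)`, which is in `E` (`g₁^d = 1`). `∏_{i<p} σ^i(y') = ∏_{j<d} g₁^j(∏_i γ^i y) =
∏_j g₁^j(u) = u^d`, and `∏_{i<p} σ^i(u) = u^p`. Let `r d + s p = 1`, `r, s ∈ ℤ`: `u = ∏_i σ^i(y'^r u^s)`, a
contradiction. -/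
def L_LOC : Prop :=
  ∀ (p : ℕ) [Fact p.Prime] (k : Type) [NormedField k] [NormedAlgebra ℚ_[p] k]
    [IsUltrametricDist k] (𝓕 : IntermediateField ℚ_[p] k) [FiniteDimensional ℚ_[p] 𝓕]
    (ε α : 𝓕) (β : k), IsPrimitiveRoot ε p → α ≠ 0 → β ^ p = α → (¬ ∃ b : 𝓕, b ^ p = α) →
  ∀ (g : 𝓕 ≃ₐ[ℚ_[p]] 𝓕) (n d : ℕ) (c : 𝓕), g ε = ε ^ n → g α = α ^ n * c ^ p →
    0 < d → d.Coprime p → g ^ d = 1 →
  ∃ u : 𝓕, u ≠ 0 ∧ g u = u ∧ ∀ z : ℕ → 𝓕, nf p α z ≠ u

/-- **L_LC0** (local condition above `p`). `F/M` is a Galois extension of number fields, `W ∣ p` a prime of `F`,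
the decomposition group `D` of `W` over `M` acts faithfully on the `p`-th roots of unity, and `α` has the type of
`ε` for the elements of `D`. If `α` is not locally a `p`-th power then some element of `M` is not locally a norm from
`F(α^(1/p))`.

PROOF (from `L_PRM`, `L_CLO`, `L_DEN`, `L_RT`, `L_ISO`, `L_LOC`, `N_ALG`). (1) Let `τ : F → k` be given by `L_PRM`. For
`g ∈ Gal(F/M)`: `W.valuation (g y) = W.valuation y` for all `y` iff `‖τ (g y)‖ = ‖τ y‖` for all `y`. Let `𝓕`, `h` be as in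
`L_CLO` for `τ`; write `τ y` also for the element of `𝓕`. (2) `D → (ZMod p)ˣ`, `g ↦ n(g)`, `g ε = ε^(n(g))`, is an injective
homomorphism, so `D` is cyclic of order `d ∣ p - 1` (prime to `p`, `d > 0`). Let `g₀` be a generator, `g₀ ε = ε^n`,
`g₀ α = α^n c^p` (the hypothesis), and `ĝ` the automorphism of `𝓕` which extends `g₀` (`L_CLO`). For `y ∈ 𝓕` and
`e > 0` choose `x ∈ F` with `‖y - τ x‖ < e`: `‖ĝ^j y - τ(g₀^j x)‖ < e` (`L_ISO`). So `ĝ^d = 1`: `‖ĝ^d y - y‖ < e` for all `e`.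
(3) `τ α` is not a `p`-th power in `𝓕`: if `b^p = τ α`, `b ≠ 0`, let `y ∈ F` be so close to `b⁻¹` that
`‖τ(α y^p) - 1‖ = ‖(b τ(y))^p - 1‖ ≤ p^(-3)` (`b τ(y) = 1 + t`, `‖t‖ ≤ p^(-3)`); as `‖τ(p^3)‖ = p^(-3) < 1 = ‖τ 1‖` this is
`Cl p W (α y^p)` by `L_PRM`: so `PwAt p W α`, contradiction. (4) There is `β ∈ k` with `β^p = τ α`: `τ α` is a root of
the minimal polynomial `Q` of `α` over `ℚ`, which splits in `AlgebraicClosure ℚ`, so `τ α` is the image of an element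
of `AlgebraicClosure ℚ` under the given embedding, and this element has a `p`-th root. (5) `L_LOC` for `𝓕`, `τ ε`, `τ α`,
`β`, `ĝ`, `d` gives `u ∈ 𝓕`, `u ≠ 0`, `ĝ u = u`, not of the form `nf p (τ α) z`. So `u` is fixed by the extensions to `𝓕` of
all the `g ∈ D` (powers of `ĝ`). (6) Let `C` be given by `L_DEN` for `F/M`, `τ`. Choose `ρ > 0` with
`(C + 1) ρ ≤ p^(-3) ‖u‖`, `y ∈ F` with `‖u - τ y‖ ≤ ρ`. For `g = g₀^j ∈ D`: `τ(g y) - τ y = ĝ^j(τ y - u) + (u - τ y)` has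
norm `≤ ρ`. So there is `x ∈ M` with `‖τ x - τ y‖ ≤ C ρ`, `‖τ x - u‖ ≤ (C + 1) ρ ≤ p^(-3) ‖u‖`; so `x ≠ 0` and
`‖τ(x)/u - 1‖ ≤ p^(-3)`, `τ x = u v^p`, `v ∈ 𝓕` by `L_RT`. (7) Suppose `NmAt p W α x`: `z : ℕ → F` with
`Cl p W (x · nf p α z)`, so `‖τ(x) · nf p (τ α) (τ z) - 1‖ ≤ p^(-3)` (`N_ALG` (1), `L_PRM`: `‖τ(..)‖ ≤ ‖τ(p^3)‖`), and
`τ(x) · nf p (τ α) (τ z) = w^p`, `w ∈ 𝓕`, `w ≠ 0` (`L_RT`). So `u = (w/v)^p · (nf p (τ α) (τ z))⁻¹`. With `N = nf p (τ α) (τ z) ≠ 0`,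
`N⁻¹ = N^(p-1) (N⁻¹)^p`, and by `N_ALG` (2), (4) over the field `𝓕` every product of values of the norm form and of
`p`-th powers is a value of the norm form. So `u` is one: contradiction. -/
def L_LC0 : Prop :=
  ∀ (p : ℕ) [Fact p.Prime] (k : Type) [NormedField k] [NormedAlgebra ℚ_[p] k]
    [IsUltrametricDist k], Nonempty (AlgebraicClosure ℚ →+* k) →
  ∀ (M F : Type) [Field M] [NumberField M] [Field F] [NumberField F] [Algebra M F] [IsGalois M F]
    (ε α : F), IsPrimitiveRoot ε p → α ≠ 0 →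
  ∀ W : HeightOneSpectrum (𝓞 F), W.valuation F (p : F) < 1 →
    (∀ g : F ≃ₐ[M] F, (∀ y : F, W.valuation F (g y) = W.valuation F y) →
      ∃ (n : ℕ) (c : F), g ε = ε ^ n ∧ g α = α ^ n * c ^ p) →
    (∀ g : F ≃ₐ[M] F, (∀ y : F, W.valuation F (g y) = W.valuation F y) → g ε = ε → g = 1) →
    ¬ PwAt p W α → ∃ x : Mˣ, ¬ NmAt p W α (algebraMap M F (x : M))

/-- **W_THT** (the functional above `p`). `θ` is the functional at the prime `w` of `M` in `L_GVL`. `C` is the group of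
the `x ∈ Mˣ` which are local norms at all the primes of `F` above `w`.

PROOF (from `N_GRP`). `C` is a subgroup of `Mˣ` which contains the `p`-th powers (`N_GRP`), and `C ≠ Mˣ`. The group
`Mˣ/C` is a vector space over `ZMod p`, not zero, so it has a linear form which is not zero. If `Cl p w x` then
`Cl p W x` for the `W` above `w` (the valuation of `W` restricted to `M` is a power, with exponent `e ≥ 1`, of that of
`w`: `Pool.Agent.Helper40.RD.valW`), so `NmAt p W α x` (`N_GRP`) and `x ∈ C`. -/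
def W_THT : Prop :=
  ∀ (p : ℕ) [Fact p.Prime] (M F : Type) [Field M] [NumberField M] [Field F] [NumberField F]
    [Algebra M F] (α : F), α ≠ 0 → ∀ w : HeightOneSpectrum (𝓞 M),
    (∃ x : Mˣ, ¬ ∀ W : HeightOneSpectrum (𝓞 F), Above W w → NmAt p W α (algebraMap M F (x : M))) →
  ∃ θ : Mˣ → ZMod p, (∀ x y, θ (x * y) = θ x + θ y) ∧ (∃ x, θ x ≠ 0) ∧
    (∀ x : Mˣ, Cl p w (x : M) → θ x = 0) ∧
    ∀ x : Mˣ, (∀ W : HeightOneSpectrum (𝓞 F), Above W w → NmAt p W α (algebraMap M F (x : M))) →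
      θ x = 0

/-- **V_EXTW** (existence of `TauW` for every local class; compare `Helper94.PB.extB`, of which the proof in
`Pool/Agent/Helper94/PB/VEXT.lean` is to be adapted).

PROOF (from `L_GVL`, `W_THT`, `L_LC0`, `N_GRP`, `N_TRN`, `RS`, `RD` as in `extB`). Let `α = a₀ a`; `OmType p K ε₂ α`, `ε₂` the image
of `ε` in `M₂` (`om_alpha`). Let `S_M = up M S`.
*The set `R = R₁ ∪ R₂`.* `R₁` is the set `R` of `extB`: the `w ∈ S_M`, `FreeP K w`, above a `v ∤ p` which is `Good` for `α`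
with `al`; `θ w` is the tame symbol for `al` as in the proof of `D_VAL` (`Pool/Agent/Helper32/RD/VAL.lean`,
`exists_tame`): a surjective homomorphism `Mˣ → ZMod p` with kernel the `x` with `∃ j, LocPow p w (x al^j)`. `R₂` is the set
of the `w ∈ S_M` with `w ∣ p`, `FreeP K w`, `w` not induced by an element of `above T`
(`¬ ∃ τ ∈ above T, ∀ b, b ∈ w ↔ ‖τ b‖ < 1`), such that some `x ∈ Mˣ` does not satisfy `NmAt p W α x` for all `W` above `w`;
`θ w` is given by `W_THT` (`F = M₂`).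
*Hypotheses of `L_GVL`.* `R₁` is stable under `ConjP K` (see `extB`). `R₂` is stable: let `w' = g(w)`, `g ∈ Gal(M/K)`
(`w'.valuation (g y) = w.valuation y`), `g̃ ∈ Gal(M₂/K)` an extension of `g`. For `W` above `w` let `W'` be the prime with
`W'.valuation (g̃ y) = W.valuation y`, above `w'`; all the primes above `w'` are obtained. `g̃ α = α^n c^p` with `n` prime to
`p` (`g̃ ε₂ = ε₂^n`), so `NmAt p W α x ↔ NmAt p W' (g̃ α) (g̃ x) ↔ NmAt p W' α (g x)` (`N_TRN`, `N_GRP`). So `w ∈ R₂` implies the last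
condition for `w'`; `w'` is free (`free_of_conj`), `w' ∣ p`, `w' ∈ S_M`; and if `w'` is induced by `τ` then `w` is induced by
`τ ∘ g`, which is in `above T`. The `w ∈ R₁` are not induced by an embedding in `k` (`‖τ p‖ < 1`, `p ∉ w`). `θ w` for
`w ∈ R₁` kills the `x` with `Cl p w x` (`j = 0`). Let `𝔪₀`, `v` be given by `L_GVL`.
*The functionals.* As in `extB` (`s_sub`, `hlob`, `p_sep`): `P`-functionals `h_j` which vanish at the `x` with
`v x w = 0` for `w ∈ S_M` and `LocSig`. `hL`: `LocS p S_M x` implies `v x w = 0` for `w ∈ S_M`: for `w ∉ R`,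
`p ∣ ord_w(x)`; for `w ∈ R`, with `y` as in `LocS`, `Cl p w (x y^p)`, `Cl p w₀ (g⁻¹(x y^p))` and `θ` kills it and the
`p`-th powers. `LocSig` as in `extB`.
*`hS`.* Let `x` be of type `P`, `LocW p W α x` for `W ∈ up M₂ S` and `LocSig L (above T) x`. We show `v x w = 0` for all
`w ∈ S_M`. (a) `w` not free: `p ∣ ord_w(x)` (`nsp`), `w ∉ R`. (b) `w ∤ p` free: `LocAt p W α x` for the `W` above `w`, by the
first part of `LocW`, and the proof of `hcmp` in `extB` gives `LocD`, i.e. `p ∣ ord_w(x)` if `w ∉ R₁`, resp. the tame condition if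
`w ∈ R₁`; for `w ∈ R₁` the tame condition holds at all the conjugates `w₀ = g⁻¹ w` for `g⁻¹ x` (`al` is in `K`), so
`v x w = θ w₀ (g⁻¹ x) = 0`. (c) `w ∣ p` free, `w ∈ R₂`: `v x w = θ w₀ (g⁻¹ x)`, and `g⁻¹ x` is a local norm at all the `W₀` above
`w₀`, as above (transport by `g̃⁻¹` of the conditions for `x` at the `W` above `w`). (d) `w ∣ p` free, induced by
`τ ∈ above T`: `LocSig` with `N = 0` gives `y` with `‖τ(x y^p)‖ = 1`, so `ord_w(x y^p) = 0` (`AtT` in `L_LIFT`,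
`Pool/Agent/Helper49/RL/LIFT.lean`) and `p ∣ ord_w(x)`. (e) `w ∣ p` free, not induced by `above T`, `w ∉ R₂`: every `x' ∈ Mˣ`
satisfies `NmAt p W α x'` for the `W` above `w`. Let `W` be above `w`. `L_LC0` for `M₂/M` (Galois: `M₂/K` is) and
`W`: the decomposition group `D` of `W` in `Gal(M₂/M)`: `α` has the type of `ε₂` (`OmType`, restriction of scalars); if `g ∈ D`
and `g ε₂ = ε₂` then `g` is trivial on `M` and `ε`, so on `M₁` (`lin` of `SitW`: see `free_p` and the file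
`VEXB.lean`), and `g = 1` by `free_p`. So `PwAt p W α`, and the second part of `LocW` gives `p ∣ ord_W(x)`, hence `p ∣ ord_w(x)`
as at the end of `hcmp` (`free_ord`, `free_p`, `E_TRF` for `M₁/M`). -/
def V_EXTW : Prop :=
  ∀ (p : ℕ) [Fact p.Prime] (k : Type) [NormedField k] [NormedAlgebra ℚ_[p] k]
    [IsUltrametricDist k], Nonempty (AlgebraicClosure ℚ →+* k) →
  ∀ (K M K₁ M₁ J M₂ : Type) [Field K] [NumberField K] [Field M]
    [NumberField M] [Field K₁] [NumberField K₁] [Field M₁] [NumberField M₁] [Field J]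
    [NumberField J] [Field M₂] [NumberField M₂] [Algebra K M] [Algebra K K₁]
    [Algebra K M₁] [Algebra M M₁] [Algebra K₁ M₁] [Algebra K J] [Algebra K M₂] [Algebra M M₂]
    [Algebra K₁ M₂] [Algebra M₁ M₂] [Algebra J M₂] (ε : K₁) (δ : M ≃ₐ[K] M) (P : (ZMod p)[X])
    (a₀ : M₂ˣ), SitBs p K M K₁ M₁ J M₂ ε δ P a₀ →
  ∀ (L : IwasawaLog p k) (T : Set (K →+* k)) (B : Base p K M K₁ M₁ ε δ P)
    (aτ : K₁ˣ), OmType p K ε (aτ : K₁) →
  ∀ n : ℕ, (∀ (𝔪₀ : Ideal (𝓞 M)) (v : Mˣ → HeightOneSpectrum (𝓞 M) → ZMod p),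
      LSys δ T (up M B.S) 𝔪₀ v → ∃ F : Finset Mˣ, F.card = p ^ (P.natDegree * n) ∧
      (∀ x ∈ F, LSat L (above T) (up M B.S) v (pol P δ x)) ∧
      ∀ x ∈ F, ∀ y ∈ F, x ≠ y → ¬ LSat L (above T) (up M B.S) v (x / y)) →
  Nonempty (TauW n B a₀ L T aτ)

/-- **V_SELW** (compare `V_SEL`). If the Selmer group of `a₀ a` with the norm conditions at the primes above `p` is
not trivial then the labels of `a` are bad. -/
def V_SELW : Prop :=
  ∀ (p : ℕ) [Fact p.Prime] (k : Type) [NormedField k] [NormedAlgebra ℚ_[p] k]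
    [IsUltrametricDist k] (K M K₁ M₁ J M₂ : Type) [Field K] [NumberField K] [Field M]
    [NumberField M] [Field K₁] [NumberField K₁] [Field M₁] [NumberField M₁] [Field J]
    [NumberField J] [Field M₂] [NumberField M₂] [Algebra K M] [Algebra K K₁] [Algebra K M₁]
    [Algebra M M₁] [Algebra K₁ M₁] [Algebra K J] [Algebra K M₂] [Algebra M M₂] [Algebra K₁ M₂]
    [Algebra M₁ M₂] [Algebra J M₂] (ε : K₁) (δ : M ≃ₐ[K] M) (P : (ZMod p)[X])
    [Fact (Irreducible P)] (a₀ : M₂ˣ), SitB p K M K₁ M₁ J M₂ ε δ P a₀ →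
  ∀ (L : IwasawaLog p k) (T : Set (K →+* k)) (B : Base p K M K₁ M₁ ε δ P) (D : BaseB B a₀)
    (aτ : K₁ˣ) (n : ℕ) (E : TauW n B a₀ L T aτ), OmType p K ε (aτ : K₁) →
  ∀ a : K₁ˣ, OmType p K ε (a : K₁) → LocS p (up K₁ B.S) (a / aτ) →
    (∃ x : Mˣ, SelW L (above T) P δ ((a₀ : M₂) * algebraMap K₁ M₂ (a : K₁)) x ∧ ¬ Pw p x) →
  (sysB B E.toTauF (Spl M₂ B.S) D.s0 aτ).Bad (B.lab a)

end Pool.Agent.Helper42.PW
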