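import Pool.Agent.Helper42.PW.Defs3
import Pool.Agent.Helper42.PW.Goals2
import Pool.Agent.Helper38.ND.GoalsC

/-!
# Project W, part 4: the class level

Every statement is a `def ... : Prop` with its complete proof in the docstring.
-/

set_option autoImplicit false

namespace Pool.Agent.Helper42.PW

open NumberField Polynomial Module IsDedekindDomain
open Pool.Agent.Helper51.RP Pool.Agent.Helper42.RD Pool.Agent.Helper42.PP Pool.Agent.Helper42.PP1
open Pool.Agent.Helper42.PB Pool.Agent.Helper11.PP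
open Pool.Agent.Helper51.SigLeo (IwasawaLog)
open Pool.Agent.Helper76.PB (NrmInd)
open Pool.Agent.Helper38.ND (AnaN N_ABS)

/-- **W_CND** (the weight of a class in terms of its labels; compare `PP.D_CND`, proved in
`Pool/Agent/Helper85/PP/DCND.lean`).

PROOF. Let `f = condS · e` as in `IsWt`. Take `F = e(clp aτ) · F'`, `F'` the product of the norms of the `v ∈ S`, `v ∉ S₀`, such
that `p ∤ ord_W(aτ)` for some `W` above `v`. `e(clp a) = e(clp aτ)`: `LocS` at `up K₁ S` implies `LocS` at `up K₁ S₀`.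
`condS K S₀ (clp a)`: the valuations of `a` and `a y^p` at `W` are congruent modulo `p`, so `ValC (clp a) v` means that
`p ∤ ord_W(a)` for some `W` above `v`. If `v ∈ S` then `(a/aτ) y^p` is a unit at all the `W` above `v`, so
`ord_W(a) ≡ ord_W(aτ)`. If `v ∉ S` use the hypotheses: `ValC (clp a) v` if and only if `v = q.1` for some `q ∈ b`. The product is
over the disjoint union of a subset of `S ∖ S₀` and of the image of `b` under `q ↦ q.1`, on which this map is injective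
(`q.2` is determined by `q.1`). -/
def W_CND : Prop :=
  ∀ (p : ℕ) [Fact p.Prime] (K K₁ : Type) [Field K] [NumberField K] [Field K₁] [NumberField K₁]
    [Algebra K K₁] (ε : K₁) (S₀ S : Finset (HeightOneSpectrum (𝓞 K)))
    (V : Set (HeightOneSpectrum (𝓞 K)))
    (Q : HeightOneSpectrum (𝓞 K) → HeightOneSpectrum (𝓞 K₁)) (aτ : K₁ˣ) (f : ClP p K₁ → ℕ),
    S₀ ⊆ S → (∀ v ∈ V, v ∉ S) → (∀ v ∈ V, Above (Q v) v) → IsWt p K ε S₀ f →
    OmType p K ε (aτ : K₁) →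
  ∃ F : ℕ, 1 ≤ F ∧ ∀ (a : K₁ˣ) (b : Finset {q : HeightOneSpectrum (𝓞 K) × (ZMod p)ˣ // q.1 ∈ V}),
    OmType p K ε (a : K₁) → LocS p (up K₁ S) (a / aτ) →
    (∀ v ∈ V, ∀ W : HeightOneSpectrum (𝓞 K₁), Above W v →
      ((p : ℤ) ∣ ordv W (a : K₁) ↔ ordp p (Q v) a = 0)) →
    (∀ v : HeightOneSpectrum (𝓞 K), v ∉ S → v ∉ V → ∀ W : HeightOneSpectrum (𝓞 K₁), Above W v →
      (p : ℤ) ∣ ordv W (a : K₁)) →
    (∀ q, q ∈ b ↔ ordp p (Q q.1.1) a = (q.1.2 : ZMod p)) →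
    f (clp p a) = F * ∏ q ∈ b, Ideal.absNorm q.1.1.asIdeal

/-- **W_MOMV** (from the labels to the classes; compare `Helper38.ND.N_MOMW`, the theorem `core` in
`Pool/Agent/Helper11/PP/Core.lean` and the theorem `momW` in `Pool/Agent/Helper11/PB/Gen.lean`, which can be followed line by
line).

PROOF (from `N_ABS`, `W_CND`; `V_LAB`, `D_TAU` are theorems). `D_TAU` for `K₁`, `Z = up K₁ B.S` and `H` the set of the `a` of type
`ω` with `clp p a ∈ A` gives `F₀`, not empty. For `τ ∈ F₀` let `n_τ`, `E_τ`, `Kc`, `c`, `X₁` be given by the hypothesis and `F_τ` by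
`W_CND` (`S₀`, `S = B.S`, `V = B.calP`, `Q = B.Q`, `aτ = τ`). Apply `N_ABS` to `𝒯 = F₀`,
`β τ = {b : Finset B.LP // Fam τ b}`, `n τ b = nm b = ∏_{q ∈ b} absNorm q.1.1.asIdeal` (the sets `{b : β τ | ..}` and
`{b | Fam b ∧ ..}` have the same cardinality), `bad τ = {b | Bad b}`, `F = F_τ`, with common constants
(`common` in `Pool/Agent/Helper11/PP/MOM.lean`, as in `momW`), `ι = BSet ∩ A`, `f c`, `Φ c = (τ, lab a)`, where `a` is a
representative of `c` of type `ω` and `τ ∈ F₀` with `LocS p (up K₁ B.S) (a/τ)`. `clp p a = c ∈ A`, so `a ∈ H`. *Injective*: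
`V_LAB` (`Pw p (a/a')`). *Range*: let `(τ, b)`, `Fam τ b`; by `V_LAB` there is `a` of type `ω` with `LocS p (up K₁ B.S) (a/τ)` and
`lab a = b`; `clp a ∈ A` by `LocA` (`LocS` at `up K₁ B.S` implies `LocS` at `up K₁ S₀`, and for `τ/a` too). If `a` is not a `p`-th
power then `(τ, b) = Φ(clp a)` (as in `core`); if it is then `b = lab 1` and `τ` is determined: at most one exception. The
weights: `W_CND`. *Bad*: the hypothesis on `Bd`. The conclusion of `N_ABS` is `MomV` (`f` and the sets restricted to the subtype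
`ι`: see the end of `core`). -/
def W_MOMV : Prop :=
  N_ABS → W_CND → ∀ (p : ℕ) [Fact p.Prime] (_ : IwasawaLog p ℂ_[p]) (K M K₁ M₁ : Type) [Field K]
    [NumberField K] [Field M] [NumberField M] [Field K₁] [NumberField K₁] [Field M₁]
    [NumberField M₁] [Algebra K M] [Algebra K K₁] [Algebra K M₁] [Algebra M M₁] [Algebra K₁ M₁]
    (ε : K₁) (δ : M ≃ₐ[K] M) (P : (ZMod p)[X]) [Fact (Irreducible P)],
    SitW p K M K₁ M₁ ε δ P →
  ∀ (B : Base p K M K₁ M₁ ε δ P) (V : Set (HeightOneSpectrum (𝓞 K)))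
    (s0 : HeightOneSpectrum (𝓞 K) → ZMod p) (g : ℝ → ℝ) (K₀ : ℝ), Slow g K₀ →
  ∀ θ : ℝ, 0 ≤ θ → ∀ (S₀ : Finset (HeightOneSpectrum (𝓞 K))) (A Bd : Set (ClP p K₁))
    (f : ClP p K₁ → ℕ), S₀ ⊆ B.S → LocA p K ε S₀ A →
    (∃ a : K₁ˣ, OmType p K ε (a : K₁) ∧ clp p a ∈ A) → IsWt p K ε S₀ f →
    (∀ aτ : K₁ˣ, OmType p K ε (aτ : K₁) → clp p aτ ∈ A →
      ∃ (n : ℕ) (E : TauF n B) (Kc c X₁ : ℝ), 0 < c ∧ AnaN (sysB B E V s0 aτ) g θ Kc c X₁ ∧
        ∀ a : K₁ˣ, clp p a ∈ Bd → OmType p K ε (a : K₁) → LocS p (up K₁ B.S) (a / aτ) →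
          (sysB B E V s0 aτ).Bad (B.lab a)) →
  MomV p K ε A f Bd θ

/-- **W_EXB** (`V_EXB` with a given set of primes contained in `S`).

PROOF. That of `Pool.Agent.Helper94.PB.v_exb` (`Pool/Agent/Helper94/PB/VEXB.lean`), with `S₀` added to the finite set to which
`schB` is applied (`schB` gives `S ⊇` this set and `exbS` a `Base` with `B.S = S`). -/
def W_EXB : Prop :=
  ∀ (p : ℕ) [Fact p.Prime] (K M K₁ M₁ J M₂ : Type) [Field K] [NumberField K] [Field M]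
    [NumberField M] [Field K₁] [NumberField K₁] [Field M₁] [NumberField M₁] [Field J]
    [NumberField J] [Field M₂] [NumberField M₂] [Algebra K M] [Algebra K K₁]
    [Algebra K M₁] [Algebra M M₁] [Algebra K₁ M₁] [Algebra K J] [Algebra K M₂] [Algebra M M₂]
    [Algebra K₁ M₂] [Algebra M₁ M₂] [Algebra J M₂] (ε : K₁) (δ : M ≃ₐ[K] M) (P : (ZMod p)[X])
    (a₀ : M₂ˣ), SitB p K M K₁ M₁ J M₂ ε δ P a₀ →
  ∀ S₀ : Finset (HeightOneSpectrum (𝓞 K)),
  ∃ B : Base p K M K₁ M₁ ε δ P, S₀ ⊆ B.S ∧ Nonempty (BaseB B a₀)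

/-- **W_EX1** (the existence of the `TauW` with `NrmInd` for `χ₀ = 1`; compare `Helper11.PB.M_EXT1`).

PROOF (from `V_EXTW`, `V_LINE`). That of `Pool.Agent.Helper94.PB.m_ext1` (`Pool/Agent/Helper94/PB/VEX1.lean`), with `V_EXTW` in
the place of `extB` in `extB1` (no condition on `aτ` above `p`) and `TauW` in the place of `TauB` in `extB1`, `drop`, `ext_one`,
`ext_J` (the proofs use only the part `TauF`; `hS` of a subfamily is clear). -/
def W_EX1 : Prop :=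
  ∀ (p : ℕ) [Fact p.Prime] (L : IwasawaLog p ℂ_[p]) (K K₁ J M₂ : Type) [Field K]
    [NumberField K] [Field K₁] [NumberField K₁] [Field J] [NumberField J] [Field M₂]
    [NumberField M₂] [Algebra K K₁] [Algebra K J] [Algebra K M₂] [Algebra K₁ M₂] [Algebra J M₂]
    (ε : K₁) (a₀ : M₂ˣ),
    SitBs p K K K₁ K₁ J M₂ ε (1 : K ≃ₐ[K] K) (X - 1) a₀ → (¬ ∃ ξ : K, IsPrimitiveRoot ξ p) →
  ∀ (T : Set (K →+* ℂ_[p])) (B : Base p K K K₁ K₁ ε (1 : K ≃ₐ[K] K) (X - 1)) (_ : BaseB B a₀)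
    (aτ : K₁ˣ), OmType p K ε (aτ : K₁) →
  (finrank K J = 1 → ∃ E : TauW (B.S.card + T.ncard) B a₀ L T aτ, NrmInd E.toTauF M₂) ∧
  (1 < finrank K J → ∃ E : TauW (B.S.card + T.ncard - 1) B a₀ L T aτ, NrmInd E.toTauF M₂)

/-- **W_APX** (a global element of type `ω` with given local classes above `p`).

PROOF. Let `Gal(K₁/K)` act on `ε` by `n(ρ)`: `ρ ε = ε^(n(ρ))`, and let `n'(ρ) ∈ ℕ`, `n(ρ) n'(ρ) ≡ 1 mod p`. `a₀^(-1)`, `M₂ = M₁ J`.
For every `v ∣ p` of `K` choose a prime `W_v` of `M₂` above `v`; let `D_v ⊆ Gal(M₂/K)` be its decomposition group; its order `d_v` is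
prime to `p`: an element of `D_v` which is trivial on `M₁` preserves the prime of `J` below `W_v`, so it is trivial on `J` (`splJ`)
and trivial (`lin₂`), so `D_v` embeds in `Gal(M₁/K)`, of order prime to `p` (`c1`, `c2`, `copm` of `SitW`; see `cop_KM₁` in
`Pool/Agent/Helper94/PB`). Let `d_v d'_v ≡ 1 mod p`. By weak approximation there is `c ∈ M₂ˣ` with `Cl p W_v (c a₀^(d'_v))` for
all `v ∣ p` and `Cl p W c` for the other primes `W ∣ p` of `M₂`. Let `b = ∏_{ρ ∈ Gal(K₁/K)} ρ(N c)^(n'(ρ))`, `N = N_{M₂/K₁}`.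
*Type `ω`:* for `τ ∈ Gal(K₁/K)`, `τ ε = ε^n` (`n ∈ ℕ`), `τ b = ∏_ρ (τρ)(N c)^(n'(ρ)) = ∏_ρ ρ(N c)^(n'(τ⁻¹ρ))` and
`n'(τ⁻¹ρ) ≡ n n'(ρ) mod p`: `τ b = b^n` up to a `p`-th power (of an element of `K₁`, positive or negative exponents). *Local class:*
`M₂/K`, `K₁/K` are Galois; the image of `b` in `M₂` is `∏_{σ ∈ Gal(M₂/K)} σ(c)^(n'(σ|K₁))` (group by the cosets of `Gal(M₂/K₁)`).
At `W_v`: if `σ ∉ D_v` then `σ⁻¹ W_v` is a prime above `v`, different from `W_v`, so `Cl p (σ⁻¹ W_v) c` and `Cl p W_v (σ c)`; if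
`σ ∈ D_v`, `Cl p W_v (σ(c) σ(a₀)^(d'_v))` and `σ(a₀) = a₀^(m) y^p`, `m ≡ n(σ|K₁)` (`om`), so
`σ(c)^(n'(σ))` is `a₀^(-d'_v m n'(σ))` up to `Cl` and `p`-th powers, i.e. `a₀^(-d'_v)`. The product over `D_v` is `a₀^(-d_v d'_v)`, i.e.
`a₀⁻¹`: `PwAt p W_v (a₀ b)`. For any prime `W ∣ p` of `M₂`, `W = g W_v` for some `v`, `g ∈ Gal(M₂/K)` (`W.valuation (g y) =
W_v.valuation y`); `a₀ b` is of type `ω` for `K`, `g(a₀ b) = (a₀ b)^m y^p` with `m` prime to `p`, and `PwAt p W (g(a₀ b))`, so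
`PwAt p W (a₀ b)` (`N_TRN`, `N_GRP`). Weak approximation gives one `y` for all `W ∣ p`: `LocS`. -/
def W_APX : Prop :=
  ∀ (p : ℕ) [Fact p.Prime] (K M K₁ M₁ J M₂ : Type) [Field K] [NumberField K] [Field M]
    [NumberField M] [Field K₁] [NumberField K₁] [Field M₁] [NumberField M₁] [Field J]
    [NumberField J] [Field M₂] [NumberField M₂] [Algebra K M] [Algebra K K₁]
    [Algebra K M₁] [Algebra M M₁] [Algebra K₁ M₁] [Algebra K J] [Algebra K M₂] [Algebra M M₂]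
    [Algebra K₁ M₂] [Algebra M₁ M₂] [Algebra J M₂] (ε : K₁) (δ : M ≃ₐ[K] M) (P : (ZMod p)[X])
    (a₀ : M₂ˣ), SitX p K M K₁ M₁ J M₂ ε δ P a₀ →
  ∃ b : K₁ˣ, OmType p K ε (b : K₁) ∧
    LocS p {W : HeightOneSpectrum (𝓞 M₂) | W.valuation M₂ (p : M₂) < 1}
      (a₀ * Units.map (algebraMap K₁ M₂ : K₁ →* M₂) b)

/-- **W_SHF** (translation by a class).

PROOF. Let `S`, `A`, `f`, `e` be as in `MomA` for the set `{c | c [b] ∈ Bd}`, `[b] = clp p b`. Let `S'` be `S` together with the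
finitely many primes `v` such that `p ∤ ord_W(b)` for some `W` above `v`, `A' = {c' | c' [b]⁻¹ ∈ A}`, `f' c' = f (c' [b]⁻¹)`.
*`LocA S' A'`*: if `LocS p (up K₁ S') (a/a')` then `LocS p (up K₁ S) ((a/b)/(a'/b))` and `a/b`, `a'/b` are of type `ω`. *Not empty*:
`a b`. *`IsWt S' f'`* with `e' c' = e (c' [b]⁻¹) · F(c')`, `F(c')` the product of the norms of the `v ∈ S'`, `v ∉ S`, with
`ValC (c' [b]⁻¹) v`: for `v ∉ S'`, `ValC (c' [b]⁻¹) v ↔ ValC c' v` (valuations modulo `p`; for every class the set of the `v` with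
`ValC c v` is finite), and for `v ∈ S'` it depends only on the local class at `S'`. So `MomV` holds for `A'`, `f'`, `Bd`. The map
`c ↦ c [b]` is a bijection of `BSet ∪ {1}` onto itself (`b` is of type `ω`), of `A` onto `A'`, with `f' (c [b]) = f c`. Let `N(X)`,
`N'(X)` be the two counting functions, `N_b`, `N'_b` those of the bad classes: they differ by at most `1`
(`c = 1`, `c [b] = 1`). `N(X)` tends to infinity, so `N(2X) ≤ N'(2X) + 1 ≤ C N'(X) + 1 ≤ C (N(X) + 1) + 1 ≤ (2C + 1) N(X)` for large `X`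
(`C > 0`), and `N_b(X) ≤ N'_b(X) + 1 ≤ (θ + η/2) (N(X) + 1) + 1 ≤ (θ + η) N(X)` for large `X`. -/
def W_SHF : Prop :=
  ∀ (p : ℕ) [Fact p.Prime] (K K₁ : Type) [Field K] [NumberField K] [Field K₁] [NumberField K₁]
    [Algebra K K₁] (ε : K₁) (Bd : Set (ClP p K₁)) (θ : ℝ), 0 ≤ θ → IsPrimitiveRoot ε p →
  ∀ b : K₁ˣ, OmType p K ε (b : K₁) → MomA p K ε Bd θ →
    MomA p K ε {c | c * clp p b ∈ Bd} θ

/-- **MOMBV**: the moment theorem for `χ₀ ≠ 1`, for all families of characters of order `p` given by local conditions. -/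
def MOMBV : Prop :=
  ∀ (p : ℕ) [Fact p.Prime] (L : IwasawaLog p ℂ_[p]) (K M K₁ M₁ J M₂ : Type) [Field K]
    [NumberField K] [IsTotallyComplex K] [Field M] [NumberField M] [Field K₁] [NumberField K₁]
    [Field M₁] [NumberField M₁] [Field J] [NumberField J] [Field M₂] [NumberField M₂] [Algebra K M]
    [Algebra K K₁] [Algebra K M₁] [Algebra M M₁] [Algebra K₁ M₁] [Algebra K J] [Algebra K M₂]
    [Algebra M M₂] [Algebra K₁ M₂] [Algebra M₁ M₂] [Algebra J M₂] (ε : K₁) (δ : M ≃ₐ[K] M)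
    (P : (ZMod p)[X]) (a₀ : M₂ˣ), SitX p K M K₁ M₁ J M₂ ε δ P a₀ → NTV p M₁ ε δ P →
    1 < finrank K₁ M₂ →
  ∀ (m : ℕ) (ζ : ℂ_[p]) (Φ : ℤ_[p][X]), PhiData p m ζ Φ P → finrank K M = m → TorOK P δ →
  ∀ T : Set (K →+* ℂ_[p]), PlaceClosed T → finrank ℚ K = 2 * T.ncard →
  MomA p K ε (BdW L T P δ a₀) ((p : ℝ) ^ P.natDegree / (p * ((p : ℝ) ^ P.natDegree - 1)))

/-- **MOMB1V**: the moment theorem for `χ₀ = 1`, for all families of characters of order `p` given by local conditions. -/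
def MOMB1V : Prop :=
  ∀ (p : ℕ) [Fact p.Prime] (L : IwasawaLog p ℂ_[p]) (K K₁ J M₂ : Type) [Field K]
    [NumberField K] [Field K₁] [NumberField K₁] [Field J] [NumberField J] [Field M₂]
    [NumberField M₂] [Algebra K K₁] [Algebra K J] [Algebra K M₂] [Algebra K₁ M₂] [Algebra J M₂]
    (ε : K₁) (a₀ : M₂ˣ),
    SitX p K K K₁ K₁ J M₂ ε (1 : K ≃ₐ[K] K) (X - 1) a₀ → (¬ ∃ ξ : K, IsPrimitiveRoot ξ p) →
  ∀ T : Set (K →+* ℂ_[p]), PlaceClosed T → Units.rank K + 1 ≤ T.ncard →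
  MomA p K ε (BdW L T (X - 1 : (ZMod p)[X]) (1 : K ≃ₐ[K] K) a₀)
    ((p : ℝ) ^ (Units.rank K + 1) / (p ^ T.ncard * (p - 1)))

end Pool.Agent.Helper42.PW
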