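import Pool.Agent.Helper42.PW.Defs2
import Pool.Agent.Helper42.PW.Goals2

/-!
# Project W, part 3: the algebraic side (a trivial Selmer group implies the `Σ`-Leopoldt statement)

Every statement is a `def ... : Prop` with its complete proof in the docstring.
-/

set_option autoImplicit false

namespace Pool.Agent.Helper42.PW

open NumberField Polynomial Module IsDedekindDomain TensorProduct
open Pool.Agent.Helper51.SigLeo
open Pool.Agent.Helper51.RP Pool.Agent.Helper42.RD Pool.Agent.Helper11.LE Pool.Agent.Helper11.PP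
open Pool.Agent.Helper77.RL (Sqr SplitAt NoTor)
open Pool.Agent.Helper77.PPB (CondW)
open Pool.Agent.Helper38.FD (Chr CutsOut LeopoldtFor)

/-- **W_RM1** (valuations of norms of elements with `γ(y)/y` a unit, no condition on `a`; compare `RP.S_RAM`,
proved in `Pool/Agent/Helper42/RS/RAM.lean`).

PROOF (from `N_HEN`). Let `w` be a prime of `H` above `v`, `e ≥ 1` the ramification index: `ord_w(c) = e ord_v(c)`
for `c ∈ Mˣ`. `γ^j(y) = u_j y` with units `u_j` (`u_0 = 1`), so `e ord_v(x) = ord_w(∏ γ^j y) = p ord_w(y)`. CLAIM: there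
is `c ∈ Mˣ` with `ord_w(y) = ord_w(c) = e ord_v(c)`. Then `ord_v(x) = p ord_v(c)`. *First case* (`v ∤ p`,
`p ∣ ord_v(a)`): this is `claimA` in `RAM.lean` (it does not use `a ≡ 1`; `a` in the field `M` is enough: choose
`c₀ ∈ Mˣ` with `ord_v(a c₀^p) = 0`, `θ = c₀ s`, `y = ∑ α_i θ^i`, `p α_i θ^i = η_i y` with `η_i ∈ 𝓞_H`, `∑ η_i = p`). *Second
case*: let `c₀ ∈ M` with `Cl p v u'`, `u' = a c₀^p`, `c₀ ≠ 0`, `s' = c₀ s`: `s'^p = u'`, `γ s' = ε s'`. By `N_HEN` for every `N`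
there is `v_N ∈ M` with `v.valuation (v_N - 1) < 1` and `v.valuation (u' - v_N^p) ≤ exp(-N)`. Up to sign
`∏_{j<p} (ε^j s' - v_N) = s'^p - v_N^p`, of `ord_w ≥ N`, so for each `N` there is `j` with `ord_w(ε^j s' - v_N) ≥ N/p` (or
the element is zero); choose a `j` which occurs for arbitrarily large `N`. Write `y = ∑ α_i s'^i`, `c = ∑ α_i (ε^(-j) v_N)^i`;
`y - c = ∑ α_i (s'^i - (ε^(-j) v_N)^i)` is `s' - ε^(-j) v_N` times cofactors of `ord_w ≥ min ord_w(α_i)` (`s'` and `v_N` are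
integral at `w`), so for `N` large `ord_w(y - c) > ord_w(y)`, `ord_w(c) = ord_w(y)` (this is `claimB` in `RAM.lean`, with
the sequence `v_N` in the place of the one of `S_ROO`). -/
def W_RM1 : Prop :=
  ∀ (p : ℕ) [Fact p.Prime] (M H : Type) [Field M] [NumberField M] [Field H] [NumberField H]
    [Algebra M H] (ε a : M) (s : H) (γ : H ≃ₐ[M] H), IsPrimitiveRoot ε p → a ≠ 0 →
    finrank M H = p → s ^ p = algebraMap M H a → γ s = algebraMap M H ε * s →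
  ∀ (y : Hˣ) (u : (𝓞 H)ˣ) (x : M), γ (y : H) = (u : H) * y →
    algebraMap M H x = ∏ j ∈ Finset.range p, (γ ^ j) (y : H) →
  ∀ v : HeightOneSpectrum (𝓞 M),
    (v.valuation M (p : M) = 1 → (p : ℤ) ∣ ordv v a → (p : ℤ) ∣ ordv v x) ∧
    (PwAt p v a → (p : ℤ) ∣ ordv v x)

/-- **W_HIL** (from units to Selmer elements; compare `LE.L_HIL`, `Pool/Agent/Helper13/LE/HIL.lean`, and `RP.S_HIL`).

PROOF (from `W_RM1`, `RP.S_TAM`, `N_EVL`, `N_ALG`, `RL.L_LSD`; theorems `Pool.Agent.Helper20.RP.s_tam`,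
`Pool.Agent.Helper86.PPO.l_lsd`). *loc.* Let `W` be a prime of `M₁`, `y₁ ∈ H₁` the image of `y`, `x₁` the image of `x` in
`M₁`; `γ₁(y₁) = u₁ y₁` with the image `u₁` of the unit `u 0`, and `∏_j γ₁^j(y₁)` is the image of `x₁` (`compat`, `ext`).
`LocAt` at the `W ∤ p` (`W.valuation p = 1`): `W_RM1`, first part, and `S_TAM`. `W ∣ p`: the valuation condition is
`W_RM1`, second part. `NmAt p W a x₁`: `H₁ = M₁(s)`: `1, s, ..., s^(p-1)` is a basis of `H₁/M₁` (degree `p`, the `s^j` are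
eigenvectors of `γ₁` for distinct eigenvalues; see `RAM.lean`), so `y₁⁻¹ = ∑_{j<p} z_j s^j` with `z_j ∈ M₁`, and by `N_ALG`
(1), `N_EVL` in `H₁` (`β = s`) `nf p a z = ∏_i ∑_j z_j (ε^i s)^j = ∏_i γ₁^i(y₁⁻¹) = x₁⁻¹`. So `x₁ · nf p a z = 1`, and
`Cl p W 1`. *sig.* `LData p m 1 δ δ'` (`RL/Goals.lean`): `H/M` is Galois of degree `p` with group generated by `γ`
(`γ` is trivial on `M`, of order `p`), `δ'` commutes with the powers of `γ`, `δ'^m = 1`. `L_LSD` (with `Ω`, `T`, `TypT`)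
reduces to `LocSig L (above (above T)) (up x)` for `H`. Let `N ∈ ℕ`, `b` a unit of norm 1 with
`(u N) b = (u 0) γ(b)`, `y' = y b`: `γ(y') = (u N) y'` and `∏ γ^j(y') = x`. So `x y'^(-p) = ∏_{j<p} γ^j(y')/y' =
∏_{j<p} ∏_{l<j} γ^l(u N)` (`VV_coe` in `Pool/Agent/Helper79/RP/HIL*.lean`), and for `τ` above `T` the elements
`τ(γ^l(u N))` have norm 1 (units) and logarithms of norm `≤ p^(-N)`: `SigSmall N (up x · (y'⁻¹)^p)`. -/
def W_HIL : Prop :=
  ∀ (p : ℕ) [Fact p.Prime] (k : Type) [NormedField k] [NormedAlgebra ℚ_[p] k]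
    [IsUltrametricDist k] [CompleteSpace k], Nonempty (AlgebraicClosure ℚ →+* k) →
  ∀ (L : IwasawaLog p k) (K M H M₁ H₁ Ω : Type) [Field K] [NumberField K]
    [Field M] [NumberField M] [Field H] [NumberField H] [Field M₁] [NumberField M₁] [Field H₁]
    [NumberField H₁] [Field Ω] [Algebra K M] [Algebra M H] [Algebra K H] [IsScalarTower K M H]
    [Algebra M M₁] [Algebra M₁ H₁] [Algebra H H₁] [Algebra H Ω] [IsAlgClosure H Ω]
    [Algebra K Ω] [IsScalarTower K H Ω] (m : ℕ) (δ : M ≃ₐ[K] M)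
    (γ δ' : H ≃ₐ[K] H) (γ₁ : H₁ ≃ₐ[M₁] H₁) (T : Set (K →+* k)) (ε a : M₁) (s : H₁)
    (P : (ZMod p)[X]), Irreducible P → HDataW (p := p) K M H M₁ H₁ m δ γ δ' γ₁ T ε a s →
    TypT M Ω P δ' T →
  ∀ u : ℕ → (𝓞 H)ˣ, (∀ N, ∏ j ∈ Finset.range p, (γ ^ j) (u N : H) = 1) →
    (∀ N, ∃ b : (𝓞 H)ˣ, ∏ j ∈ Finset.range p, (γ ^ j) (b : H) = 1 ∧
      (u N : H) * b = u 0 * γ (b : H)) →
    (∀ N l, ∀ τ ∈ (above (above T : Set (M →+* k)) : Set (H →+* k)),
      ‖logUnits L τ ((unitsHom γ)^[l] (Additive.ofMul (u N)))‖ ≤ (1 / p : ℝ) ^ N) →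
  ∀ (y : Hˣ) (x : Mˣ), γ (y : H) = (u 0 : H) * y →
    algebraMap M H (x : M) = ∏ j ∈ Finset.range p, (γ ^ j) (y : H) → Pw p (pol P δ x) →
  (∀ W : HeightOneSpectrum (𝓞 M₁), LocW p W a (algebraMap M M₁ (x : M))) ∧
    LocSig L (above T : Set (M →+* k)) x

/-- **W_P1** (part I; compare `RP.S_P1`).

PROOF (from `W_HIL`, `RP.S_LA`, `RP.S_RAT`). As `S_P1` (docstring in `Helper51/RP/Goals1.lean`, proof in
`Pool/Agent/Helper9/RP/P1.lean`), with the following change at the place where `S_HIL` is applied: let `u N` be the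
sequence obtained from `S_LA` (after the shift). By Hilbert 90 there is `y ∈ Hˣ` with `γ(y) = (u 0) y`, and its norm is the
image of some `x ∈ Mˣ` (`hilbert90`, `fix_mem`, `nrm_fix` in `Pool/Agent/Helper79/RP`). `P(δ) x` is a `p`-th power:
part *pol* of the proof of `S_HIL` (`Pool/Agent/Helper79/RP/HIL.lean`); so `W_HIL` applies and `x` is in the Selmer group
`SelW`, a `p`-th power by hypothesis, and by the part *p-th powers* of that proof `u 0 = γ(t)/t` with a unit `t` of norm 1, a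
contradiction. These parts do not use the condition `adm` of `HData`. -/
def W_P1 : Prop :=
  ∀ (p : ℕ) [Fact p.Prime] (k : Type) [NormedField k] [NormedAlgebra ℚ_[p] k]
    [IsUltrametricDist k] [CompleteSpace k], Nonempty (AlgebraicClosure ℚ →+* k) →
  ∀ (L : IwasawaLog p k) (K M H M₁ H₁ Ω : Type) [Field K] [NumberField K]
    [Field M] [NumberField M] [Field H] [NumberField H] [Field M₁] [NumberField M₁] [Field H₁]
    [NumberField H₁] [Field Ω] [Algebra K M] [Algebra M H] [Algebra K H] [IsScalarTower K M H]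
    [Algebra M M₁] [Algebra M₁ H₁] [Algebra H H₁] [Algebra H Ω] [IsAlgClosure H Ω]
    [Algebra K Ω] [IsScalarTower K H Ω] (m : ℕ) (δ : M ≃ₐ[K] M)
    (γ δ' : H ≃ₐ[K] H) (γ₁ : H₁ ≃ₐ[M₁] H₁) (T : Set (K →+* k)) (ε a : M₁) (s : H₁)
    (ζ : k) (Φ : ℤ_[p][X]) (P : (ZMod p)[X]), PhiData p m ζ Φ P →
    HDataW (p := p) K M H M₁ H₁ m δ γ δ' γ₁ T ε a s → TypT M Ω P δ' T → TorOK P δ' →
    (∀ x : Mˣ, SelW L (above T) P δ a x → Pw p x) →
  ∀ (ε' : k), IsPrimitiveRoot ε' p →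
  ∀ z : k ⊗[ℤ] Additive (𝓞 H)ˣ, extEnd (unitsHom γ) z = ε' • z → extEnd (unitsHom δ') z = ζ • z →
    (∀ τ ∈ (above (above T : Set (M →+* k)) : Set (H →+* k)), extHom (logUnits L τ) z = 0) → z = 0

/-- **W_P10** (part I, `M = K`; compare `PPO.d_p1`, `Pool/Agent/Helper77/PPO/GOO.lean`).

PROOF (from `W_HIL`). As `d_p1`, up to the application of `l_hil` (which is replaced by `W_HIL` with `M = K`, `δ = 1`,
`δ' = 1`, `m = 1`, `P = X - 1`; `pol (X - 1) 1 x = x^p`, see `pol_one` in `Pool/Agent/Helper94/PP1`): we obtain `y ∈ Hˣ`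
with `γ(y) = (u 0) y` and `x ∈ Kˣ`, the norm of `y`, in the Selmer group; so `x = w^p`, `w ∈ Kˣ`. Let `t = y/w`: `N(t) = 1`
and `γ(t)/t = u 0`; `t` is a unit, because `ord(γ^j t) = ord(t)` for all `j` and `0 = ord(N t) = p ord(t)` at all primes
of `H` (part *p-th powers* of `S_HIL`, `Pool/Agent/Helper79/RP/HIL.lean`). This contradicts the second conclusion of `L_LA`
with `b = t` and torsion part `0`. -/
def W_P10 : Prop :=
  ∀ (p : ℕ) [Fact p.Prime] (k : Type) [NormedField k] [NormedAlgebra ℚ_[p] k]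
    [IsUltrametricDist k] [CompleteSpace k], Nonempty (AlgebraicClosure ℚ →+* k) →
  ∀ (L : IwasawaLog p k) (K H K₁ H₁ Ω : Type) [Field K] [NumberField K]
    [Field H] [NumberField H] [Field K₁] [NumberField K₁] [Field H₁]
    [NumberField H₁] [Field Ω] [Algebra K H] [Algebra K K₁] [Algebra K₁ H₁] [Algebra H H₁]
    [Algebra H Ω] [IsAlgClosure H Ω] [Algebra K Ω] [IsScalarTower K H Ω]
    (γ : H ≃ₐ[K] H) (γ₁ : H₁ ≃ₐ[K₁] H₁) (T : Set (K →+* k)) (ε a : K₁) (s : H₁),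
    HDataW (p := p) K K H K₁ H₁ 1 1 γ 1 γ₁ T ε a s →
    TypT K Ω (X - 1 : (ZMod p)[X]) (1 : H ≃ₐ[K] H) T →
    (∀ x : Kˣ, (∀ W : HeightOneSpectrum (𝓞 K₁), LocW p W a (algebraMap K K₁ (x : K))) →
      LocSig L T x → Pw p x) →
  ∀ (ε' : k), IsPrimitiveRoot ε' p →
  ∀ z : k ⊗[ℤ] Additive (𝓞 H)ˣ, extEnd (unitsHom γ) z = ε' • z →
    (∀ τ ∈ (above T : Set (H →+* k)), extHom (logUnits L τ) z = 0) → z = 0

/-- **W_SPF** (a place which splits completely in `F` splits completely in `H = M' F` over `M'`).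

PROOF (as `PPB.B_SPA`, `Pool/Agent/Helper56/PPB/BSPA.lean`). Let `g ∈ Gal(H/M')` preserve the norms of `τ'`, `g_F` its
restriction to `F` (Galois over `K`; `g` is trivial on `K`). Let `V` be the prime of `F` given by `x ∈ V ↔ ‖τ' x‖ < 1`, `x ∈ 𝓞_F`.
`x ∈ V ↔ g_F x ∈ V`, so `V.valuation (g_F y) = V.valuation y`. For `x ∈ 𝓞_K`: `x ∈ V ↔ ‖σ x‖ < 1`. So `g_F = 1` by `SplF`, and
`g = 1`. -/
def W_SPF : Prop :=
  ∀ (p : ℕ) [Fact p.Prime] (K F M' H : Type) [Field K] [NumberField K] [Field F]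
    [NumberField F] [Field M'] [Field H] [NumberField H] [Algebra K F] [Algebra K M'] [Algebra K H]
    [Algebra F H] [Algebra M' H] [IsScalarTower K F H] [IsScalarTower K M' H] [IsGalois K F],
    (∀ g : H ≃ₐ[M'] H, (∀ x : F, g (algebraMap F H x) = algebraMap F H x) → g = 1) →
  ∀ σ : K →+* ℂ_[p], SplF σ F → ∀ τ' : H →+* ℂ_[p], τ'.comp (algebraMap K H) = σ → SplitAt M' τ'

/-- **W_NOT** (no torsion). `g` is an automorphism of `Ω` over `K`, in the decomposition group of `τ`, acting on the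
`p`-th roots of unity as the `r`-th power; `g^(p^a)` is `δ'^(t p^a)` on `H`, and `ζ^t` is not congruent to `r`.

PROOF. In `NoTor` take `s = g^(p^a)` (iterate), with exponents `t p^a` and `i = r^(p^a)`. `s` preserves the norms of `τ`
and acts on the `p`-th roots of unity as `ξ ↦ ξ^(r^(p^a))`. *Coprime:* `i = r` in `ZMod p`, and
`X^(t p^a) - r = X^(t p^a) - r^(p^a) = (X^t - r)^(p^a)` in characteristic `p`. `P` is irreducible, so it is enough that `P` does not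
divide `X^t - r`. *First case* (`PhiData`): this is step (0) of `PPB.B_NTV` (`Pool/Agent/Helper58/PPB/BNTV.lean`): if `P`
divides the reduction of `U = X^t - r ∈ ℤ[X]` then `‖U(ζ)‖ < 1`. *Second case*: `P = X - 1` divides `X^t - r` iff `r = 1` in
`ZMod p`, and then `‖1 - r‖ < 1`. -/
def W_NOT : Prop :=
  ∀ (p : ℕ) [Fact p.Prime] (L H Ω : Type) [Field L] [Field H] [Field Ω] [Algebra L H]
    [Algebra H Ω] (δ' : H ≃ₐ[L] H) (P : (ZMod p)[X]) (ζ : ℂ_[p]),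
    ((∃ (m : ℕ) (Φ : ℤ_[p][X]), PhiData p m ζ Φ P) ∨ (P = X - 1 ∧ ζ = 1)) →
  ∀ (τ : Ω →+* ℂ_[p]) (g : Ω →+* Ω) (a t r : ℕ), (∀ x, ‖τ (g x)‖ = ‖τ x‖) →
    (∀ ξ : Ω, ξ ^ p = 1 → g ξ = ξ ^ r) → ‖ζ ^ t - r‖ = 1 →
    (∀ x : H, g^[p ^ a] (algebraMap H Ω x) = algebraMap H Ω ((δ' ^ (t * p ^ a)) x)) →
  NoTor P δ' τ

/-- **W_PRM** (compare `PPB.B_PRM`).

PROOF (from `N_DNS`; `B_PRM` is the theorem `Pool.Agent.Helper53.PPB.b_prm`). `CondW` is `B_PRM`. `abp`: let `W ∣ p` be a prime of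
`M₂`, `v` the prime of `K` below it, `p ∈ v`, `W'` a prime of `M₂'` above `W`, `V` the prime of `E` below `W'`, above `v`:
`FreeP K V`. If `g ∈ Gal(M₂'/M₂)` preserves the valuation of `W'`, its restriction to `E` preserves that of `V`, so it is trivial,
and `g = 1`: `FreeP M₂ W'`. Apply `N_DNS` to `M₂'/M₂` (Galois, as `M₂'/K` is). -/
def W_PRM : Prop :=
  ∀ (p : ℕ) [Fact p.Prime] (K M M₂ E M₂' : Type) [Field K] [NumberField K] [Field M] [NumberField M]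
    [Field M₂] [NumberField M₂] [Field E] [NumberField E] [Field M₂'] [NumberField M₂']
    [Algebra K M] [Algebra K M₂] [Algebra M M₂] [IsScalarTower K M M₂] [Algebra K E]
    [Algebra K M₂'] [Algebra M₂ M₂'] [Algebra E M₂'] [IsScalarTower K M₂ M₂']
    [IsScalarTower K E M₂'] [IsGalois K M] [IsGalois K E] [IsGalois K M₂'],
    (∀ g : M₂' ≃ₐ[K] M₂', (∀ x : M₂, g (algebraMap M₂ M₂' x) = algebraMap M₂ M₂' x) →
      (∀ y : E, g (algebraMap E M₂' y) = algebraMap E M₂' y) → g = 1) →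
  ∀ α : M₂,
    (∀ v : HeightOneSpectrum (𝓞 K), (p : 𝓞 K) ∈ v.asIdeal →
      ∀ V : HeightOneSpectrum (𝓞 E), Above V v → FreeP K V) →
    (∀ v : HeightOneSpectrum (𝓞 K),
      (∃ W : HeightOneSpectrum (𝓞 M₂), Above W v ∧ ¬ (p : ℤ) ∣ ordv W α) →
      ∀ V : HeightOneSpectrum (𝓞 E), Above V v → FreeP K V) →
    (∀ v : HeightOneSpectrum (𝓞 K),
      (∃ w : HeightOneSpectrum (𝓞 M), Above w v ∧ FreeP K w) →
      ∀ V : HeightOneSpectrum (𝓞 E), Above V v → ∀ x : K, ordv V (algebraMap K E x) = ordv v x) →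
  CondV p K M M₂ M₂' α

/-- **W_TRV** (abstract lifting; compare `PPB.B_TRV`, proved in `Pool/Agent/Helper59/PPB/BTRV.lean`).

PROOF (from `N_GRP`, `N_TRN`, `N_CMP`). As `B_TRV`, with the following changes. (0) *The group `V`* of the `x ∈ M'ˣ` which
satisfy `SelW`: for `W' ∣ p` the condition `NmAt p W' α x ∧ (PwAt p W' α → p ∣ ord_{W'}(x))` defines a subgroup which contains the
`p`-th powers (`N_GRP`). *Stability* under `g ∈ Gal(M'/M)`, with `f`, `c` given by `hst`, `W''.valuation y = W'.valuation (f y)`: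
`x ∈ V` satisfies `NmAt p W'' α x`, so `NmAt p W' (f α) (f x)` by `N_TRN`, `f α = α c^p` (`c ≠ 0`), `f x = g x`, and
`NmAt p W' α (g x)` by `N_GRP` (`n = 1`); if `PwAt p W' α` then `PwAt p W' (α c^p)` (`N_GRP`, `n = 1`) and `PwAt p W'' α`
(`N_TRN`), so `p ∣ ord_{W''}(x) = ord_{W'}(g x)`. `W'' ∣ p` iff `W' ∣ p` (`f p = p`). For `W' ∤ p` as in `B_TRV`. (1) *loc* for `x₀`
at `W ∤ p`: as in `B_TRV` (`W'` above `W` has `W'.valuation p = 1` too, since `ord_{W'} = ord_W` on `M₂`). At `W ∣ p`: let `W'` be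
given by `abp`; `W'.valuation p < 1`, the image of `x₀` satisfies `LocW p W' α`, and by `N_CMP` (`F = M₂`, `F' = M₂'`)
`NmAt p W α x₀`; if `PwAt p W α` then `PwAt p W' α`, `p ∣ ord_{W'}(x₀) = ord_W(x₀)`. -/
def W_TRV : Prop :=
  ∀ (p : ℕ) [Fact p.Prime] (k : Type) [NormedField k] [NormedAlgebra ℚ_[p] k]
    [IsUltrametricDist k], Nonempty (AlgebraicClosure ℚ →+* k) →
  ∀ (Lg : IwasawaLog p k) (n m : ℕ) (K M L M' M₂ M₂' : Type) [Field K] [NumberField K] [Field M]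
    [NumberField M] [Field L] [NumberField L] [Field M'] [NumberField M'] [Field M₂]
    [NumberField M₂] [Field M₂'] [NumberField M₂'] [Algebra K M] [Algebra K L] [Algebra K M']
    [Algebra M M'] [Algebra L M'] [IsScalarTower K M M'] [IsScalarTower K L M'] [Algebra M M₂]
    [Algebra M M₂'] [Algebra M₂ M₂'] [Algebra M' M₂'] [IsScalarTower M M₂ M₂']
    [IsScalarTower M M' M₂'], Sqr p n K M L M' →
  ∀ (δ : M ≃ₐ[K] M) (δL : M' ≃ₐ[L] M') (P : (ZMod p)[X]), Irreducible P → δ ^ m = 1 →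
    (∀ x : M, δL (algebraMap M M' x) = algebraMap M M' (δ x)) → TorOK P δL →
    (∀ w : HeightOneSpectrum (𝓞 M), ¬ FreeP K w → ∀ x : Mˣ, Pw p (pol P δ x) →
      (p : ℤ) ∣ ordv w (x : M)) →
  ∀ (T : Set (K →+* k)),
    (∀ τ' : M' →+* k, τ'.comp (algebraMap K M') ∈ T → SplitAt M τ') →
  ∀ α : M₂, α ≠ 0 →
    (∀ g : M' ≃ₐ[M] M', ∃ (f : M₂' ≃+* M₂') (c : M₂'),
      (∀ x : M', f (algebraMap M' M₂' x) = algebraMap M' M₂' (g x)) ∧
      f (algebraMap M₂ M₂' α) = algebraMap M₂ M₂' α * c ^ p) →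
    CondV p K M M₂ M₂' α → (∀ x : Mˣ, SelW Lg (above T) P δ α x → Pw p x) →
  ∀ x : M'ˣ, SelW Lg (above (above T : Set (L →+* k))) P δL (algebraMap M₂ M₂' α) x → Pw p x

/-- **W_CO1** (the core, `χ₀ ≠ 1`; compare `PPB.B_CO1`, proved in `Pool/Agent/Helper32/PPB/BCO1.lean`).

PROOF (from `W_P1`, `W_SPF`, `W_NOT`; `PPB.B_TOR` is a theorem). As `B_CO1`, with `HDataW` and `W_P1` in the place of `HData`,
`S_P1` (`a` is any element of `M₂`, not zero, `s^p = a`). New: `TypT M' Ω P δ' (above T)` with `Ω` the algebraic closure of `K`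
(it is an algebraic closure of `H~ = M ⊔ F`), base field `L`. Let `σ' ∈ above T`, `σ = σ'|_K ∈ T`. (A) If `SplF σ F`: `W_SPF` for
`F ⊆ H~ ⊇ M'` (an automorphism of `H~/M'` which is trivial on `F` is trivial, `H~ = M ⊔ F`). (B) If `NonOm χ' σ`: let `τ` extend
`σ'` to `Ω`; it extends `σ`, so there are `g`, `r`. Let `g|_M = δ^t` (`δ` generates `Gal(M/K)`), `a = n + 1`. `g^(p^a)` is trivial on
`F` (`F/K` is Galois of degree `p^(n+1)`), and on `H~ = M ⊔ F` it agrees with `δ'^(t p^a)` (`δ'` is `δ` on `M` and trivial on `F`).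
`χ'(g) = χ₀(δ)^t`. Apply `W_NOT` (first case, `ζ = χ₀(δ)`). -/
def W_CO1 : Prop :=
  ∀ (p : ℕ) [Fact p.Prime] (K : Type) [Field K] [NumberField K]
    (ιinf : AlgebraicClosure K →+* ℂ) (ιp : AlgebraicClosure K →+* ℂ_[p]) (Lg : IwasawaLog p ℂ_[p])
    (S : Set (K →+* ℂ)), PlaceClosed (TSet ιinf ιp S) →
  ∀ (M : IntermediateField K (AlgebraicClosure K)) [NumberField M] [IsGalois K M]
    (χ₀ : (M ≃ₐ[K] M) →* ℂ_[p]ˣ), Function.Injective χ₀ → (finrank K M).Coprime p →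
  ∀ χ' : Chr K (AlgebraicClosure K) ℂ_[p],
    (∀ g, χ' g = χ₀ (AlgEquiv.restrictNormalHom M g)) →
  ∀ (δ : M ≃ₐ[K] M) (Φ : ℤ_[p][X]) (P : (ZMod p)[X]), orderOf δ = finrank K M →
    PhiData p (finrank K M) ((χ₀ δ : ℂ_[p]ˣ) : ℂ_[p]) Φ P → TorOK P δ →
  ∀ (n : ℕ) (L F M' M₂ : IntermediateField K (AlgebraicClosure K)) [NumberField L] [NumberField F]
    [NumberField M'] [NumberField M₂] [IsGalois K L] [IsGalois K F] [Algebra M M'] [Algebra L M']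
    [Algebra M' M₂],
    (∀ x : M, ((algebraMap M M' x : M') : AlgebraicClosure K) = x) →
    (∀ x : L, ((algebraMap L M' x : M') : AlgebraicClosure K) = x) →
    (∀ x : M', ((algebraMap M' M₂ x : M₂) : AlgebraicClosure K) = x) →
    L ≤ F → finrank K L = p ^ n → finrank K F = p ^ (n + 1) → M' = M ⊔ L →
    IsGalois M' M₂ → (finrank M' M₂).Coprime p →
    (∀ σ ∈ TSet ιinf ιp S, SplF σ F ∨ NonOm χ' σ) →
  ∀ (δL : M' ≃ₐ[L] M'), (∀ x : M, δL (algebraMap M M' x) = algebraMap M M' (δ x)) →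
  ∀ (ε a : M₂), IsPrimitiveRoot ε p → a ≠ 0 →
  ∀ s : AlgebraicClosure K, s ^ p = (a : AlgebraicClosure K) → s ∉ M₂ →
    (∀ g : AlgebraicClosure K ≃ₐ[K] AlgebraicClosure K, (∀ y ∈ F, g y = y) →
      (∀ y ∈ M₂, g y = y) → g s = s) →
    (∀ x : (M')ˣ, SelW Lg (above (above (TSet ιinf ιp S) : Set (L →+* ℂ_[p])) :
      Set (M' →+* ℂ_[p])) P δL a x → Pw p x) →
  ∀ (H : IntermediateField K (AlgebraicClosure K)) [FiniteDimensional K H] [Normal K H]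
    (χ : (H ≃ₐ[K] H) →* ℂ_[p]ˣ) (η : (F ≃ₐ[K] F) →* ℂ_[p]ˣ), Function.Injective χ →
    (∃ g : F ≃ₐ[K] F, (∀ x : F, (x : AlgebraicClosure K) ∈ L → g x = x) ∧ η g ≠ 1) →
    (∀ g : AlgebraicClosure K ≃ₐ[K] AlgebraicClosure K, χ (AlgEquiv.restrictNormalHom H g) =
      χ₀ (AlgEquiv.restrictNormalHom M g) * η (AlgEquiv.restrictNormalHom F g)) →
  InjectiveOn (finrank K H) χ unitsHom (logSigma ιinf ιp S Lg)

/-- **W_CO0** (the core, `χ₀ = 1`; compare `PPB.B_CO0`, proved in `Pool/Agent/Helper30/PPB/BCO0.lean`).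

PROOF (from `W_P10`, `W_SPF`, `W_NOT`). As `B_CO0`, with `HDataW L L F M₂ H₁ 1 1 γ 1 γ₁ (above T) ε a s` and `W_P10` in the place
of `HD` and `d_p1`. `TypT L Ω (X - 1) 1 (above T)`: as in `W_CO1`: (A) `W_SPF` with `F ⊆ F ⊇ L`; (B) `NonOm 1 σ`: `g`, `r` with
`‖1 - r‖ = 1`, `g^(p^(n+1))` is trivial on `F`; `W_NOT` (second case, `ζ = 1`, `t = 0`, `δ' = 1`). -/
def W_CO0 : Prop :=
  ∀ (p : ℕ) [Fact p.Prime] (K : Type) [Field K] [NumberField K]
    (ιinf : AlgebraicClosure K →+* ℂ) (ιp : AlgebraicClosure K →+* ℂ_[p]) (Lg : IwasawaLog p ℂ_[p])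
    (S : Set (K →+* ℂ)), PlaceClosed (TSet ιinf ιp S) →
  ∀ (n : ℕ) (L F M₂ : IntermediateField K (AlgebraicClosure K)) [NumberField L] [NumberField F]
    [NumberField M₂] [IsGalois K L] [IsGalois K F] [Algebra L M₂],
    (∀ x : L, ((algebraMap L M₂ x : M₂) : AlgebraicClosure K) = x) →
    L ≤ F → finrank K L = p ^ n → finrank K F = p ^ (n + 1) →
    (∀ σ ∈ TSet ιinf ιp S, SplF σ F ∨ NonOm (1 : Chr K (AlgebraicClosure K) ℂ_[p]) σ) →
  ∀ (ε a : M₂), Cyc p L M₂ ε → OmType p L ε a → a ≠ 0 →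
  ∀ s : AlgebraicClosure K, s ^ p = (a : AlgebraicClosure K) → s ∉ M₂ →
    (∀ g : AlgebraicClosure K ≃ₐ[K] AlgebraicClosure K, (∀ y ∈ F, g y = y) →
      (∀ y ∈ M₂, g y = y) → g s = s) →
    (∀ x : (L)ˣ, (∀ W : HeightOneSpectrum (𝓞 M₂), LocW p W a (algebraMap L M₂ (x : L))) →
      LocSig Lg (above (TSet ιinf ιp S) : Set (L →+* ℂ_[p])) x → Pw p x) →
  ∀ (H : IntermediateField K (AlgebraicClosure K)) [FiniteDimensional K H] [Normal K H]
    (χ : (H ≃ₐ[K] H) →* ℂ_[p]ˣ) (η : (F ≃ₐ[K] F) →* ℂ_[p]ˣ), Function.Injective χ →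
    (∃ g : F ≃ₐ[K] F, (∀ x : F, (x : AlgebraicClosure K) ∈ L → g x = x) ∧ η g ≠ 1) →
    (∀ g : AlgebraicClosure K ≃ₐ[K] AlgebraicClosure K, χ (AlgEquiv.restrictNormalHom H g) =
      η (AlgEquiv.restrictNormalHom F g)) →
  InjectiveOn (finrank K H) χ unitsHom (logSigma ιinf ιp S Lg)

/-- **W_GL1** (a trivial twisted Selmer group implies the `Σ`-Leopoldt statement, `χ₀ ≠ 1`; compare `PPB.B_GL1`, proved in
`Pool/Agent/Helper48/PPB/BGL1.lean`). `F₁` is the field of `ψ₁`.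

PROOF (from `W_TRV`, `W_PRM`, `W_CO1`; `B_SPA`, `B_NIN`, `B_STB`, `B_TOR`, `L_SQR` are theorems). As `B_GL1`, without the passage from
`α` to an integral element: `s^p = α`, `a` is the image of `α` in `M₂' = M₁ ⊔ L₀`. New: the hypothesis on the places of `T` for
`F = L₀ ⊔ F₁ = J ⊔ E ⊔ F₁`: let `σ ∈ T` with `SplF σ F₁`. Then `SplF σ F`: let `V` be a prime of `F` above the place of `σ`, `v` the
prime of `K` below `V`: `x ∈ v ↔ ‖σ x‖ < 1`, so `p ∈ v`. If `g ∈ Gal(F/K)` preserves the valuation of `V`, its restrictions to `J`, `E`,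
`F₁` preserve the valuations of the primes below `V`, so they are trivial (the primes of `J`, `E` above `p` are free, and the prime
of `F₁` below `V` is above the place of `σ`), and `g = 1` (`gen_sup3` in `GL1A.lean`). -/
def W_GL1 : Prop :=
  ∀ (p : ℕ) [Fact p.Prime] (K : Type) [Field K] [NumberField K]
    (ιinf : AlgebraicClosure K →+* ℂ) (ιp : AlgebraicClosure K →+* ℂ_[p]) (Lg : IwasawaLog p ℂ_[p])
    (S : Set (K →+* ℂ)), PlaceClosed (TSet ιinf ιp S) →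
  ∀ (M M₁ J M₂ : IntermediateField K (AlgebraicClosure K)) [NumberField M] [NumberField M₁]
    [NumberField J] [NumberField M₂] [IsGalois K M] [IsGalois K M₁] [IsGalois K J] [Algebra M M₂],
    (∀ x : M, ((algebraMap M M₂ x : M₂) : AlgebraicClosure K) = x) → M ≤ M₁ → M₂ = M₁ ⊔ J →
    (finrank K M₁).Coprime p → (∃ l : ℕ, finrank K J = p ^ l) →
    (∀ v : HeightOneSpectrum (𝓞 K), (p : 𝓞 K) ∈ v.asIdeal →
      ∀ V : HeightOneSpectrum (𝓞 J), Above V v → FreeP K V) →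
  ∀ (χM : (M ≃ₐ[K] M) →* ℂ_[p]ˣ), Function.Injective χM →
  ∀ (δ : M ≃ₐ[K] M) (Φ : ℤ_[p][X]) (P : (ZMod p)[X]), orderOf δ = finrank K M →
    PhiData p (finrank K M) ((χM δ : ℂ_[p]ˣ) : ℂ_[p]) Φ P → TorOK P δ →
    (∀ w : HeightOneSpectrum (𝓞 M), ¬ FreeP K w → ∀ x : (M)ˣ, Pw p (pol P δ x) →
      (p : ℤ) ∣ ordv w (x : M)) →
  ∀ (χ₀ ψ₁ ψ : Chr K (AlgebraicClosure K) ℂ_[p]),
    (∀ g, χ₀ g = χM (AlgEquiv.restrictNormalHom M g)) →
  ∀ (F₁ : IntermediateField K (AlgebraicClosure K)) [NumberField F₁] [IsGalois K F₁],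
    CutsOut ψ₁ F₁ →
    (∃ l : ℕ, ψ₁ ^ p ^ l = 1) → (∀ g, (∀ x ∈ J, g x = x) → ψ₁ g ^ p = 1) →
    (∀ σ ∈ TSet ιinf ιp S, SplF σ F₁ ∨ NonOm χ₀ σ) →
  ∀ (ε : M₂) (α : (M₂)ˣ), IsPrimitiveRoot ε p → (ε : AlgebraicClosure K) ∈ M₁ →
    OmType p K ε (α : M₂) → ¬ Pw p α →
    (∀ s : AlgebraicClosure K, s ^ p = ((α : M₂) : AlgebraicClosure K) →
      ∀ g : AlgebraicClosure K ≃ₐ[K] AlgebraicClosure K, (∀ x ∈ M₂, g x = x) → ψ₁ g = 1 →
        g s = s) →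
    (∀ x : (M)ˣ, SelW Lg (above (TSet ιinf ιp S)) P δ (α : M₂) x → Pw p x) →
  ∀ (E : IntermediateField K (AlgebraicClosure K)) [NumberField E] [IsGalois K E], CutsOut ψ E →
    (∃ l : ℕ, finrank K E = p ^ l) →
    (∃ g : AlgebraicClosure K ≃ₐ[K] AlgebraicClosure K, (∀ x ∈ J ⊔ E, g x = x) ∧ ψ₁ g ≠ 1) →
    (∀ v : HeightOneSpectrum (𝓞 K), (p : 𝓞 K) ∈ v.asIdeal →
      ∀ V : HeightOneSpectrum (𝓞 E), Above V v → FreeP K V) →
    (∀ v : HeightOneSpectrum (𝓞 K),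
      (∃ W : HeightOneSpectrum (𝓞 M₂), Above W v ∧ ¬ (p : ℤ) ∣ ordv W (α : M₂)) →
      ∀ V : HeightOneSpectrum (𝓞 E), Above V v → FreeP K V) →
    (∀ v : HeightOneSpectrum (𝓞 K),
      (∃ w : HeightOneSpectrum (𝓞 M), Above w v ∧ FreeP K w) →
      ∀ V : HeightOneSpectrum (𝓞 E), Above V v → ∀ x : K, ordv V (algebraMap K E x) = ordv v x) →
  LeopoldtFor ιinf ιp Lg S (χ₀ * ψ₁ * ψ)

/-- **W_GL0** (as `W_GL1`, for `χ₀ = 1`; compare `PPB.B_GL0`, proved in `Pool/Agent/Helper8/PPB/BGL0.lean`).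

PROOF (from `W_TRV`, `W_PRM`, `W_CO0`). As `B_GL0`, with the changes of `W_GL1`. `SelW` for `M = K`, `P = X - 1`, `δ = 1` is the
conjunction of the local conditions and of `LocSig` (`pol (X - 1) 1 x = x^p`). -/
def W_GL0 : Prop :=
  ∀ (p : ℕ) [Fact p.Prime] (K : Type) [Field K] [NumberField K]
    (ιinf : AlgebraicClosure K →+* ℂ) (ιp : AlgebraicClosure K →+* ℂ_[p]) (Lg : IwasawaLog p ℂ_[p])
    (S : Set (K →+* ℂ)), PlaceClosed (TSet ιinf ιp S) → (¬ ∃ ξ : K, IsPrimitiveRoot ξ p) →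
  ∀ (M₁ J M₂ : IntermediateField K (AlgebraicClosure K)) [NumberField M₁]
    [NumberField J] [NumberField M₂] [IsGalois K M₁] [IsGalois K J],
    M₂ = M₁ ⊔ J → (finrank K M₁).Coprime p → (∃ l : ℕ, finrank K J = p ^ l) →
    (∀ v : HeightOneSpectrum (𝓞 K), (p : 𝓞 K) ∈ v.asIdeal →
      ∀ V : HeightOneSpectrum (𝓞 J), Above V v → FreeP K V) →
  ∀ (ψ₁ ψ : Chr K (AlgebraicClosure K) ℂ_[p]) (F₁ : IntermediateField K (AlgebraicClosure K))
    [NumberField F₁] [IsGalois K F₁], CutsOut ψ₁ F₁ →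
    (∃ l : ℕ, ψ₁ ^ p ^ l = 1) → (∀ g, (∀ x ∈ J, g x = x) → ψ₁ g ^ p = 1) →
    (∀ σ ∈ TSet ιinf ιp S, SplF σ F₁ ∨ NonOm (1 : Chr K (AlgebraicClosure K) ℂ_[p]) σ) →
  ∀ (ε : M₂) (α : (M₂)ˣ), IsPrimitiveRoot ε p → (ε : AlgebraicClosure K) ∈ M₁ →
    (∀ g : M₁ ≃ₐ[K] M₁, (∀ x : M₁, (x : AlgebraicClosure K) = ε → g x = x) → g = 1) →
    OmType p K ε (α : M₂) → ¬ Pw p α →
    (∀ s : AlgebraicClosure K, s ^ p = ((α : M₂) : AlgebraicClosure K) →
      ∀ g : AlgebraicClosure K ≃ₐ[K] AlgebraicClosure K, (∀ x ∈ M₂, g x = x) → ψ₁ g = 1 →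
        g s = s) →
    (∀ x : Kˣ, SelW Lg (above (TSet ιinf ιp S)) (X - 1 : (ZMod p)[X]) (1 : K ≃ₐ[K] K) (α : M₂) x →
      Pw p x) →
  ∀ (E : IntermediateField K (AlgebraicClosure K)) [NumberField E] [IsGalois K E], CutsOut ψ E →
    (∃ l : ℕ, finrank K E = p ^ l) →
    (∃ g : AlgebraicClosure K ≃ₐ[K] AlgebraicClosure K, (∀ x ∈ J ⊔ E, g x = x) ∧ ψ₁ g ≠ 1) →
    (∀ v : HeightOneSpectrum (𝓞 K), (p : 𝓞 K) ∈ v.asIdeal →
      ∀ V : HeightOneSpectrum (𝓞 E), Above V v → FreeP K V) →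
    (∀ v : HeightOneSpectrum (𝓞 K),
      (∃ W : HeightOneSpectrum (𝓞 M₂), Above W v ∧ ¬ (p : ℤ) ∣ ordv W (α : M₂)) →
      ∀ V : HeightOneSpectrum (𝓞 E), Above V v → FreeP K V) →
    (∀ v : HeightOneSpectrum (𝓞 K),
      ∀ V : HeightOneSpectrum (𝓞 E), Above V v → ∀ x : K, ordv V (algebraMap K E x) = ordv v x) →
  LeopoldtFor ιinf ιp Lg S (ψ₁ * ψ)

end Pool.Agent.Helper42.PW
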