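import Pool.Agent.Helper42.PW.MBV
import Pool.Agent.Helper42.PW.TRN
import Pool.Agent.Helper42.PW.Goals5
import Pool.Agent.Helper38.ND.Asm
import Pool.Agent.Helper94.PW.NEVL
import Pool.Agent.Helper16.PW.NALG
import Pool.Agent.Helper5.PW.NCNT
import Pool.Agent.Helper60.PW.NHEN
import Pool.Agent.Helper12.PW.NCHG
import Pool.Agent.Helper85.PW.NGRP
import Pool.Agent.Helper29.PW.NCMP
import Pool.Agent.Helper91.PW.NDNS
import Pool.Agent.Helper70.PW.LPRM
import Pool.Agent.Helper15.PW.LISO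
import Pool.Agent.Helper14.PW.LRT
import Pool.Agent.Helper6.PW.LLAT
import Pool.Agent.Helper6.PW.LIDX
import Pool.Agent.Helper53.PW.LCLO
import Pool.Agent.Helper27.PW.LDEN
import Pool.Agent.Helper12.PW.LKEX
import Pool.Agent.Helper32.PW.LLOC
import Pool.Agent.Helper6.PW.LLC0
import Pool.Agent.Helper46.PW.LGVL
import Pool.Agent.Helper32.PW.WTHT
import Pool.Agent.Helper87.PW.VEXTW
import Pool.Agent.Helper91.PW.WNOT
import Pool.Agent.Helper58.PW.WRM1
import Pool.Agent.Helper12.PW.WHIL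
import Pool.Agent.Helper86.PW.WP1
import Pool.Agent.Helper13.PW.WP10
import Pool.Agent.Helper4.PW.WSPF
import Pool.Agent.Helper48.PW.WPRM
import Pool.Agent.Helper82.PW.WTRV
import Pool.Agent.Helper32.PW.WCO1
import Pool.Agent.Helper56.PW.WCO0
import Pool.Agent.Helper74.PW.WGL1
import Pool.Agent.Helper24.PW.WGL0
import Pool.Agent.Helper91.PW.WCND
import Pool.Agent.Helper87.PW.WMOMV
import Pool.Agent.Helper53.PW.WEXB
import Pool.Agent.Helper49.PW.WEX1

/-!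
# Project W: the proved statements, without hypotheses
-/

set_option autoImplicit false

namespace Pool.Agent.Helper42.PW

theorem a_alg : N_ALG := Pool.Agent.Helper16.PW.n_alg Pool.Agent.Helper94.PW.n_evl

theorem a_chg : N_CHG := Pool.Agent.Helper12.PW.n_chg a_alg Pool.Agent.Helper5.PW.n_cnt
  Pool.Agent.Helper60.PW.n_hen

theorem a_grp : N_GRP := Pool.Agent.Helper85.PW.n_grp a_alg

theorem a_cmp : N_CMP := Pool.Agent.Helper29.PW.n_cmp a_alg Pool.Agent.Helper5.PW.n_cnt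

theorem a_idx : L_IDX := Pool.Agent.Helper6.PW.l_idx Pool.Agent.Helper15.PW.l_iso
  Pool.Agent.Helper6.PW.l_lat

theorem a_loc : L_LOC := Pool.Agent.Helper32.PW.l_loc Pool.Agent.Helper12.PW.l_kex a_idx
  Pool.Agent.Helper94.PW.n_evl a_alg

theorem a_lc0 : L_LC0 := Pool.Agent.Helper6.PW.LC.l_lc0 Pool.Agent.Helper70.PW.l_prm
  Pool.Agent.Helper53.PW.l_clo Pool.Agent.Helper27.PW.l_den Pool.Agent.Helper14.PW.l_rt
  Pool.Agent.Helper15.PW.l_iso a_loc a_alg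

theorem a_extw : V_EXTW := Pool.Agent.Helper87.PW.v_extw Pool.Agent.Helper46.PW.l_gvl
  (Pool.Agent.Helper32.PW.w_tht a_grp) a_lc0 a_grp n_trn

theorem a_ex1 : W_EX1 := Pool.Agent.Helper49.PW.w_ex1 a_extw Pool.Agent.Helper76.PB.a_line'

theorem a_selw : V_SELW := v_selw a_grp a_chg

theorem a_hil : W_HIL := Pool.Agent.Helper12.PW.w_hil
  (Pool.Agent.Helper58.PW.w_rm1 Pool.Agent.Helper60.PW.n_hen) Pool.Agent.Helper94.PW.n_evl a_alg

theorem a_trv : W_TRV := Pool.Agent.Helper82.PW.w_trv a_grp n_trn a_cmp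

theorem a_prm : W_PRM := Pool.Agent.Helper48.PW.w_prm Pool.Agent.Helper91.PW.n_dns

theorem a_gl1 : W_GL1 := Pool.Agent.Helper74.PW.w_gl1 a_trv a_prm
  (Pool.Agent.Helper32.PW.w_co1 (Pool.Agent.Helper86.PW.w_p1 a_hil) Pool.Agent.Helper4.PW.w_spf
    Pool.Agent.Helper91.PW.w_not)

theorem a_gl0 : W_GL0 := Pool.Agent.Helper24.PW.w_gl0 a_trv a_prm
  (Pool.Agent.Helper56.PW.w_co0 (Pool.Agent.Helper13.PW.w_p10 a_hil) Pool.Agent.Helper4.PW.w_spf
    Pool.Agent.Helper91.PW.w_not)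

theorem a_mombv (hAPX : W_APX) (hSHF : W_SHF) : MOMBV :=
  mombv Pool.Agent.Helper50.ND.n_abs Pool.Agent.Helper91.PW.w_cnd Pool.Agent.Helper87.PW.w_momv
    a_selw Pool.Agent.Helper26.ND.n_anh Pool.Agent.Helper38.ND.n_ana
    Pool.Agent.Helper93.ND.n_bru Pool.Agent.Helper79.ND.n_brk Pool.Agent.Helper38.ND.mtw
    (Pool.Agent.Helper17.PB.v_hyp Pool.Agent.Helper76.PB.a_smn Pool.Agent.Helper76.PB.a_kum)
    Pool.Agent.Helper53.PW.w_exb a_extw Pool.Agent.Helper76.PB.a_aln' hAPX hSHF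

theorem a_momb1v (hAPX : W_APX) (hSHF : W_SHF) : MOMB1V :=
  momb1v Pool.Agent.Helper50.ND.n_abs Pool.Agent.Helper91.PW.w_cnd Pool.Agent.Helper87.PW.w_momv
    a_selw Pool.Agent.Helper26.ND.n_anh Pool.Agent.Helper38.ND.n_ana
    Pool.Agent.Helper93.ND.n_bru Pool.Agent.Helper79.ND.n_brk Pool.Agent.Helper38.ND.mtw
    Pool.Agent.Helper38.ND.mt0w
    (Pool.Agent.Helper17.PB.v_hyp Pool.Agent.Helper76.PB.a_smn Pool.Agent.Helper76.PB.a_kum)
    (Pool.Agent.Helper17.PB.v_hyp0 Pool.Agent.Helper76.PB.a_smn Pool.Agent.Helper76.PB.a_kum)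
    Pool.Agent.Helper53.PW.w_exb a_ex1 hAPX hSHF

end Pool.Agent.Helper42.PW
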