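import Pool.Agent.Helper42.PW.MOMA

/-!
# Project W: the moment theorems for the families given by local conditions above `p`
-/

set_option autoImplicit false

namespace Pool.Agent.Helper42.PW

open NumberField Polynomial Module IsDedekindDomain
open Pool.Agent.Helper51.RP Pool.Agent.Helper42.RD Pool.Agent.Helper42.PP Pool.Agent.Helper42.PP1
open Pool.Agent.Helper51.SigLeo Pool.Agent.Helper11.LE Pool.Agent.Helper11.PP
open Pool.Agent.Helper17.PP (Sys)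
open Pool.Agent.Helper17.PP0 (Hyp₀)
open Pool.Agent.Helper42.PB Pool.Agent.Helper76.PB
open Pool.Agent.Helper64.PP (rank_le)
open Pool.Agent.Helper94.PP1 (rank1')
open Pool.Agent.Helper11.PB (V_HYP V_HYP0 tc_up)
open Pool.Agent.Helper38.ND
open Pool.Agent.Helper98.ND (hyp0_of_hyp mtw_le mt0w_le)

/-- `MOMBV` for `SitBs`. -/
theorem mombvB (hABS : N_ABS) (hCND : W_CND) (hMOM : W_MOMV) (hSEL : V_SELW) (hANH : N_ANH)
    (hANA : N_ANA) (hBRU : N_BRU) (hBRK : N_BRK) (hMT : MTW) (hHYP : V_HYP) (hEXB : W_EXB)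
    (hEXT : V_EXTW) (hALN : V_ALN')
    (p : ℕ) [hpF : Fact p.Prime] (L : IwasawaLog p ℂ_[p]) (K M K₁ M₁ J M₂ : Type) [Field K]
    [NumberField K] [IsTotallyComplex K] [Field M] [NumberField M] [Field K₁] [NumberField K₁]
    [Field M₁] [NumberField M₁] [Field J] [NumberField J] [Field M₂] [NumberField M₂] [Algebra K M]
    [Algebra K K₁] [Algebra K M₁] [Algebra M M₁] [Algebra K₁ M₁] [Algebra K J] [Algebra K M₂]
    [Algebra M M₂] [Algebra K₁ M₂] [Algebra M₁ M₂] [Algebra J M₂] (ε : K₁) (δ : M ≃ₐ[K] M)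
    (P : (ZMod p)[X]) (a₀ : M₂ˣ) (hs : SitBs p K M K₁ M₁ J M₂ ε δ P a₀) (hnt : NTV p M₁ ε δ P)
    (h1 : 1 < finrank K₁ M₂) (m : ℕ) (ζ : ℂ_[p]) (Φ : ℤ_[p][X]) (hPhi : PhiData p m ζ Φ P)
    (hfr : finrank K M = m) (htor : TorOK P δ) (T : Set (K →+* ℂ_[p])) (hTc : PlaceClosed T)
    (hd : finrank ℚ K = 2 * T.ncard) :
    MomA p K ε (BdW L T P δ a₀) ((p : ℝ) ^ P.natDegree / (p * ((p : ℝ) ^ P.natDegree - 1))) := by
  classical
  have hp : p.Prime := hpF.out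
  have hirr : Fact (Irreducible P) := ⟨hs.sit.irr⟩
  have hP0 : P ≠ 0 := hs.sit.irr.ne_zero
  have hfinA : Module.Finite (ZMod p) (AdjoinRoot P) := (AdjoinRoot.powerBasis hP0).finite
  have hfA : Finite (AdjoinRoot P) := Module.finite_of_finite (ZMod p)
  let instA : Fintype (AdjoinRoot P) := Fintype.ofFinite _
  have hcard : Fintype.card (AdjoinRoot P) = p ^ P.natDegree := by
    rw [Module.card_eq_pow_finrank (K := ZMod p) (V := AdjoinRoot P), ZMod.card,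
      (AdjoinRoot.powerBasis hP0).finrank, AdjoinRoot.powerBasis_dim]
  have hne : Nonempty (AlgebraicClosure ℚ →+* ℂ_[p]) :=
    Pool.Agent.Helper35.RD.nonempty_hom ℚ ℂ_[p]
  have hcK : IsTotallyComplex K₁ := tc_up K K₁
  have hcM : IsTotallyComplex M₁ := tc_up K M₁
  have := hs.sit.gM
  have := hs.sit.st1
  have := hs.sit.st2
  have hord : orderOf δ = m := hs.sit.ord.trans hfr
  have hPX : AdjoinRoot.root P ≠ 1 := by
    intro h
    have h2 := hPhi.cop 1 one_pos hPhi.one_lt (one_dvd _)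
    have h3 : P ∣ X ^ 1 - 1 := by
      rw [← AdjoinRoot.mk_eq_zero, pow_one, map_sub, AdjoinRoot.mk_X, map_one, h, sub_self]
    exact hs.sit.irr.not_isUnit (h2.isUnit_of_dvd' dvd_rfl h3)
  have lob : S_LOB := Pool.Agent.Helper32.RP.s_lob Pool.Agent.Helper90.RP.s_sub
    Pool.Agent.Helper59.RP.s_bin (Pool.Agent.Helper39.RP.s_sig Pool.Agent.Helper95.RP.s_lat)
    Pool.Agent.Helper99.RP.s_prm
  have hp1 : (1 : ℝ) < p := by exact_mod_cast hp.one_lt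
  have hQ1 : (1 : ℝ) < (p : ℝ) ^ P.natDegree := by
    have h := one_lt_pow₀ hp1 hs.sit.irr.natDegree_pos.ne'
    exact h
  have hθ : (0 : ℝ) ≤ (p : ℝ) ^ P.natDegree / (p * ((p : ℝ) ^ P.natDegree - 1)) := by
    have h2 : (0 : ℝ) ≤ (p : ℝ) ^ P.natDegree - 1 := by linarith
    positivity
  refine momA hABS hCND hMOM hSEL L hs.toSitB T _ hθ ?_
  intro S₀
  obtain ⟨B, hSB, ⟨D⟩⟩ := hEXB p K M K₁ M₁ J M₂ ε δ P a₀ hs S₀
  obtain ⟨g, K₀, hslow, hH⟩ := hHYP p K M K₁ M₁ J M₂ ε δ P a₀ hs hnt h1 B D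
  refine ⟨B, D, g, K₀, hSB, hslow, ?_⟩
  obtain ⟨hSf, hst, hSp, -, -, -, -⟩ := Pool.Agent.Helper16.PP.p_upr p K M B.S
  obtain ⟨s₀, hs₀⟩ := Pool.Agent.Helper90.RP.Dual.dvd_ncard (K := K) m hfr
    {w ∈ up M B.S | FreeP K w} (hSf.subset fun w hw => hw.1)
    (fun w hw v hv => ⟨hst w hw.1 v hv, free_of_conj hv hw.2⟩)
    (fun w hw => hw.2)
  have hr : B.r ≤ T.ncard + s₀ :=
    rank_le Pool.Agent.Helper30.PP.p_fun hPhi hord hfr hd htor B hSf hst hs₀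
  intro aτ haτ
  obtain ⟨E⟩ := hEXT p ℂ_[p] hne K M K₁ M₁ J M₂ ε δ P a₀ hs L T B aτ haτ
    (T.ncard + s₀) (fun 𝔪₀ v hv =>
      lob p ℂ_[p] hne L K M m s₀ δ ζ Φ P hPhi hord hfr T hTc (up M B.S) 𝔪₀ v hv hs₀)
  obtain ⟨ψ, ψ₁, K', hHyp, c, X₁, hc, hlow⟩ := hH (T.ncard + s₀) E.toTauF aτ haτ
    (hALN p K M K₁ M₁ J M₂ ε δ P a₀ hs hPX B D _ E.toTauF)
  refine (fun h => ⟨_, E, hANH hANA hBRU hBRK p K M K₁ M₁ ε δ P B _ E.toTauF
    (Spl M₂ B.S) D.s0 aτ ψ g K' (hyp0_of_hyp hHyp) K₀ hslow c X₁ hc hlow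
    ((p : ℝ) ^ P.natDegree / (p * ((p : ℝ) ^ P.natDegree - 1))) hθ (mtw_le hMT hHyp h)⟩) ?_
  have h3 : (Fintype.card (Fin B.r → AdjoinRoot P) : ℝ) = ((p : ℝ) ^ P.natDegree) ^ B.r := by
    rw [Fintype.card_fun, hcard, Fintype.card_fin]
    push_cast
    ring
  have h4 : (Fintype.card (Fin (T.ncard + s₀) → AdjoinRoot P) : ℝ) =
      ((p : ℝ) ^ P.natDegree) ^ (T.ncard + s₀) := by
    rw [Fintype.card_fun, hcard, Fintype.card_fin]
    push_cast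
    ring
  rw [h3, h4, hcard, Nat.cast_pow]
  have h5 : ((p : ℝ) ^ P.natDegree) ^ B.r / ((p : ℝ) ^ P.natDegree) ^ (T.ncard + s₀) ≤ 1 := by
    rw [div_le_one (by positivity)]
    exact pow_le_pow_right₀ hQ1.le hr
  calc _ ≤ 1 * ((p : ℝ) ^ P.natDegree / (p * ((p : ℝ) ^ P.natDegree - 1))) :=
        mul_le_mul_of_nonneg_right h5 hθ
    _ = _ := one_mul _

/-- **MOMBV**. -/
theorem mombv (hABS : N_ABS) (hCND : W_CND) (hMOM : W_MOMV) (hSEL : V_SELW) (hANH : N_ANH)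
    (hANA : N_ANA) (hBRU : N_BRU) (hBRK : N_BRK) (hMT : MTW) (hHYP : V_HYP) (hEXB : W_EXB)
    (hEXT : V_EXTW) (hALN : V_ALN') (hAPX : W_APX) (hSHF : W_SHF) : MOMBV := by
  intro p hpF L K M K₁ M₁ J M₂ _ _ _ _ _ _ _ _ _ _ _ _ _ _ _ _ _ _ _ _ _ _ _ _ ε δ P a₀ hs hnt
    h1 m ζ Φ hPhi hfr htor T hTc hd
  have hp : p.Prime := hpF.out
  have hp1 : (1 : ℝ) < p := by exact_mod_cast hp.one_lt
  have hQ1 : (1 : ℝ) < (p : ℝ) ^ P.natDegree :=
    one_lt_pow₀ hp1 hs.sit.irr.natDegree_pos.ne'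
  refine shiftX hAPX hSHF L T _ ?_ ?_ hs
  · have h2 : (0 : ℝ) ≤ (p : ℝ) ^ P.natDegree - 1 := by linarith
    positivity
  · intro a₁ ha₁
    exact mombvB hABS hCND hMOM hSEL hANH hANA hBRU hBRK hMT hHYP hEXB hEXT hALN p L K M K₁ M₁ J
      M₂ ε δ P a₁ ha₁ hnt h1 m ζ Φ hPhi hfr htor T hTc hd

/-- `MOMB1V` for `SitBs`. -/
theorem momb1vB (hABS : N_ABS) (hCND : W_CND) (hMOM : W_MOMV) (hSEL : V_SELW) (hANH : N_ANH)
    (hANA : N_ANA) (hBRU : N_BRU) (hBRK : N_BRK) (hMT : MTW) (hMT0 : MT₀W) (hHYP : V_HYP)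
    (hHYP0 : V_HYP0) (hEXB : W_EXB) (hEXT : W_EX1)
    (p : ℕ) [hpF : Fact p.Prime] (L : IwasawaLog p ℂ_[p]) (K K₁ J M₂ : Type) [Field K]
    [NumberField K] [Field K₁] [NumberField K₁] [Field J] [NumberField J] [Field M₂]
    [NumberField M₂] [Algebra K K₁] [Algebra K J] [Algebra K M₂] [Algebra K₁ M₂] [Algebra J M₂]
    (ε : K₁) (a₀ : M₂ˣ) (hs : SitBs p K K K₁ K₁ J M₂ ε (1 : K ≃ₐ[K] K) (X - 1) a₀)
    (hμ : ¬ ∃ ξ : K, IsPrimitiveRoot ξ p) (T : Set (K →+* ℂ_[p])) (hTc : PlaceClosed T)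
    (hTn : Units.rank K + 1 ≤ T.ncard) :
    MomA p K ε (BdW L T (X - 1 : (ZMod p)[X]) (1 : K ≃ₐ[K] K) a₀)
      ((p : ℝ) ^ (Units.rank K + 1) / (p ^ T.ncard * (p - 1))) := by
  classical
  have hp : p.Prime := hpF.out
  have hirr : Fact (Irreducible (X - 1 : (ZMod p)[X])) := ⟨hs.sit.irr⟩
  have hP0 : (X - 1 : (ZMod p)[X]) ≠ 0 := hs.sit.irr.ne_zero
  have hfinA : Module.Finite (ZMod p) (AdjoinRoot (X - 1 : (ZMod p)[X])) :=
    (AdjoinRoot.powerBasis hP0).finite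
  have hfA : Finite (AdjoinRoot (X - 1 : (ZMod p)[X])) := Module.finite_of_finite (ZMod p)
  let instA : Fintype (AdjoinRoot (X - 1 : (ZMod p)[X])) := Fintype.ofFinite _
  have hdeg : (X - 1 : (ZMod p)[X]).natDegree = 1 := by
    have h := natDegree_X_sub_C (1 : ZMod p)
    rwa [map_one] at h
  have hcard : Fintype.card (AdjoinRoot (X - 1 : (ZMod p)[X])) = p := by
    rw [Module.card_eq_pow_finrank (K := ZMod p) (V := AdjoinRoot (X - 1 : (ZMod p)[X])),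
      ZMod.card, (AdjoinRoot.powerBasis hP0).finrank, AdjoinRoot.powerBasis_dim, hdeg, pow_one]
  have := hs.sit.gK
  have hC : Cyc p K K₁ ε := ⟨hs.sit.prim, hs.sit.gK, hs.sit.gen⟩
  have h2K := Pool.Agent.Helper90.LE.l_cyc p K K₁ ε hC
  have hcK : IsTotallyComplex K₁ := h2K.2.2.2 (Pool.Agent.Helper77.PPO.p_ne_two p K hμ)
  have hnt : NTV p K₁ ε (1 : K ≃ₐ[K] K) (X - 1 : (ZMod p)[X]) := by
    refine Pool.Agent.Helper76.PP.ntv_one p K K₁ ε hC.prim hC.gen ?_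
    have h2 : 0 < Module.finrank K K₁ := Module.finrank_pos
    rcases Nat.lt_or_ge 1 (Module.finrank K K₁) with h | h
    · exact h
    · exact absurd (h2K.2.2.1.1 (by omega)) hμ
  have hp1 : (1 : ℝ) < p := by exact_mod_cast hp.one_lt
  have hp0 : (0 : ℝ) < p := by linarith
  have hpp : (0 : ℝ) < (p : ℝ) - 1 := by linarith
  have hθ : (0 : ℝ) ≤ (p : ℝ) ^ (Units.rank K + 1) / (p ^ T.ncard * (p - 1)) := by
    positivity
  have hcd : ∀ n : ℕ, (Fintype.card (Fin n → AdjoinRoot (X - 1 : (ZMod p)[X])) : ℝ) =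
      (p : ℝ) ^ n := by
    intro n
    rw [Fintype.card_fun, hcard, Fintype.card_fin, Nat.cast_pow]
  obtain ⟨l, hl⟩ := hs.degJ
  refine momA hABS hCND hMOM hSEL L hs.toSitB T _ hθ ?_
  intro S₀
  obtain ⟨B, hSB, ⟨D⟩⟩ := hEXB p K K K₁ K₁ J M₂ ε 1 (X - 1) a₀ hs S₀
  have hr : B.r ≤ B.S.card + Units.rank K :=
    rank1' Pool.Agent.Helper88.LE.l_sun hC.prim hC.gen hμ B
  by_cases hJ : finrank K J = 1
  · obtain ⟨g, K₀, hslow, hH⟩ := hHYP0 p K K K₁ K₁ J M₂ ε 1 (X - 1) a₀ hs hnt B D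
    refine ⟨B, D, g, K₀, hSB, hslow, ?_⟩
    intro aτ haτ
    obtain ⟨E, hE⟩ := (hEXT p L K K₁ J M₂ ε a₀ hs hμ T B D aτ haτ).1 hJ
    obtain ⟨ψ, K', hHyp, c, X₁, hc, hlow⟩ := hH _ E.toTauF aτ haτ hE
    refine (fun h => ⟨_, E, hANH hANA hBRU hBRK p K K K₁ K₁ ε 1 (X - 1) B _ E.toTauF
      (Spl M₂ B.S) D.s0 aτ ψ g K' hHyp K₀ hslow c X₁ hc hlow
      ((p : ℝ) ^ (Units.rank K + 1) / (p ^ T.ncard * (p - 1))) hθ (mt0w_le hMT0 hHyp h)⟩) ?_
    rw [hcd, hcd, hcard, div_mul_div_comm, div_le_div_iff₀ (by positivity) (by positivity)]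
    have h3 : (p : ℝ) ^ B.r ≤ p ^ (B.S.card + Units.rank K) := pow_le_pow_right₀ hp1.le hr
    calc (p : ℝ) ^ B.r * p * (p ^ T.ncard * (p - 1))
        ≤ p ^ (B.S.card + Units.rank K) * p * (p ^ T.ncard * (p - 1)) := by gcongr
      _ = p ^ (Units.rank K + 1) * (p ^ (B.S.card + T.ncard) * (p - 1)) := by ring
  · have hl0 : l ≠ 0 := by
      rintro rfl
      exact hJ (by rw [hl, pow_zero])
    have hJ' : 1 < finrank K J := by
      have h0 : 0 < finrank K J := finrank_pos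
      omega
    have hM₂ : 1 < finrank K₁ M₂ := by
      -- `[M₂ : K]` is divisible by `p`
      by_contra hcon
      have h0 : 0 < finrank K₁ M₂ := finrank_pos
      have h1 : finrank K₁ M₂ = 1 := by omega
      have := tow_K hs.toSitB
      have := hs.t4
      have h2 : finrank K K₁ * finrank K₁ M₂ = finrank K M₂ := finrank_mul_finrank K K₁ M₂
      have h3 : finrank K J * finrank J M₂ = finrank K M₂ := finrank_mul_finrank K J M₂
      have h4 : p ∣ finrank K K₁ := by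
        rw [h1, mul_one] at h2
        rw [h2, ← h3, hl]
        exact (dvd_pow_self p hl0).mul_right _
      have h5 : finrank K K₁ ∣ p - 1 :=
        Pool.Agent.Helper14.RD.finrank_dvd_pred p K K₁ ε hC.prim hC.gen
      have h6 := Nat.le_of_dvd (by have := hp.one_lt; omega) (h4.trans h5)
      have := hp.one_lt
      omega
    obtain ⟨g, K₀, hslow, hH⟩ := hHYP p K K K₁ K₁ J M₂ ε 1 (X - 1) a₀ hs hnt hM₂ B D
    refine ⟨B, D, g, K₀, hSB, hslow, ?_⟩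
    intro aτ haτ
    obtain ⟨E, hE⟩ := (hEXT p L K K₁ J M₂ ε a₀ hs hμ T B D aτ haτ).2 hJ'
    obtain ⟨ψ, ψ₁, K', hHyp, c, X₁, hc, hlow⟩ := hH _ E.toTauF aτ haτ hE
    refine (fun h => ⟨_, E, hANH hANA hBRU hBRK p K K K₁ K₁ ε 1 (X - 1) B _ E.toTauF
      (Spl M₂ B.S) D.s0 aτ ψ g K' (hyp0_of_hyp hHyp) K₀ hslow c X₁ hc hlow
      ((p : ℝ) ^ (Units.rank K + 1) / (p ^ T.ncard * (p - 1))) hθ (mtw_le hMT hHyp h)⟩) ?_
    rw [hcd, hcd, hcard, div_mul_div_comm, div_le_div_iff₀ (by positivity) (by positivity)]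
    have h3 : (p : ℝ) ^ B.r ≤ p ^ (B.S.card + Units.rank K) := pow_le_pow_right₀ hp1.le hr
    have h4 : B.S.card + T.ncard = (B.S.card + T.ncard - 1) + 1 := by omega
    calc (p : ℝ) ^ B.r * p * (p ^ T.ncard * (p - 1))
        ≤ p ^ (B.S.card + Units.rank K) * p * (p ^ T.ncard * (p - 1)) := by gcongr
      _ = p ^ (Units.rank K + 1) * (p ^ (B.S.card + T.ncard) * (p - 1)) := by ring
      _ = p ^ (Units.rank K + 1) * (p ^ (B.S.card + T.ncard - 1) * (p * (p - 1))) := by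
        rw [h4, pow_succ, Nat.add_sub_cancel]
        ring

/-- **MOMB1V**. -/
theorem momb1v (hABS : N_ABS) (hCND : W_CND) (hMOM : W_MOMV) (hSEL : V_SELW) (hANH : N_ANH)
    (hANA : N_ANA) (hBRU : N_BRU) (hBRK : N_BRK) (hMT : MTW) (hMT0 : MT₀W) (hHYP : V_HYP)
    (hHYP0 : V_HYP0) (hEXB : W_EXB) (hEXT : W_EX1) (hAPX : W_APX) (hSHF : W_SHF) : MOMB1V := by
  intro p hpF L K K₁ J M₂ _ _ _ _ _ _ _ _ _ _ _ _ _ ε a₀ hs hμ T hTc hTn
  have hp : p.Prime := hpF.out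
  have hp1 : (1 : ℝ) < p := by exact_mod_cast hp.one_lt
  refine shiftX hAPX hSHF L T _ ?_ ?_ hs
  · have h2 : (0 : ℝ) ≤ (p : ℝ) - 1 := by linarith
    positivity
  · intro a₁ ha₁
    exact momb1vB hABS hCND hMOM hSEL hANH hANA hBRU hBRK hMT hMT0 hHYP hHYP0 hEXB hEXT p L K K₁
      J M₂ ε a₁ ha₁ hμ T hTc hTn

end Pool.Agent.Helper42.PW
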