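import Pool.Agent.Helper77.PPB.Cls1
import Pool.Agent.Helper42.PW.KUM
import Pool.Agent.Helper42.PW.Goals3
import Pool.Agent.Helper38.FW.GoalsD
import Pool.Agent.Helper38.FD.Nat

/-!
# Project W (MP_fc6b1e_nt): one class, `χ₀ ≠ 1`, no condition above `p` on `φ` outside the places of `T`
-/

set_option autoImplicit false

namespace Pool.Agent.Helper42.PW

open NumberField Polynomial Module IsDedekindDomain TensorProduct Pool.Agent.Helper51.SigLeo
open Pool.Agent.Helper51.RP Pool.Agent.Helper42.RD Pool.Agent.Helper11.LE Pool.Agent.Helper11.PP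
open Pool.Agent.Helper38.FD (Chr CutsOut LeopoldtFor IsOrdinary isGalois_of_cutsOut
  free_of_splits splits_of_free ordv_of_unram exists_cutsOut exists_faithful fix_sup pow_card_desc
  Restricts)
open Pool.Agent.Helper42.PP (LocS)
open Pool.Agent.Helper42.PP1 (SitW NTV)
open Pool.Agent.Helper77.PPB
open Pool.Agent.Helper22.PP (ram_sup le_of_fix)
open Pool.Agent.Helper38.FW (GoodV)

section omega

variable {p : ℕ} [hpF : Fact p.Prime]

theorem nonOm_pow {K : Type} [Field K] {χ₀ : Chr K (AlgebraicClosure K) ℂ_[p]} {σ : K →+* ℂ_[p]}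
    (h : NonOm χ₀ σ) (l : ℕ) : NonOm (χ₀ ^ p ^ l) σ := by
  intro τ hτ
  obtain ⟨g, r, h1, h2, h3⟩ := h τ hτ
  refine ⟨g, r, h1, h2, ?_⟩
  rw [MonoidHom.pow_apply, Units.val_pow_eq_pow_val]
  refine Pool.Agent.Helper38.FD.norm_frob_pow ?_ r l h3
  have h4 : ((χ₀ g : ℂ_[p]ˣ) : ℂ_[p]) = (((χ₀ g : ℂ_[p]ˣ) : ℂ_[p]) - r) + r := by ring
  rw [h4]
  refine (IsUltrametricDist.norm_add_le_max _ _).trans (max_le h3.le ?_)
  exact Pool.Agent.Helper38.FD.norm_nat_le r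

end omega

theorem eq_one_of_pow {p n : ℕ} (hp : p.Prime) (hpn : ¬ p ∣ n) {G : Type} [Group G] {x : G}
    (h1 : x ^ n = 1) (h2 : x ^ p = 1) : x = 1 := by
  have hnp : n.Coprime p := ((Nat.Prime.coprime_iff_not_dvd hp).2 hpn).symm
  have h3 := Nat.dvd_gcd (orderOf_dvd_of_pow_eq_one h1) (orderOf_dvd_of_pow_eq_one h2)
  rw [(hnp : n.gcd p = 1)] at h3
  exact orderOf_eq_one_iff.1 (Nat.dvd_one.1 h3)

theorem cutsOut_pow_n {p : ℕ} [hpF : Fact p.Prime] {K : Type} [Field K] [NumberField K]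
    {F₁ : IntermediateField K (AlgebraicClosure K)} [FiniteDimensional K F₁]
    {χ : Chr K (AlgebraicClosure K) ℂ_[p]} (h : CutsOut χ F₁) {l n : ℕ} (hl : χ ^ p ^ l = 1)
    (hpn : ¬ p ∣ n) : CutsOut (χ ^ n) F₁ := by
  have hp : p.Prime := hpF.out
  have hnp : n.Coprime p := ((Nat.Prime.coprime_iff_not_dvd hp).2 hpn).symm
  have hg : IsGalois K F₁ := isGalois_of_cutsOut h
  refine cutsOut_pow h ?_
  obtain ⟨χ', hinj₁, hχ'⟩ := exists_faithful h
  have h1 : ∀ x : F₁ ≃ₐ[K] F₁, x ^ p ^ l = 1 := by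
    intro x
    obtain ⟨x', hx'⟩ := Pool.Agent.Helper38.FD.exists_lift (H := F₁) x
    apply hinj₁
    rw [map_pow, map_one, ← hχ' x' x hx', ← MonoidHom.pow_apply, hl]
    rfl
  have h2 : IsPGroup p (F₁ ≃ₐ[K] F₁) := fun x => ⟨l, h1 x⟩
  obtain ⟨b, hb⟩ := IsPGroup.iff_card.1 h2
  rw [IsGalois.card_aut_eq_finrank] at hb
  rw [hb]
  exact Nat.Coprime.pow_left b hnp.symm

/-- The facts available for the application of a moment theorem. -/
structure BunX (p : ℕ) [Fact p.Prime] {K : Type} [Field K] [NumberField K]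
    (K₁ M F₀ M₁ J M₂ : IntermediateField K (AlgebraicClosure K)) [NumberField K₁] [NumberField M]
    [NumberField M₁] [NumberField J] [NumberField M₂] [Algebra M M₁] [Algebra K₁ M₁] [Algebra M M₂]
    [Algebra K₁ M₂] [Algebra M₁ M₂] [Algebra J M₂] (ε₁ : K₁)
    (χM : (M ≃ₐ[K] M) →* ℂ_[p]ˣ) (δ : M ≃ₐ[K] M) (Φ : ℤ_[p][X]) (P : (ZMod p)[X]) (a₀ : (M₂)ˣ) :
    Prop where
  v1 : ∀ x : M, ((algebraMap M M₁ x : M₁) : AlgebraicClosure K) = x
  v2 : ∀ x : K₁, ((algebraMap K₁ M₁ x : M₁) : AlgebraicClosure K) = x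
  w2 : ∀ x : K₁, ((algebraMap K₁ M₂ x : M₂) : AlgebraicClosure K) = x
  leM : M ≤ M₁
  leK : K₁ ≤ M₁
  eq2 : M₂ = M₁ ⊔ J
  copK : (finrank K K₁).Coprime p
  degJ : ∃ l : ℕ, finrank K J = p ^ l
  neJ : p ^ 2 ≤ finrank K F₀ → J ≠ ⊥
  sit : SitX p K M K₁ M₁ J M₂ ε₁ δ P a₀
  ord : orderOf δ = finrank K M
  phi : PhiData p (finrank K M) ((χM δ : ℂ_[p]ˣ) : ℂ_[p]) Φ P
  tor : TorOK P δ
  ntv : NTV p M₁ ε₁ δ P

/-- One class, `χ₀ ≠ 1`, from a moment theorem (`Q` is a property of the set of the bad classes). -/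
theorem w_cls1 (hKU : W_KUM) (hDEC : W_DEC) (hSW : B_SWT) (hNT : B_NTV) (h3 : B_KU3)
    (hGL : W_GL1) (hPH : S_PHI) (hNS : S_NSP) (hFR : Pool.Agent.Helper76.RD.E_FRB)
    (p : ℕ) [hpF : Fact p.Prime] (K : Type) [Field K] [NumberField K]
    (ιinf : AlgebraicClosure K →+* ℂ) (ιp : AlgebraicClosure K →+* ℂ_[p]) (Lg : IwasawaLog p ℂ_[p])
    (K₁ : IntermediateField K (AlgebraicClosure K)) [NumberField K₁] (ε : AlgebraicClosure K)
    (hε : IsPrimitiveRoot ε p) (hK₁ : K₁ = IntermediateField.adjoin K {ε}) (ε₁ : K₁)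
    (hε₁ : (ε₁ : AlgebraicClosure K) = ε) (εk : ℂ_[p]ˣ) (hεk : IsPrimitiveRoot εk p)
    (nf : ClP p K₁ → IntermediateField K (AlgebraicClosure K))
    (cf : ClP p K₁ → Chr K (AlgebraicClosure K) ℂ_[p])
    (n1 : ∀ c ∈ BSet p K ε₁, nf c ∈ CycN p K ∧
      ∀ a : (K₁)ˣ, clp p a = c → Gen p (K₁.val : K₁ →+* AlgebraicClosure K) a (nf c))
    (n5 : ∀ c ∈ BSet p K ε₁, CutsOut (cf c) (nf c) ∧ ∀ a : (K₁)ˣ, clp p a = c →
      ∀ s : AlgebraicClosure K, s ^ p = (K₁.val : K₁ →+* AlgebraicClosure K) (a : K₁) →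
      ∀ g : AlgebraicClosure K ≃ₐ[K] AlgebraicClosure K,
        (∀ x : K₁, g ((K₁.val : K₁ →+* AlgebraicClosure K) x) =
          (K₁.val : K₁ →+* AlgebraicClosure K) x) → ∀ i : ℕ,
        g s = (K₁.val : K₁ →+* AlgebraicClosure K) ε₁ ^ i * s → cf c g = εk ^ i)
    (S : Set (K →+* ℂ)) (hcl : PlaceClosed (TSet ιinf ιp S))
    (M F₀ : IntermediateField K (AlgebraicClosure K)) (χ₀ ψ₀ : Chr K (AlgebraicClosure K) ℂ_[p])
    [FiniteDimensional K M] (hχ : CutsOut χ₀ M) (hcop : (finrank K M).Coprime p)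
    (hω : ∃ (g : AlgebraicClosure K ≃ₐ[K] AlgebraicClosure K) (r : ℕ),
      (∀ ξ : AlgebraicClosure K, ξ ^ p = 1 → g ξ = ξ ^ r) ∧
      ‖((χ₀ g : ℂ_[p]ˣ) : ℂ_[p]) - r‖ = 1)
    (hne : M ≠ ⊥)
    (hψ : CutsOut ψ₀ F₀) (hF : ∃ l : ℕ, finrank K F₀ = p ^ l)
    (hdec : ∀ σ : K →+* ℂ_[p], DecT (ψ₀ ^ p) σ) (Q : Set (ClP p K₁) → Prop)
    (hMB : ∀ (M₁ J M₂ : IntermediateField K (AlgebraicClosure K)) [NumberField M]
      [NumberField M₁] [NumberField J] [NumberField M₂] [Algebra M M₁] [Algebra K₁ M₁]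
      [Algebra M M₂] [Algebra K₁ M₂] [Algebra M₁ M₂] [Algebra J M₂] [IsGalois K M]
      (χM : (M ≃ₐ[K] M) →* ℂ_[p]ˣ) (δ : M ≃ₐ[K] M) (Φ : ℤ_[p][X]) (P : (ZMod p)[X])
      (a₀ : (M₂)ˣ), (∀ g, χ₀ g = χM (AlgEquiv.restrictNormalHom M g)) →
      BunX p K₁ M F₀ M₁ J M₂ ε₁ χM δ Φ P a₀ →
      Q (BdW Lg (TSet ιinf ιp S) P δ a₀)) :
    ∃ Bd : Set (ClP p K₁), Q Bd ∧
      ∀ c ∈ BSet p K ε₁,
        (∃ v : HeightOneSpectrum (𝓞 K), RamIn (nf c) v ∧ ¬ RamIn F₀ v) → c ∉ Bd →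
        (∀ σ ∈ TSet ιinf ιp S, DecT (ψ₀ * cf c) σ ∨ NonOm χ₀ σ) → ∀ l : ℕ,
        GoodV ιinf ιp Lg S M F₀ (χ₀ ^ p ^ l) ψ₀ (nf c, cf c) := by
  classical
  have hp : p.Prime := hpF.out
  have hgM : IsGalois K M := isGalois_of_cutsOut hχ
  have hnM : NumberField M := NumberField.of_module_finite K M
  obtain ⟨χM, hinj, hχM'⟩ := exists_faithful hχ
  have hres : ∀ (X : IntermediateField K (AlgebraicClosure K)) [IsGalois K X]
      (g : AlgebraicClosure K ≃ₐ[K] AlgebraicClosure K),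
      Restricts (algebraMap X (AlgebraicClosure K)) g (AlgEquiv.restrictNormalHom X g) :=
    fun X _ g x ↦ (AlgEquiv.restrictNormal_commutes g X x).symm
  have hχM : ∀ g, χ₀ g = χM (AlgEquiv.restrictNormalHom M g) := fun g => hχM' g _ (hres M g)
  have hinj' : Function.Injective ((Units.coeHom ℂ_[p]).comp χM) := by
    intro x y hxy
    apply hinj
    exact Units.ext hxy
  have hcyc : IsCyclic (M ≃ₐ[K] M) := isCyclic_of_injective_ringHom _ hinj'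
  obtain ⟨δ, hδ⟩ := IsCyclic.exists_generator (α := (M ≃ₐ[K] M))
  have horder : orderOf δ = finrank K M := by
    rw [orderOf_eq_card_of_forall_mem_zpowers hδ, IsGalois.card_aut_eq_finrank]
  have hm0 : 0 < finrank K M := finrank_pos
  have hprim : IsPrimitiveRoot ((χM δ : ℂ_[p]ˣ) : ℂ_[p]) (finrank K M) := by
    have h4 : orderOf ((χM δ : ℂ_[p]ˣ) : ℂ_[p]) = finrank K M := by
      rw [← horder]
      exact orderOf_injective ((Units.coeHom ℂ_[p]).comp χM) hinj' δ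
    rw [← h4]
    exact IsPrimitiveRoot.orderOf _
  have hlt : 1 < finrank K M := by
    by_contra hle
    have h9 : finrank K M = 1 := by omega
    exact hne (IntermediateField.finrank_eq_one_iff.1 h9)
  obtain ⟨Φ, P, hPhi⟩ := hPH p ℂ_[p] (finrank K M) ((χM δ : ℂ_[p]ˣ) : ℂ_[p]) hcop hlt hprim
  have hnsp := hNS p ℂ_[p] K M (finrank K M) δ _ Φ P hPhi horder rfl
  -- the tower
  obtain ⟨K₁', M₁, _, hnM₁, _, _, ε₁', t1, t2, v1, v2, e1, e2, e3, hC, hSit⟩ :=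
    hSW p K M hcop ε hε δ P horder hPhi.irr hPhi.dvdP hnsp
  obtain rfl : K₁' = K₁ := by rw [e2, hK₁]
  obtain rfl : ε₁' = ε₁ := Subtype.ext (by rw [e1, hε₁])
  have hle1 : K₁' ≤ M₁ := by rw [e3]; exact le_sup_right
  have hleM : M ≤ M₁ := by rw [e3]; exact le_sup_left
  -- the field `J`
  obtain ⟨J, hfJ, hcJ, hJF, hdJ, -, hJne⟩ := exists_J p hψ hF
  have hnJ : NumberField J := NumberField.of_module_finite K J
  obtain ⟨l₀, hl₀⟩ := id hF
  have hfF : FiniteDimensional K F₀ := FiniteDimensional.of_finrank_pos (by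
    rw [hl₀]; exact pow_pos hp.pos l₀)
  have hnF : NumberField F₀ := NumberField.of_module_finite K F₀
  have hgF : IsGalois K F₀ := isGalois_of_cutsOut hψ
  have hgJ : IsGalois K J := isGalois_of_cutsOut hcJ
  have hgM₁ : IsGalois K M₁ := hSit.gMK
  have hfM₁ : FiniteDimensional K M₁ := Module.Finite.of_restrictScalars_finite ℚ K M₁
  obtain ⟨M₂, hM₂⟩ : ∃ M₂ : IntermediateField K (AlgebraicClosure K), M₂ = M₁ ⊔ J := ⟨_, rfl⟩
  have hfM₂ : FiniteDimensional K M₂ := by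
    rw [hM₂]; exact IntermediateField.finiteDimensional_sup M₁ J
  have hnM₂ : NumberField M₂ := NumberField.of_module_finite K M₂
  have hle2 : M₁ ≤ M₂ := by rw [hM₂]; exact le_sup_left
  have hleJ : J ≤ M₂ := by rw [hM₂]; exact le_sup_right
  let A1 : Algebra M M₂ := (IntermediateField.inclusion (hleM.trans hle2)).toRingHom.toAlgebra
  let A2 : Algebra K₁' M₂ := (IntermediateField.inclusion (hle1.trans hle2)).toRingHom.toAlgebra
  let A3 : Algebra M₁ M₂ := (IntermediateField.inclusion hle2).toRingHom.toAlgebra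
  let A4 : Algebra J M₂ := (IntermediateField.inclusion hleJ).toRingHom.toAlgebra
  have hsplJ0 : ∀ w : HeightOneSpectrum (𝓞 J), w.valuation J (p : J) < 1 → FreeP K w :=
    (hDEC p K (ψ₀ ^ p) J hcJ).2 hdec
  obtain ⟨a₀, s₀, hB, m0, p0, r0⟩ := hKU p K M K₁' M₁ ε₁' δ P hSit
    (M₁.val : M₁ →+* AlgebraicClosure K) M₁ (fun x => rfl)
    (fun y => ⟨fun hy => ⟨⟨y, hy⟩, rfl⟩, by rintro ⟨x, rfl⟩; exact x.2⟩) εk hεk ψ₀ F₀ hψ hF
    J M₂ (fun x => (v1 x).symm) (fun x => (v2 x).symm) (fun x => rfl) (fun x => rfl) hcJ hsplJ0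
    hM₂
  have hval₁ : (M₁.val : M₁ →+* AlgebraicClosure K) (algebraMap K₁' M₁ ε₁') = ε₁' := v2 ε₁'
  obtain ⟨hTor, hNTV⟩ := hNT p K M K₁' M₁ v1 v2 ε₁' δ P hSit χM Φ horder hPhi (by
    obtain ⟨g, r, h4, h5⟩ := hω
    exact ⟨g, r, h4, by rw [← hχM g]; exact h5⟩)
  have hgK : IsGalois K K₁' := hSit.gK
  have hcopK : (finrank K K₁').Coprime p := by
    have h1 := Pool.Agent.Helper14.RD.finrank_dvd_pred p K K₁' ε₁' hC.prim hC.gen
    exact Nat.Coprime.coprime_dvd_left h1 ((Nat.coprime_self_sub_left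
      (Fact.out : p.Prime).one_le).2 (Nat.coprime_one_left p))
  have hcopM₁ : (finrank K M₁).Coprime p := by
    have h1 := Module.finrank_mul_finrank K K₁' M₁
    rw [← h1]
    exact Nat.Coprime.mul_left hcopK hSit.c2
  have hbun : BunX p K₁' M F₀ M₁ J M₂ ε₁' χM δ Φ P a₀ :=
    { v1 := v1, v2 := v2, w2 := fun x => rfl, leM := hleM, leK := hle1, eq2 := hM₂
      copK := hcopK, degJ := hdJ, neJ := hJne, sit := hB, ord := horder, phi := hPhi
      tor := hTor, ntv := hNTV }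
  have hmom := hMB M₁ J M₂ χM δ Φ P a₀ hχM hbun
  refine ⟨_, hmom, ?_⟩
  intro c hc hv hcB hT l n E ψ hpn hComp hcutE
  obtain ⟨v₀, hv1, hv2⟩ := hv
  obtain ⟨hc1, a, hac, hom⟩ := hc
  have hcBS : c ∈ BSet p K ε₁' := ⟨hc1, a, hac, hom⟩
  obtain ⟨hNc, hgen⟩ := n1 c hcBS
  obtain ⟨hcut, hrel⟩ := n5 c hcBS
  have hgN : IsGalois K (nf c) := hNc.2
  have hfN : FiniteDimensional K (nf c) := FiniteDimensional.of_finrank_pos (by
    rw [hNc.1]; exact hp.pos)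
  have hnN : NumberField (nf c) := NumberField.of_module_finite K (nf c)
  have hgE : IsGalois K E := isGalois_of_cutsOut hcutE
  obtain ⟨lE, hlE⟩ := hComp.deg
  have hfE : FiniteDimensional K E := FiniteDimensional.of_finrank_pos (by
    rw [hlE]; exact pow_pos hp.pos lE)
  have hnE : NumberField E := NumberField.of_module_finite K E
  have D : Dat p K₁' M₁ J M₂ F₀ (nf c) ε₁' εk ψ₀ (cf c) a₀ s₀ a v₀ :=
    { KM := fun x => rfl
      le1 := hle1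
      eq2 := hM₂
      leJ := hJF
      prim := hC.prim
      primk := hεk
      cop := hcopM₁
      cut0 := hψ
      cutJ := hcJ
      cutN := hcut
      degN := hNc.1
      deg0 := hF
      mem0 := m0
      pow0 := p0
      rel0 := by
        intro g hg i hi
        exact r0 g hg i (by rw [hval₁]; exact hi)
      gen := hgen a hac
      rel := fun s hs g hg i hi => hrel a hac s hs g (fun x => hg _ x.2) i hi
      ram := hv1
      nram := hv2 }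
  obtain ⟨c1, c2, c3, c4⟩ := comp_props hComp
  obtain ⟨g, hg1, hg2⟩ := D.exg E (c4 v₀ hv1)
  obtain ⟨q1, q2, q3⟩ := D.psi
  have hψg : (ψ₀ * cf c) g ≠ 1 := by
    rw [MonoidHom.mul_apply, (hψ g).2 fun x hx => hg1 x ((le_sup_left : F₀ ≤ F₀ ⊔ E) hx), one_mul]
    exact hg2
  obtain ⟨F₁, hfF₁, hcF₁⟩ := q1
  have hnF₁ : NumberField F₁ := NumberField.of_module_finite K F₁
  have hgF₁ : IsGalois K F₁ := isGalois_of_cutsOut hcF₁
  -- the power `n`
  have hpw : ∀ g', (∀ x ∈ J, g' x = x) → ((ψ₀ * cf c) g') ^ n = 1 → (ψ₀ * cf c) g' = 1 :=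
    fun g' hg' h1 => eq_one_of_pow hp hpn h1 (q3 g' hg')
  obtain ⟨l₁, hl₁⟩ := q2
  have hcF₁n : CutsOut ((ψ₀ * cf c) ^ n) F₁ := cutsOut_pow_n hcF₁ hl₁ hpn
  have hsplJ : ∀ v : HeightOneSpectrum (𝓞 K), (p : 𝓞 K) ∈ v.asIdeal →
      ∀ V : HeightOneSpectrum (𝓞 J), Above V v → FreeP K V := by
    intro v hv V hV
    apply hB.splJ V
    have e : ((p : 𝓞 J) : J) = p := map_natCast (algebraMap (𝓞 J) J) p
    rw [← e]
    refine (V.valuation_lt_one_iff_mem (K := J) (p : 𝓞 J)).2 ?_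
    have h9 : (p : 𝓞 K) ∈ V.asIdeal.comap (algebraMap (𝓞 K) (𝓞 J)) := by
      rw [show V.asIdeal.comap (algebraMap (𝓞 K) (𝓞 J)) = v.asIdeal from hV]
      exact hv
    rw [Ideal.mem_comap, map_natCast] at h9
    exact h9
  -- the character
  have hχl : ∀ g, (χ₀ ^ p ^ l) g = (χM ^ p ^ l) (AlgEquiv.restrictNormalHom M g) := by
    intro g
    rw [MonoidHom.pow_apply, MonoidHom.pow_apply, hχM]
  have hcardM : Nat.card (M ≃ₐ[K] M) = finrank K M := IsGalois.card_aut_eq_finrank K M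
  have hinjl : Function.Injective (χM ^ p ^ l) := by
    rw [injective_iff_map_eq_one]
    intro x hx
    rw [MonoidHom.pow_apply, ← map_pow] at hx
    have h5 : x ^ p ^ l = 1 := hinj (by rw [hx, map_one])
    have h6 : x ^ finrank K M = 1 := by rw [← hcardM]; exact pow_card_eq_one'
    have h7 := Nat.dvd_gcd (orderOf_dvd_of_pow_eq_one h6) (orderOf_dvd_of_pow_eq_one h5)
    rw [(hcop.pow_right l : (finrank K M).gcd (p ^ l) = 1)] at h7
    exact orderOf_eq_one_iff.1 (Nat.dvd_one.1 h7)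
  have hPhil : PhiData p (finrank K M) (((χM ^ p ^ l) δ : ℂ_[p]ˣ) : ℂ_[p]) Φ P := by
    rw [MonoidHom.pow_apply, Units.val_pow_eq_pow_val]
    exact Pool.Agent.Helper74.RD.phi_pow hFR hPhi l
  have hom2 : OmType p K (algebraMap K₁' M₂ ε₁')
      ((a₀ * Units.map (algebraMap K₁' M₂ : K₁' →* M₂) a : (M₂)ˣ) : M₂) := by
    have t3 : IsScalarTower K K₁' M₂ := IsScalarTower.of_algebraMap_eq fun x => rfl
    exact om_both hp hC.prim a.ne_zero hB.om hom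
  have hTs : ∀ σ ∈ TSet ιinf ιp S, SplF σ F₁ ∨ NonOm (χ₀ ^ p ^ l) σ := by
    intro σ hσ
    rcases hT σ hσ with h | h
    · exact Or.inl ((hDEC p K (ψ₀ * cf c) F₁ hcF₁).1 σ h)
    · exact Or.inr (nonOm_pow h l)
  have hql : ((ψ₀ * cf c) ^ n) ^ p ^ l₁ = 1 := by
    refine MonoidHom.ext fun g' => ?_
    have h := DFunLike.congr_fun hl₁ g'
    rw [MonoidHom.pow_apply] at h
    rw [MonoidHom.pow_apply, MonoidHom.pow_apply, ← pow_mul, mul_comm, pow_mul, h]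
    exact one_pow n
  have hfin := hGL p K ιinf ιp Lg S hcl M M₁ J M₂ (fun x => rfl) hleM hM₂ hcopM₁ hdJ hsplJ
    (χM ^ p ^ l) hinjl δ Φ P horder hPhil hTor hnsp (χ₀ ^ p ^ l) ((ψ₀ * cf c) ^ n) ψ hχl F₁
    hcF₁n ⟨l₁, hql⟩
    (fun g' hg' => by
      rw [MonoidHom.pow_apply, ← pow_mul, mul_comm, pow_mul, q3 g' hg', one_pow]) hTs
    (algebraMap K₁' M₂ ε₁') (a₀ * Units.map (algebraMap K₁' M₂ : K₁' →* M₂) a)
    (hC.prim.map_of_injective (algebraMap K₁' M₂).injective) (hle1 ε₁'.2) hom2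
    (D.npw g (fun x hx => hg1 x ((le_sup_left : F₀ ≤ F₀ ⊔ E) hx)) hg2)
    (fun s hs g' hg' h1 => D.aut s hs g' hg' (hpw g' (fun x hx => hg' x (hleJ hx)) (by
      rw [← MonoidHom.pow_apply]; exact h1)))
    (by
      intro x hx
      by_contra hxp
      exact hcB ⟨x, a, hac, hx, hxp⟩)
    E hcutE ⟨lE, hlE⟩ ⟨g, ?_, ?_⟩ c1 (fun v hv => c2 v (D.tame h3 v hv)) c3
  · exact hfin
  · intro x hx
    exact hg1 x ((sup_le_sup_right hJF E) hx)
  · rw [MonoidHom.pow_apply]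
    intro h1
    exact hψg (hpw g (fun x hx => hg1 x ((le_sup_of_le_left hJF : J ≤ F₀ ⊔ E) hx)) h1)

end Pool.Agent.Helper42.PW
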