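import Pool.Agent.Helper42.PW.Asm1
import Pool.Agent.Helper42.PW.Cls0
import Pool.Agent.Helper13.PW.WAPX
import Pool.Agent.Helper30.PW.WDEC
import Pool.Agent.Helper32.PW.WSHF
import Pool.Agent.Helper96.PPB.BKU1
import Pool.Agent.Helper56.PPB.BKU4
import Pool.Agent.Helper98.PPB.BKU5

/-!
# Project W: the moment theorems, without hypotheses
-/

set_option autoImplicit false

namespace Pool.Agent.Helper42.PW

theorem a_apx : W_APX := Pool.Agent.Helper13.PW.w_apx n_trn a_grp

theorem a_shf : W_SHF := Pool.Agent.Helper32.PW.w_shf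

theorem a_dec : W_DEC := Pool.Agent.Helper30.PW.w_dec

theorem a_kumw : W_KUM := w_kum Pool.Agent.Helper96.PPB.b_ku1 Pool.Agent.Helper56.PPB.b_ku4
  Pool.Agent.Helper98.PPB.b_ku5

/-- **MOMBV**, proved. -/
theorem z_mombv : MOMBV := a_mombv a_apx a_shf

/-- **MOMB1V**, proved. -/
theorem z_momb1v : MOMB1V := a_momb1v a_apx a_shf

end Pool.Agent.Helper42.PW
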