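import Pool.Agent.Helper42.PW.SLG

/-!
# Project W: V_SELW
-/

set_option autoImplicit false
set_option linter.unusedSectionVars false

namespace Pool.Agent.Helper42.PW

open NumberField Polynomial Module IsDedekindDomain Pool.Agent.Helper51.SigLeo
open Pool.Agent.Helper51.RP Pool.Agent.Helper42.RD Pool.Agent.Helper42.PP Pool.Agent.Helper42.PP1
open Pool.Agent.Helper42.PB
open Pool.Agent.Helper40.RS (bel gw bel_smul lies conj_of_bel free_gw absNorm_free val_smul)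
open Pool.Agent.Helper13.RD (eq_gw ram_free eq_of_val)
open Pool.Agent.Helper40.RD (bel_of_above ordW valW)

section main

variable {p : ℕ} [hp : Fact p.Prime] {k : Type} [NormedField k] [NormedAlgebra ℚ_[p] k]
  [IsUltrametricDist k] {K M K₁ M₁ J M₂ : Type} [Field K] [NumberField K] [Field M]
  [NumberField M] [Field K₁] [NumberField K₁] [Field M₁] [NumberField M₁] [Field J]
  [NumberField J] [Field M₂] [NumberField M₂] [Algebra K M] [Algebra K K₁] [Algebra K M₁]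
  [Algebra M M₁] [Algebra K₁ M₁] [Algebra K J] [Algebra K M₂] [Algebra M M₂] [Algebra K₁ M₂]
  [Algebra M₁ M₂] [Algebra J M₂] {ε : K₁} {δ : M ≃ₐ[K] M} {P : (ZMod p)[X]} {a₀ : M₂ˣ}

theorem val_one_above (B : Base p K M K₁ M₁ ε δ P) {v : HeightOneSpectrum (𝓞 K)} (hv : v ∉ B.S)
    {W : HeightOneSpectrum (𝓞 M₂)} (hW : Above W v) : W.valuation M₂ (p : M₂) = 1 := by
  have h1 : algebraMap K M₂ (p : K) = (p : M₂) := map_natCast _ _
  rw [← h1, valW, bel_of_above hW, val_p_one B hv, one_pow]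

/-- The support of the Selmer element. -/
theorem sel_suppW [Fact (Irreducible P)] (hB : SitB p K M K₁ M₁ J M₂ ε δ P a₀)
    (L : IwasawaLog p k) (T : Set (K →+* k)) (B : Base p K M K₁ M₁ ε δ P) (D : BaseB B a₀)
    (aτ : K₁ˣ) (haτ : OmType p K ε (aτ : K₁)) (a : K₁ˣ) (ha : OmType p K ε (a : K₁)) (x : Mˣ)
    (hx : SelW L (above T) P δ ((a₀ : M₂) * algebraMap K₁ M₂ (a : K₁)) x)
    (w : HeightOneSpectrum (𝓞 M)) (hw : w ∉ up M B.S) (hn : ¬ (p : ℤ) ∣ ordv w (x : M)) :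
    ∃ v ∈ Spl M₂ B.S, Above w v ∧ ordp p (B.Q v) a ≠ 0 := by
  have hs := hB.sit
  have := hs.st1
  have := hs.st2
  have := hs.gM
  have := hs.gK
  have := hs.gMK
  have := hB.t1
  have := hB.t2
  have := hB.t3
  have := hB.gM₂
  have := tow_M hB
  have := tow_K hB
  have hcopK : (finrank K K₁).Coprime p := by
    have h1 := Pool.Agent.Helper14.RD.finrank_dvd_pred p K K₁ ε hs.prim hs.gen
    exact Nat.Coprime.coprime_dvd_left h1 ((Nat.coprime_self_sub_left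
      (Fact.out : p.Prime).one_le).2 (Nat.coprime_one_left p))
  have hfree : FreeP K w := by
    by_contra hf
    exact hn (hs.nsp w hf x hx.pol)
  obtain ⟨W', hW'⟩ := exists_bel (M₁ := M₂) w
  have hWw : Above W' w := by rw [← hW']; rfl
  obtain ⟨v, hv⟩ : ∃ v, v = bel K w := ⟨_, rfl⟩
  have hvS : v ∉ B.S := by rw [hv]; exact bel_notMem hw
  have hwv : Above w v := by rw [hv]; rfl
  have hWv : Above W' v := by
    have h1 := bel_bel (K := K) (M := M) W'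
    rw [hW', ← hv] at h1
    rw [h1]; rfl
  obtain ⟨Q, hQ⟩ : ∃ Q, Q = bel K₁ W' := ⟨_, rfl⟩
  have hWQ : Above W' Q := by rw [hQ]; rfl
  have hQv : Above Q v := bel_of hWv hWQ
  obtain ⟨W, hW⟩ : ∃ W, W = bel M₁ W' := ⟨_, rfl⟩
  have hW'W : Above W' W := by rw [hW]; rfl
  have hWv₁ : Above W v := bel_of hWv hW'W
  have hu := D.unr v hvS W' hWv
  have huM := ord_of_unr hWv hWw hu
  have huK := ord_of_unr hWv hWQ hu
  have huW := ord_of_unr hWv hW'W hu
  have hn' : ¬ (p : ℤ) ∣ ordv W' (algebraMap M M₂ (x : M)) := by rw [huM]; exact hn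
  have hlocW := (hx.loc W').1 (val_one_above B hvS hWv)
  have hA0 : algebraMap K₁ M₂ (a : K₁) ≠ 0 := (_root_.map_ne_zero _).2 a.ne_zero
  have hup : W' ∉ up M₂ B.S := notMem_up hvS hWv
  have hnα : ¬ (p : ℤ) ∣ ordv W' ((a₀ : M₂) * algebraMap K₁ M₂ (a : K₁)) :=
    fun h => hn' (hlocW.1 h)
  have hna : ¬ (p : ℤ) ∣ ordv W' (algebraMap K₁ M₂ (a : K₁)) := by
    intro h
    apply hnα
    rw [ordv_mul _ a₀.ne_zero hA0]
    exact dvd_add (D.a₀S _ hup) h
  have hnQ : ¬ (p : ℤ) ∣ ordv Q (a : K₁) := by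
    rw [← huK]; exact hna
  have hQf : FreeP K Q := by
    by_contra hf
    exact hnQ ((Pool.Agent.Helper22.PP.p_omg p K K₁ ε hs.prim hs.gen hcopK).2.2.2.1 a ha Q hf)
  have hcalP : v ∈ B.calP := ⟨hvS, Q, hQv, hQf⟩
  have hWf : FreeP K W := (hs.vis v (val_p_one B hvS)).2.1 w Q W hwv hQv hWv₁ hfree hQf
  have hpW' : W'.valuation M₂ (p : M₂) = 1 := by
    have h1 : algebraMap K M₂ (p : K) = (p : M₂) := map_natCast _ _
    rw [← h1, valW, bel_of_above hWv, val_p_one B hvS, one_pow]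
  have hWf' : FreeP K W' := by
    intro g hg
    by_contra hg1
    have hgW : AlgEquiv.restrictNormal g M₁ = 1 := by
      apply hWf
      intro y
      have h1 := AlgEquiv.restrictNormal_commutes g M₁ y
      have h2 : ∀ z : M₁, W'.valuation M₂ (algebraMap M₁ M₂ z) =
          W.valuation M₁ z ^ W.asIdeal.ramificationIdx' W'.asIdeal := by
        intro z
        rw [valW, bel_of_above hW'W]
      have h3 : W.valuation M₁ (AlgEquiv.restrictNormal g M₁ y) ^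
          W.asIdeal.ramificationIdx' W'.asIdeal =
          W.valuation M₁ y ^ W.asIdeal.ramificationIdx' W'.asIdeal := by
        rw [← h2, ← h2, h1, hg]
      have h4 : W.asIdeal.ramificationIdx' W'.asIdeal ≠ 0 := by
        have h5 := Pool.Agent.Helper79.PP.ram_ne (A := M₁) W'
        rwa [bel_of_above hW'W] at h5
      exact (pow_left_inj₀ zero_le zero_le h4).1 h3
    have hfix : ∀ y : M₁, g (algebraMap M₁ M₂ y) = algebraMap M₁ M₂ y := by
      intro y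
      rw [← AlgEquiv.restrictNormal_commutes g M₁ y, hgW]
      rfl
    exact hn' (v_nsp p K M K₁ M₁ J M₂ ε δ P a₀ hB W' hpW' g hfix hg1 hg a x
      (hlocW.2 hnα))
  refine ⟨v, ⟨hvS, W', hWv, hWf'⟩, hwv, ?_⟩
  intro h0
  have h1 := ((((v_lab p k L K M K₁ M₁ ε δ P hs B aτ 0
    (ofTauN (tau0 B L T aτ)) ∅ 0 haτ).1 a ha).2.1 v hcalP W hWv₁).2 h0)
  apply hna
  rw [IsScalarTower.algebraMap_apply K₁ M₁ M₂, huW]
  exact h1

theorem sel_actW (hGRP : N_GRP) (hB : SitB p K M K₁ M₁ J M₂ ε δ P a₀) (L : IwasawaLog p k)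
    (T : Set (K →+* k)) (a : K₁ˣ) (ha : OmType p K ε (a : K₁)) (x : Mˣ)
    (hx : SelW L (above T) P δ ((a₀ : M₂) * algebraMap K₁ M₂ (a : K₁)) x) (i : ℕ) :
    SelW L (above T) P δ ((a₀ : M₂) * algebraMap K₁ M₂ (a : K₁)) (act (δ ^ i) x) := by
  induction i with
  | zero =>
    have h1 : act (δ ^ 0) x = x := by
      rw [pow_zero]; exact Units.ext rfl
    rw [h1]; exact hx
  | succ i ih =>
    have h1 : act (δ ^ (i + 1)) x = act δ (act (δ ^ i) x) := by
      rw [pow_succ']; exact Units.ext rfl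
    rw [h1]
    exact selW_act hGRP hB L T a ha _ ih

/-- The condition at a visible ramified prime. -/
theorem sel_locW (hGRP : N_GRP) (hB : SitB p K M K₁ M₁ J M₂ ε δ P a₀) (L : IwasawaLog p k)
    (T : Set (K →+* k)) (B : Base p K M K₁ M₁ ε δ P) (D : BaseB B a₀) (a : K₁ˣ)
    (ha : OmType p K ε (a : K₁)) (x : Mˣ)
    (hx : SelW L (above T) P δ ((a₀ : M₂) * algebraMap K₁ M₂ (a : K₁)) x)
    {v : HeightOneSpectrum (𝓞 K)} (hv : v ∈ Spl M₂ B.S) (he : ordp p (B.Q v) a ≠ 0) :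
    algebraMap (ZMod p) (AdjoinRoot P) (ordp p (B.Q v) a) * B.R v x =
      B.nv v x * algebraMap (ZMod p) (AdjoinRoot P) (B.th v (ast p K₁ M₁ a) + D.s0 v) := by
  unfold Base.R Base.nv kf
  rw [Finset.mul_sum, Finset.sum_mul]
  refine Finset.sum_congr rfl fun i _ => ?_
  have h1 := tame_eqB hB B D hv a he (act (δ ^ i) x)
    (((sel_actW hGRP hB L T a ha x hx i).loc (D.W₂ v)).1 (val_one_above B hv.1 (D.W₂a v hv).1))
  rw [← mul_assoc, ← map_mul, h1, map_mul]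
  ring

end main

theorem v_selw (hGRP : N_GRP) (hCHG : N_CHG) : V_SELW := by
  classical
  intro p _ k _ _ _ K M K₁ M₁ J M₂ _ _ _ _ _ _ _ _ _ _ _ _ _ _ _ _ _ _ _ _ _ _ _ ε δ P _ a₀ hB
    L T B D aτ n E haτ a ha hloc
  have hs := hB.sit
  rintro ⟨x, hx, hnx⟩
  obtain ⟨hfin, -, -, -⟩ := (v_lab p k L K M K₁ M₁ ε δ P hs B aτ n E.toTauF (Spl M₂ B.S) D.s0
    haτ).1 a ha
  -- the decomposition of `x`
  obtain ⟨d1, d2⟩ := w_dec p K M K₁ M₁ ε δ P hs B x hx.pol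
    ((zz B a).filter (fun v ↦ v ∈ Spl M₂ B.S))
    (fun v hv => spl_vis hB B (Finset.mem_filter.1 hv).2) (by
      intro w hw h
      by_contra hn
      obtain ⟨v, hv, hwv, he⟩ := sel_suppW hB L T B D aτ haτ a ha x hx w hw hn
      refine h v (Finset.mem_filter.2 ⟨(mem_zz B hfin v).2 ⟨?_, he⟩, hv⟩) hwv
      obtain ⟨hvS, W, hW, hWf⟩ := spl_vis hB B hv
      have := hs.st1
      have := hs.st2
      have := hs.gM
      have := hs.gK
      have := hs.gMK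
      obtain ⟨Q, hQ⟩ : ∃ Q, Q = bel K₁ W := ⟨_, rfl⟩
      have hWQ : Above W Q := by rw [hQ]; rfl
      have h1 := ((hs.vis v (val_p_one B hvS)).1 W hW hWf).2.2 Q hWQ
      exact ⟨hvS, Q, h1.2.2, h1.1⟩)
  refine ⟨fun i => B.rho i x, ccB B (Spl M₂ B.S) a x, ⟨?_, ?_, ?_⟩, ?_⟩
  · -- supp
    intro q hq
    by_contra h
    exact hq (if_neg h)
  · -- lam
    funext j
    have h1 : E.h j x = 0 := E.hS j x hx.pol
      (fun W hW => (locW_cls hGRP hCHG hB L B.S a aτ ha hloc W hW _).1 (hx.loc W)) hx.sig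
    have h2 := d1 (E.h j) (E.hP j)
    rw [h1] at h2
    have h3 := sum_ccB B (Spl M₂ B.S) hfin x (fun v => B.til (E.h j) (nrm M M₁ (B.z v)))
    show ((sysB B E.toTauF (Spl M₂ B.S) D.s0 aτ).lam₀ (fun i => B.rho i x) +
      ∑ q ∈ B.lab a, (sysB B E.toTauF (Spl M₂ B.S) D.s0 aτ).lam q
        (ccB B (Spl M₂ B.S) a x q)) j = 0
    rw [Pi.add_apply, Finset.sum_apply, sysB_lam0]
    simp only [sysB_lam]
    rw [h3]
    exact h2.symm
  · -- loc
    intro q hq hsp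
    have hv : q.1.1 ∈ Spl M₂ B.S := hsp
    have hvis := spl_vis hB B hv
    have he : ordp p (B.Q q.1.1) a = (q.1.2 : ZMod p) := (mem_lab B hfin q).1 hq
    have he0 : (q.1.2 : ZMod p) ≠ 0 := Units.ne_zero _
    have h1 := sel_locW hGRP hB L T B D a ha x hx hv (by rw [he]; exact he0)
    rw [th_ast w_dew hs B a aτ ha hfin hloc hvis, he,
      ← sum_e B hfin (fun l => B.pi q.1.1 l)] at h1
    have hth := B.thh q.1.1 hvis
    have h2 := d1 (B.R q.1.1) ((Pool.Agent.Helper30.PP.p_fun p K M (finrank K M) δ P finrank_pos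
      hs.copm (by rw [← hs.ord]; exact pow_orderOf_eq_one δ) hs.irr hs.dvdP).2 _
      (fun y z => by rw [map_mul, hth])).1
    have h3 := sum_ccB B (Spl M₂ B.S) hfin x (fun v => B.A q.1.1 v)
    have h4 : ccB B (Spl M₂ B.S) a x q = B.nv q.1.1 x := if_pos ⟨hq, hv⟩
    have h5 : (sysB B E.toTauF (Spl M₂ B.S) D.s0 aτ).R (B.lab a) (fun i => B.rho i x)
        (ccB B (Spl M₂ B.S) a x) q =
        B.R q.1.1 x - B.nv q.1.1 x * algebraMap (ZMod p) (AdjoinRoot P) ((q.1.2 : ZMod p)⁻¹ *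
          (B.sv aτ q.1.1 + D.s0 q.1.1 +
            ∑ q' ∈ B.lab a, (q'.1.2 : ZMod p) * B.pi q.1.1 q'.1.1)) := by
      unfold Pool.Agent.Helper17.PP.Sys.R
      rw [sysB_res, sum_er (B.lab a) hq, sum_er (B.lab a) hq]
      show _ + (∑ q' ∈ B.lab a, ccB B (Spl M₂ B.S) a x q' * B.A q.1.1 q'.1.1 -
          ccB B (Spl M₂ B.S) a x q * B.A q.1.1 q.1.1) +
        ccB B (Spl M₂ B.S) a x q * ((B.A q.1.1 q.1.1 - algebraMap (ZMod p) (AdjoinRoot P)
          ((q.1.2 : ZMod p)⁻¹ * (B.sv aτ q.1.1 + D.s0 q.1.1) + B.pi q.1.1 q.1.1)) +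
          (∑ q' ∈ B.lab a, algebraMap (ZMod p) (AdjoinRoot P)
            (- ((q'.1.2 : ZMod p) * (q.1.2 : ZMod p)⁻¹ * B.pi q.1.1 q'.1.1)) -
            algebraMap (ZMod p) (AdjoinRoot P)
            (- ((q.1.2 : ZMod p) * (q.1.2 : ZMod p)⁻¹ * B.pi q.1.1 q.1.1)))) = _
      rw [h3, h2, h4, ← map_sum, mul_inv_cancel₀ he0]
      have h6 : ∑ q' ∈ B.lab a,
          (- ((q'.1.2 : ZMod p) * (q.1.2 : ZMod p)⁻¹ * B.pi q.1.1 q'.1.1)) =
          - ((q.1.2 : ZMod p)⁻¹ * ∑ q' ∈ B.lab a, (q'.1.2 : ZMod p) * B.pi q.1.1 q'.1.1) := by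
        rw [Finset.mul_sum, ← Finset.sum_neg_distrib]
        exact Finset.sum_congr rfl fun q' _ => by ring
      rw [h6]
      simp only [map_mul, map_add, map_neg, map_one, Base.A]
      ring
    rw [h5]
    have h7 : algebraMap (ZMod p) (AdjoinRoot P) (q.1.2 : ZMod p) *
        algebraMap (ZMod p) (AdjoinRoot P) ((q.1.2 : ZMod p)⁻¹) = 1 := by
      rw [← map_mul, mul_inv_cancel₀ he0, map_one]
    rw [map_mul]
    rw [show B.sv aτ q.1.1 + ∑ q' ∈ B.lab a, (q'.1.2 : ZMod p) * B.pi q.1.1 q'.1.1 + D.s0 q.1.1 =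
      B.sv aτ q.1.1 + D.s0 q.1.1 + ∑ q' ∈ B.lab a, (q'.1.2 : ZMod p) * B.pi q.1.1 q'.1.1 by ring]
      at h1
    linear_combination (algebraMap (ZMod p) (AdjoinRoot P) ((q.1.2 : ZMod p)⁻¹)) * h1 -
      (B.R q.1.1 x) * h7
  · -- nonzero
    rintro ⟨h1, h2⟩
    refine hnx (d2 (fun i => congrFun h1 i) ?_)
    intro v hv
    obtain ⟨hv1, hv2⟩ := Finset.mem_filter.1 hv
    unfold zz at hv1
    obtain ⟨q, hq, rfl⟩ := Finset.mem_image.1 hv1
    have h3 := congrFun h2 q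
    unfold ccB at h3
    rw [if_pos ⟨hq, hv2⟩] at h3
    exact h3

end Pool.Agent.Helper42.PW
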