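import Pool.Agent.Helper42.PW.Goals4
import Pool.Agent.Helper42.PW.SEL
import Pool.Agent.Helper98.ND.NMB
import Pool.Agent.Helper22.PP.POMG

/-!
# Project W: the moment theorem for the families given by local conditions, from `AnaN`
-/

set_option autoImplicit false

namespace Pool.Agent.Helper42.PW

open NumberField Polynomial Module IsDedekindDomain
open Pool.Agent.Helper51.RP Pool.Agent.Helper42.RD Pool.Agent.Helper42.PP Pool.Agent.Helper42.PP1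
open Pool.Agent.Helper42.PB Pool.Agent.Helper11.PP
open Pool.Agent.Helper51.SigLeo (IwasawaLog)
open Pool.Agent.Helper38.ND (AnaN N_ABS)
open Pool.Agent.Helper79.PP (clp_eq clp_mul)

theorem momA (hABS : N_ABS) (hCND : W_CND) (hMOM : W_MOMV) (hSEL : V_SELW) {p : ℕ}
    [hpF : Fact p.Prime] (L : IwasawaLog p ℂ_[p])
    {K M K₁ M₁ J M₂ : Type} [Field K] [NumberField K] [Field M]
    [NumberField M] [Field K₁] [NumberField K₁] [Field M₁] [NumberField M₁] [Field J]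
    [NumberField J] [Field M₂] [NumberField M₂] [Algebra K M] [Algebra K K₁] [Algebra K M₁]
    [Algebra M M₁] [Algebra K₁ M₁] [Algebra K J] [Algebra K M₂] [Algebra M M₂] [Algebra K₁ M₂]
    [Algebra M₁ M₂] [Algebra J M₂] {ε : K₁} {δ : M ≃ₐ[K] M} {P : (ZMod p)[X]}
    [Fact (Irreducible P)] {a₀ : M₂ˣ} (hs : SitB p K M K₁ M₁ J M₂ ε δ P a₀)
    (T : Set (K →+* ℂ_[p])) (θ : ℝ) (hθ : 0 ≤ θ)
    (hE : ∀ S₀ : Finset (HeightOneSpectrum (𝓞 K)), ∃ (B : Base p K M K₁ M₁ ε δ P)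
      (D : BaseB B a₀) (g : ℝ → ℝ) (K₀ : ℝ), S₀ ⊆ B.S ∧ Slow g K₀ ∧
      ∀ aτ : K₁ˣ, OmType p K ε (aτ : K₁) →
        ∃ (n : ℕ) (E : TauW n B a₀ L T aτ) (Kc c X₁ : ℝ), 0 < c ∧
          AnaN (sysB B E.toTauF (Spl M₂ B.S) D.s0 aτ) g θ Kc c X₁) :
    MomA p K ε (BdW L T P δ a₀) θ := by
  intro S A f hA hne hf
  obtain ⟨B, D, g, K₀, hSB, hslow, hE⟩ := hE S
  refine hMOM hABS hCND p L K M K₁ M₁ ε δ P hs.sit B (Spl M₂ B.S) D.s0 g K₀ hslow θ hθ S A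
    (BdW L T P δ a₀) f hSB hA hne hf ?_
  intro aτ haτ _
  obtain ⟨n, E, Kc, c, X₁, hc, hana⟩ := hE aτ haτ
  refine ⟨n, E.toTauF, Kc, c, X₁, hc, hana, ?_⟩
  rintro a ⟨y, a₁, haa, hsel, hy⟩ ha hl
  obtain ⟨z, hz⟩ := clp_eq.1 haa.symm
  have h1 : OmType p K ε (a₁ : K₁) := by rw [hz]; exact om_mul_pow ha z
  have h2 : LocS p (up K₁ B.S) (a₁ / aτ) := by
    have h3 := (Pool.Agent.Helper15.PP.gZ p _).mul_mem (Pool.Agent.Helper15.PP.mem_gZ.2 hl)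
      (Pool.Agent.Helper15.PP.mem_gZ.2 (locS_pow (p := p) (Z := up K₁ B.S) z))
    have h4 : a₁ / aτ = a / aτ * z ^ p := by rw [hz, mul_div_right_comm]
    rw [h4]
    exact Pool.Agent.Helper15.PP.mem_gZ.1 h3
  have h5 := hSEL p ℂ_[p] K M K₁ M₁ J M₂ ε δ P a₀ hs L T B D aτ n E haτ a₁ h1 h2
    ⟨y, hsel, hy⟩
  rw [hz, lab_mul_pow] at h5
  exact h5

section shift

variable {p : ℕ} [hpF : Fact p.Prime] {K M K₁ M₁ J M₂ : Type} [Field K] [NumberField K] [Field M]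
    [NumberField M] [Field K₁] [NumberField K₁] [Field M₁] [NumberField M₁] [Field J]
    [NumberField J] [Field M₂] [NumberField M₂] [Algebra K M] [Algebra K K₁] [Algebra K M₁]
    [Algebra M M₁] [Algebra K₁ M₁] [Algebra K J] [Algebra K M₂] [Algebra M M₂] [Algebra K₁ M₂]
    [Algebra M₁ M₂] [Algebra J M₂] {ε : K₁} {δ : M ≃ₐ[K] M} {P : (ZMod p)[X]} {a₀ : M₂ˣ}

/-- `SitX` and the local condition give `SitBs`. -/
theorem SitX.toB (h : SitX p K M K₁ M₁ J M₂ ε δ P a₀)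
    (hp : LocS p {W : HeightOneSpectrum (𝓞 M₂) | W.valuation M₂ (p : M₂) < 1} a₀) :
    SitBs p K M K₁ M₁ J M₂ ε δ P a₀ :=
  ⟨⟨h.sit, h.t1, h.t2, h.t3, h.t4, h.gJ, h.gM₂, h.cycJ, h.degJ, h.lin₂, h.om, h.cyc⟩, h.splJ, hp⟩

/-- The image of an element of type `ω`. -/
theorem om_map (h : SitX p K M K₁ M₁ J M₂ ε δ P a₀) {b : K₁ˣ} (hb : OmType p K ε (b : K₁)) :
    OmType p K (algebraMap K₁ M₂ ε) (algebraMap K₁ M₂ (b : K₁)) := by
  have hsit := h.sit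
  have := hsit.gK
  have := hsit.st1
  have := hsit.st2
  have := h.t1
  have := h.t3
  have hst : IsScalarTower K K₁ M₂ := by
    refine IsScalarTower.of_algebraMap_eq fun x => ?_
    rw [IsScalarTower.algebraMap_apply K M₁ M₂, IsScalarTower.algebraMap_apply K K₁ M₁,
      ← IsScalarTower.algebraMap_apply K₁ M₁ M₂]
  intro g
  obtain ⟨n, c, h1, h2⟩ := hb (g.restrictNormal K₁)
  refine ⟨n, algebraMap K₁ M₂ c, ?_, ?_⟩
  · rw [← AlgEquiv.restrictNormal_commutes g K₁ ε, h1, map_pow]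
  · rw [← AlgEquiv.restrictNormal_commutes g K₁ (b : K₁), h2, map_mul, map_pow, map_pow]

/-- Multiplication of the Kummer generator by an element of `K₁` of type `ω`. -/
theorem SitX.mul (h : SitX p K M K₁ M₁ J M₂ ε δ P a₀) {b : K₁ˣ} (hb : OmType p K ε (b : K₁)) :
    SitX p K M K₁ M₁ J M₂ ε δ P (a₀ * Units.map (algebraMap K₁ M₂ : K₁ →* M₂) b) := by
  have := h.t3
  have hε : IsPrimitiveRoot (algebraMap K₁ M₂ ε) p :=
    h.sit.prim.map_of_injective (algebraMap K₁ M₂).injective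
  have h1 : OmType p K (algebraMap K₁ M₂ ε)
      ((Units.map (algebraMap K₁ M₂ : K₁ →* M₂) b : M₂ˣ) : M₂) := om_map h hb
  refine ⟨h.sit, h.t1, h.t2, h.t3, h.t4, h.gJ, h.gM₂, h.cycJ, h.degJ, h.lin₂, h.splJ,
    Pool.Agent.Helper22.PP.om_mul hε h.om h1, ?_⟩
  intro σ hσ hne c hc
  refine h.cyc σ hσ hne c ?_
  have h2 : σ (algebraMap K₁ M₂ (b : K₁)) = algebraMap K₁ M₂ (b : K₁) := by
    rw [IsScalarTower.algebraMap_apply K₁ M₁ M₂]
    exact hσ _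
  have h3 : algebraMap K₁ M₂ (b : K₁) ≠ 0 :=
    (map_ne_zero (algebraMap K₁ M₂)).2 b.ne_zero
  have h4 : ((a₀ * Units.map (algebraMap K₁ M₂ : K₁ →* M₂) b : M₂ˣ) : M₂) =
      (a₀ : M₂) * algebraMap K₁ M₂ (b : K₁) := by
    rw [Units.val_mul]
    rfl
  rw [h4, map_mul, h2] at hc
  refine mul_right_cancel₀ h3 ?_
  rw [hc]
  ring

/-- From `SitBs` to `SitX`. -/
theorem shiftX (hAPX : W_APX) (hSHF : W_SHF) (L : IwasawaLog p ℂ_[p]) (T : Set (K →+* ℂ_[p]))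
    (θ : ℝ) (hθ : 0 ≤ θ)
    (hB : ∀ a₁ : M₂ˣ, SitBs p K M K₁ M₁ J M₂ ε δ P a₁ → MomA p K ε (BdW L T P δ a₁) θ)
    (h : SitX p K M K₁ M₁ J M₂ ε δ P a₀) : MomA p K ε (BdW L T P δ a₀) θ := by
  obtain ⟨b, hb, hloc⟩ := hAPX p K M K₁ M₁ J M₂ ε δ P a₀ h
  have h1 := hB _ ((h.mul hb).toB hloc)
  have h2 := hSHF p K K₁ ε _ θ hθ h.sit.prim b⁻¹
    (Pool.Agent.Helper22.PP.om_inv h.sit.prim hb) h1
  have h3 : {c : ClP p K₁ | c * clp p b⁻¹ ∈
      BdW L T P δ (a₀ * Units.map (algebraMap K₁ M₂ : K₁ →* M₂) b)} = BdW L T P δ a₀ := by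
    have hmul : ∀ a : K₁ˣ, ((a₀ * Units.map (algebraMap K₁ M₂ : K₁ →* M₂) b : M₂ˣ) : M₂) *
        algebraMap K₁ M₂ ((a * b⁻¹ : K₁ˣ) : K₁) = (a₀ : M₂) * algebraMap K₁ M₂ (a : K₁) := by
      intro a
      have h5 : (algebraMap K₁ M₂ (b : K₁)) ≠ 0 :=
        (map_ne_zero (algebraMap K₁ M₂)).2 b.ne_zero
      rw [Units.val_mul, Units.val_mul, Units.val_inv_eq_inv_val, map_mul, map_inv₀]
      change (a₀ : M₂) * algebraMap K₁ M₂ (b : K₁) * _ = _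
      field_simp
    ext c
    constructor
    · rintro ⟨y, a, hc, hsel, hy⟩
      refine ⟨y, a * b, ?_, ?_, hy⟩
      · rw [clp_mul, hc, mul_assoc, ← clp_mul, inv_mul_cancel]
        exact mul_one c
      · have h4 := hmul (a * b)
        rw [mul_inv_cancel_right] at h4
        rw [← h4]
        exact hsel
    · rintro ⟨y, a, hc, hsel, hy⟩
      refine ⟨y, a * b⁻¹, ?_, ?_, hy⟩
      · rw [clp_mul, hc]
      · rw [hmul]
        exact hsel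
  rw [h3] at h2
  exact h2

end shift

end Pool.Agent.Helper42.PW
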