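import Pool.Agent.Helper42.PB.Defs

/-!
# Project W (MP_fc6b1e_nt, density theorem for ALL characters of order `p`): definitions

No condition above `p` on the characters `φ` of order `p` (outside the places of `T` where `χ₀` is congruent to
`ω`). At the primes `W ∣ p` of `M₂` the local condition of the Selmer group is: `x` is a local norm from
`M₂(α^(1/p))`, `α = a₀ a`, and the valuation of `x` is a multiple of `p` if `α` is locally a `p`-th power.
There are no completions: `nf p α z` is the norm form of `X^p - α`, and a local norm is an element `x` with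
`x * nf p α z` close to `1` for some `z`.
-/

set_option autoImplicit false

namespace Pool.Agent.Helper42.PW

open NumberField Polynomial Module IsDedekindDomain
open Pool.Agent.Helper51.RP Pool.Agent.Helper42.RD Pool.Agent.Helper42.PP Pool.Agent.Helper42.PP1
open Pool.Agent.Helper42.PB
open Pool.Agent.Helper51.SigLeo (IwasawaLog)

/-- The norm form: the determinant of the multiplication by `∑_{j < p} z_j s^j` on `R[s]/(s^p - α)`. -/
def nf (p : ℕ) {R : Type} [CommRing R] (α : R) (z : ℕ → R) : R :=
  Matrix.det (Matrix.of fun i j : Fin p ↦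
    if (j : ℕ) ≤ i then z (i - j) else α * z (p + i - j))

section loc

variable (p : ℕ) {F : Type} [Field F] [NumberField F] (W : HeightOneSpectrum (𝓞 F))

/-- `u` is congruent to `1` modulo `W` and modulo `p³` at `W`. -/
def Cl (u : F) : Prop := W.valuation F (u - 1) < 1 ∧ W.valuation F (u - 1) ≤ W.valuation F (p : F) ^ 3

/-- `α` is a `p`-th power in the completion at `W` (also for `W ∣ p`). -/
def PwAt (α : F) : Prop := ∃ y : F, Cl p W (α * y ^ p)

/-- `x` is a local norm at `W` from `F(α^(1/p))`. -/
def NmAt (α x : F) : Prop := ∃ z : ℕ → F, Cl p W (x * nf p α z)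

/-- The local condition of the Selmer group of `α` at `W`. -/
def LocW (α x : F) : Prop :=
  (W.valuation F (p : F) = 1 → LocAt p W α x) ∧
  (W.valuation F (p : F) < 1 → NmAt p W α x ∧ (PwAt p W α → (p : ℤ) ∣ ordv W x))

end loc

/-- The twisted Selmer group of `α`, with the norm conditions at the primes above `p`. -/
structure SelW {p : ℕ} {k : Type} [NormedField k] {K M : Type} [Field K] [Field M]
    [Algebra K M] {F : Type} [Field F] [NumberField F] [Algebra M F] (L : IwasawaLog p k)
    (T : Set (M →+* k)) (P : (ZMod p)[X]) (δ : M ≃ₐ[K] M) (α : F) (x : Mˣ) : Prop where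
  pol : Pw p (pol P δ x)
  loc : ∀ W : HeightOneSpectrum (𝓞 F), LocW p W α (algebraMap M F x)
  sig : LocSig L T x

/-- `n` independent `P`-functionals of local nature at `S` which express the local conditions of `a₀ aτ` at
the primes of `M₂` above `S` and at the places of `T`. -/
structure TauW {p : ℕ} [Fact p.Prime] {k : Type} [NormedField k] {K M K₁ M₁ : Type} [Field K]
    [NumberField K] [Field M] [NumberField M] [Field K₁] [NumberField K₁] [Field M₁]
    [NumberField M₁] [Algebra K M] [Algebra K K₁] [Algebra K M₁] [Algebra M M₁] [Algebra K₁ M₁]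
    {ε : K₁} {δ : M ≃ₐ[K] M} {P : (ZMod p)[X]} (n : ℕ) (B : Base p K M K₁ M₁ ε δ P)
    {M₂ : Type} [Field M₂] [NumberField M₂] [Algebra K M₂] [Algebra M M₂] [Algebra K₁ M₂]
    (a₀ : M₂ˣ) (L : IwasawaLog p k) (T : Set (K →+* k)) (aτ : K₁ˣ) extends TauF n B where
  hS : ∀ j x, Pw p (pol P δ x) → (∀ W ∈ up M₂ B.S,
    LocW p W ((a₀ : M₂) * algebraMap K₁ M₂ (aτ : K₁)) (algebraMap M M₂ (x : M))) →
    LocSig L (above T) x → h j x = 0

end Pool.Agent.Helper42.PW
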