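import Pool.Agent.Helper42.PW.Defs
import Pool.Agent.Helper77.PPB.Goals2

/-!
# Project W (MP_fc6b1e_nt, density theorem for ALL characters of order `p`): definitions, algebraic side

No condition above `p` on the Kummer generator. `HDataW` is `RP.HData` for an arbitrary `a ≠ 0` of `M₁`;
`TypT` is the condition at the places of `T`; `SplF σ F`: the place of `K` induced by `σ` splits completely
in `F`; `NonOm χ₀ σ`: the restriction of `χ₀` to the decomposition group of this place is not congruent to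
the cyclotomic character.
-/

set_option autoImplicit false

namespace Pool.Agent.Helper42.PW

open NumberField Polynomial Module IsDedekindDomain
open Pool.Agent.Helper51.RP Pool.Agent.Helper42.RD Pool.Agent.Helper42.PP Pool.Agent.Helper42.PP1
open Pool.Agent.Helper42.PB
open Pool.Agent.Helper51.SigLeo (IwasawaLog)
open Pool.Agent.Helper77.RL (SplitAt NoTor)
open Pool.Agent.Helper77.PPB (CondW)
open Pool.Agent.Helper38.FD (Chr)

/-- Compare `RP.HData`: `a` is any element of `M₁`, not zero. -/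
structure HDataW {p : ℕ} {k : Type} [NormedField k] (K M H M₁ H₁ : Type) [Field K] [NumberField K]
    [Field M] [NumberField M] [Field H] [NumberField H] [Field M₁] [NumberField M₁] [Field H₁]
    [NumberField H₁] [Algebra K M] [Algebra M H] [Algebra K H] [Algebra M M₁] [Algebra M₁ H₁]
    [Algebra H H₁] (m : ℕ) (δ : M ≃ₐ[K] M) (γ δ' : H ≃ₐ[K] H) (γ₁ : H₁ ≃ₐ[M₁] H₁)
    (T : Set (K →+* k)) (ε a : M₁) (s : H₁) : Prop where
  order : orderOf δ = m
  deg : finrank K M = m
  degH : finrank M H = p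
  degH₁ : finrank M₁ H₁ = p
  compat : ∀ x : M, algebraMap M₁ H₁ (algebraMap M M₁ x) = algebraMap H H₁ (algebraMap M H x)
  cop : (finrank M M₁).Coprime p
  gal : IsGalois M M₁
  prim : IsPrimitiveRoot ε p
  ne : a ≠ 0
  pow : s ^ p = algebraMap M₁ H₁ a
  γs : γ₁ s = algebraMap M₁ H₁ ε * s
  ext : ∀ y : H, γ₁ (algebraMap H H₁ y) = algebraMap H H₁ (γ y)
  γM : ∀ x : M, γ (algebraMap M H x) = algebraMap M H x
  γo : orderOf γ = p
  δM : ∀ x : M, δ' (algebraMap M H x) = algebraMap M H (δ x)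
  δo : orderOf δ' = m
  comm : ∀ y : H, γ (δ' y) = δ' (γ y)
  closed : PlaceClosed T

/-- Every place of `T` splits completely in `H/M`, or the local torsion has no `P`-part. -/
def TypT {p : ℕ} {k : Type} [NormedField k] {K : Type} (M : Type) {H : Type} (Ω : Type) [Field K]
    [Field M] [Field H] [Field Ω] [Algebra K H] [Algebra M H] [Algebra H Ω] [Algebra K Ω]
    (P : (ZMod p)[X]) (δ' : H ≃ₐ[K] H) (T : Set (K →+* k)) : Prop :=
  ∀ σ ∈ T, (∀ τ' : H →+* k, τ'.comp (algebraMap K H) = σ → SplitAt M τ') ∨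
    ∀ τ : Ω →+* k, τ.comp (algebraMap K Ω) = σ → NoTor P δ' τ

/-- Compare `PPB.CondW`: moreover above every prime above `p` there is a prime with the same
completion. -/
structure CondV (p : ℕ) (K M M₂ M₂' : Type) [Field K] [Field M] [NumberField M] [Field M₂]
    [NumberField M₂] [Field M₂'] [NumberField M₂'] [Algebra K M] [Algebra M M₂] [Algebra M₂ M₂']
    (α : M₂) : Prop extends CondW p K M M₂ M₂' α where
  abp : ∀ W : HeightOneSpectrum (𝓞 M₂), W.valuation M₂ (p : M₂) < 1 →
    ∃ W' : HeightOneSpectrum (𝓞 M₂'), Above W' W ∧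
      (∀ x : M₂, W'.valuation M₂' (algebraMap M₂ M₂' x) = W.valuation M₂ x) ∧
      ∀ (y : M₂') (N : ℕ), ∃ x : M₂,
        W'.valuation M₂' (y - algebraMap M₂ M₂' x) ≤ WithZero.exp (-(N : ℤ))

/-- The place of `K` induced by `σ` splits completely in `F`. -/
def SplF {k : Type} [NormedField k] {K : Type} [Field K] [NumberField K] (σ : K →+* k) (F : Type)
    [Field F] [NumberField F] [Algebra K F] : Prop :=
  ∀ V : HeightOneSpectrum (𝓞 F),
    (∀ x : 𝓞 K, algebraMap (𝓞 K) (𝓞 F) x ∈ V.asIdeal ↔ ‖σ (x : K)‖ < 1) → FreeP K V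

/-- The restriction of `χ₀` to the decomposition group of the place of `K` induced by `σ` is not
congruent to the cyclotomic character modulo the maximal ideal. -/
def NonOm {p : ℕ} [Fact p.Prime] {K : Type} [Field K]
    (χ₀ : Chr K (AlgebraicClosure K) ℂ_[p]) (σ : K →+* ℂ_[p]) : Prop :=
  ∀ τ : AlgebraicClosure K →+* ℂ_[p], τ.comp (algebraMap K (AlgebraicClosure K)) = σ →
  ∃ (g : AlgebraicClosure K ≃ₐ[K] AlgebraicClosure K) (r : ℕ), (∀ x, ‖τ (g x)‖ = ‖τ x‖) ∧
    (∀ ξ : AlgebraicClosure K, ξ ^ p = 1 → g ξ = ξ ^ r) ∧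
    ‖((χ₀ g : ℂ_[p]ˣ) : ℂ_[p]) - r‖ = 1

end Pool.Agent.Helper42.PW
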