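import Pool.Agent.Helper42.PW.Defs2

/-!
# Project W (MP_fc6b1e_nt, density theorem for ALL characters of order `p`): definitions, class level

The family is a set of classes `c ∈ BSet` (characters of order `p`) given by a condition which depends only
on the local class at a finite set `S` of primes (`LocA`). The classes are ordered by a weight function `f`: the
product of the norms of the primes not in `S` at which the class is ramified, times a factor which depends only on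
the local class at `S` (`IsWt`).
-/

set_option autoImplicit false

namespace Pool.Agent.Helper42.PW

open NumberField Polynomial Module IsDedekindDomain
open Pool.Agent.Helper51.RP Pool.Agent.Helper42.RD Pool.Agent.Helper42.PP Pool.Agent.Helper42.PP1
open Pool.Agent.Helper42.PB Pool.Agent.Helper11.PP
open Pool.Agent.Helper51.SigLeo (IwasawaLog)
open Pool.Agent.Helper38.FD (Chr)

/-- Compare `PB.SitB`: the same without the condition `powp` at the primes above `p`. -/
structure SitX (p : ℕ) [Fact p.Prime] (K M K₁ M₁ J M₂ : Type) [Field K] [NumberField K] [Field M]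
    [NumberField M] [Field K₁] [NumberField K₁] [Field M₁] [NumberField M₁] [Field J]
    [NumberField J] [Field M₂] [NumberField M₂] [Algebra K M] [Algebra K K₁] [Algebra K M₁]
    [Algebra M M₁] [Algebra K₁ M₁] [Algebra K J] [Algebra K M₂] [Algebra M M₂] [Algebra K₁ M₂]
    [Algebra M₁ M₂] [Algebra J M₂] (ε : K₁) (δ : M ≃ₐ[K] M) (P : (ZMod p)[X]) (a₀ : M₂ˣ) :
    Prop where
  sit : SitW p K M K₁ M₁ ε δ P
  t1 : IsScalarTower K M₁ M₂
  t2 : IsScalarTower M M₁ M₂
  t3 : IsScalarTower K₁ M₁ M₂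
  t4 : IsScalarTower K J M₂
  gJ : IsGalois K J
  gM₂ : IsGalois K M₂
  cycJ : IsCyclic (J ≃ₐ[K] J)
  degJ : ∃ l : ℕ, finrank K J = p ^ l
  lin₂ : ∀ g : M₂ ≃ₐ[K] M₂, (∀ x : M₁, g (algebraMap M₁ M₂ x) = algebraMap M₁ M₂ x) →
    (∀ x : J, g (algebraMap J M₂ x) = algebraMap J M₂ x) → g = 1
  splJ : ∀ w : HeightOneSpectrum (𝓞 J), w.valuation J (p : J) < 1 → FreeP K w
  om : OmType p K (algebraMap K₁ M₂ ε) (a₀ : M₂)
  cyc : ∀ σ : M₂ ≃ₐ[K] M₂, (∀ x : M₁, σ (algebraMap M₁ M₂ x) = algebraMap M₁ M₂ x) → σ ≠ 1 →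
    ∀ c : M₂, σ (a₀ : M₂) = (a₀ : M₂) * c ^ p → ∏ i ∈ Finset.range (orderOf σ), (σ ^ i) c ≠ 1

section cls

variable {p : ℕ} (K : Type) {K₁ : Type} [Field K] [NumberField K] [Field K₁] [NumberField K₁]
  [Algebra K K₁]

/-- The product of the norms of the primes of `K` not in `S` above which the valuation of the class is not a
multiple of `p`. -/
noncomputable def condS (S : Finset (HeightOneSpectrum (𝓞 K))) (c : ClP p K₁) : ℕ :=
  ∏ᶠ (v : HeightOneSpectrum (𝓞 K)) (_ : ValC c v ∧ v ∉ S), Ideal.absNorm v.asIdeal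

variable (p)

/-- The set `A` of classes is given by local conditions at `S`. -/
def LocA (ε : K₁) (S : Finset (HeightOneSpectrum (𝓞 K))) (A : Set (ClP p K₁)) : Prop :=
  ∀ a a' : K₁ˣ, OmType p K ε (a : K₁) → OmType p K ε (a' : K₁) → LocS p (up K₁ S) (a / a') →
    clp p a ∈ A → clp p a' ∈ A

/-- `f` is `condS` times a factor which depends only on the local class at `S`. -/
def IsWt (ε : K₁) (S : Finset (HeightOneSpectrum (𝓞 K))) (f : ClP p K₁ → ℕ) : Prop :=
  ∃ e : ClP p K₁ → ℕ, (∀ c, 1 ≤ e c) ∧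
    (∀ a a' : K₁ˣ, OmType p K ε (a : K₁) → OmType p K ε (a' : K₁) → LocS p (up K₁ S) (a / a') →
      e (clp p a) = e (clp p a')) ∧
    ∀ c, f c = condS K S c * e c

variable {p K}

/-- The number of the classes of `A` with `f ≤ X`. -/
noncomputable def cV (f : ClP p K₁ → ℕ) (A : Set (ClP p K₁)) (X : ℝ) : ℝ :=
  {c | c ∈ A ∧ (f c : ℝ) ≤ X}.ncard

variable (p K)

/-- The conclusion of the moment theorems for the family `A`, ordered by `f`, and the set `Bd` of bad
classes. -/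
def MomV (ε : K₁) (A : Set (ClP p K₁)) (f : ClP p K₁ → ℕ) (Bd : Set (ClP p K₁)) (θ : ℝ) : Prop :=
  (∀ X : ℝ, {c | c ∈ BSet p K ε ∩ A ∧ (f c : ℝ) ≤ X}.Finite) ∧
  (∃ C X₀ : ℝ, 0 < X₀ ∧ ∀ X : ℝ, X₀ ≤ X →
    cV f (BSet p K ε ∩ A) (2 * X) ≤ C * cV f (BSet p K ε ∩ A) X) ∧
  (BSet p K ε ∩ A).Infinite ∧
  ∀ η : ℝ, 0 < η → ∀ᶠ X : ℝ in Filter.atTop,
    cV f (BSet p K ε ∩ A ∩ Bd) X ≤ (θ + η) * cV f (BSet p K ε ∩ A) X

/-- `MomV` for all the families given by local conditions and all the weight functions. -/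
def MomA (ε : K₁) (Bd : Set (ClP p K₁)) (θ : ℝ) : Prop :=
  ∀ (S : Finset (HeightOneSpectrum (𝓞 K))) (A : Set (ClP p K₁)) (f : ClP p K₁ → ℕ),
    LocA p K ε S A → (∃ a : K₁ˣ, OmType p K ε (a : K₁) ∧ clp p a ∈ A) → IsWt p K ε S f →
    MomV p K ε A f Bd θ

end cls

/-- The classes whose Selmer group `SelW` (for the Kummer generator `a₀ a`, `a` of the class `c`) is not
trivial. -/
def BdW {p : ℕ} [Fact p.Prime] {k : Type} [NormedField k] {K M K₁ M₂ : Type} [Field K]
    [Field M] [Field K₁] [Field M₂] [NumberField M₂] [Algebra K M] [Algebra M M₂] [Algebra K₁ M₂]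
    (L : IwasawaLog p k) (T : Set (K →+* k)) (P : (ZMod p)[X]) (δ : M ≃ₐ[K] M) (a₀ : M₂ˣ) :
    Set (ClP p K₁) :=
  {c | ∃ (y : Mˣ) (a : K₁ˣ), clp p a = c ∧
    SelW L (above T) P δ ((a₀ : M₂) * algebraMap K₁ M₂ (a : K₁)) y ∧ ¬ Pw p y}

/-- The character is trivial on the decomposition groups of the place of `K` induced by `σ`. -/
def DecT {p : ℕ} [Fact p.Prime] {K : Type} [Field K] (χ : Chr K (AlgebraicClosure K) ℂ_[p])
    (σ : K →+* ℂ_[p]) : Prop :=
  ∀ τ : AlgebraicClosure K →+* ℂ_[p], τ.comp (algebraMap K (AlgebraicClosure K)) = σ →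
  ∀ g : AlgebraicClosure K ≃ₐ[K] AlgebraicClosure K, (∀ x, ‖τ (g x)‖ = ‖τ x‖) → χ g = 1

end Pool.Agent.Helper42.PW
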