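import Pool.Agent.Helper42.PW.MBV

/-!
# Project W: the rank of the `P`-part of the `S`-units, for base fields which need not be totally complex

`S_EIG`, `S_UPB` and `rank_le` with the hypothesis that at most `d` infinite places of `K` are unramified in `M` instead of
`[K : ℚ] = 2 d`, `K` totally complex.
-/

set_option autoImplicit false

namespace Pool.Agent.Helper42.PW

open NumberField Polynomial Module IsDedekindDomain TensorProduct
open Pool.Agent.Helper51.RP Pool.Agent.Helper42.RD Pool.Agent.Helper42.PP Pool.Agent.Helper42.PP1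
open Pool.Agent.Helper51.SigLeo Pool.Agent.Helper11.PP
open Pool.Agent.Helper9.RS Pool.Agent.Helper96.RP
open Pool.Agent.Helper64.PP

/-- The number of the infinite places of `K` which are unramified in `M`. -/
noncomputable def nUr (K M : Type) [Field K] [Field M] [Algebra K M] : ℕ :=
  {v : InfinitePlace K | v.IsUnramifiedIn M}.ncard

theorem nUr_le (K M : Type) [Field K] [NumberField K] [Field M] [Algebra K M] :
    nUr K M ≤ Fintype.card (InfinitePlace K) := by
  rw [← Nat.card_eq_fintype_card, ← Set.ncard_univ]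
  exact Set.ncard_le_ncard (Set.subset_univ _) Set.finite_univ

/-- The unramified infinite places of a Galois extension. -/
theorem card_inf_le (K M : Type) [Field K] [NumberField K] [Field M] [NumberField M]
    [Algebra K M] [IsGalois K M] :
    {w : InfinitePlace M | w.IsUnramified K}.ncard = finrank K M * nUr K M := by
  classical
  have h := InfinitePlace.card_isUnramified K M
  rw [nUr, Set.ncard_eq_toFinset_card', Set.ncard_eq_toFinset_card', Set.toFinset_ofPred,
    Set.toFinset_ofPred, mul_comm]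
  convert h using 1

/-- A place whose stabiliser is trivial is unramified. -/
theorem unram_of_free {K M : Type} [Field K] [NumberField K] [Field M] [NumberField M]
    [Algebra K M] [IsGalois K M] {m : ℕ} {δ : M ≃ₐ[K] M}
    (hgen : ∀ g : M ≃ₐ[K] M, ∃ e < m, δ ^ e = g) (w : InfinitePlace M)
    (h : ∀ e : ℕ, 0 < e → e < m → w.comap ((δ ^ e : M ≃ₐ[K] M) : M →+* M) ≠ w) :
    w.IsUnramified K := by
  rw [InfinitePlace.isUnramified_iff_card_stabilizer_eq_one, Nat.card_eq_one_iff_unique]
  refine ⟨⟨fun a b => ?_⟩, ⟨1⟩⟩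
  have key : ∀ a : MulAction.stabilizer (M ≃ₐ[K] M) w, a = 1 := by
    rintro ⟨g, hg⟩
    obtain ⟨e, he, hge⟩ := hgen g⁻¹
    rcases Nat.eq_zero_or_pos e with rfl | he0
    · apply Subtype.ext
      change g = 1
      rw [pow_zero] at hge
      exact inv_eq_one.1 hge.symm
    · exfalso
      apply h e he0 he
      rw [hge]
      exact hg
  rw [key a, key b]

theorem perm_pow_inl {K M : Type} [Field K] [Field M] [NumberField M] [Algebra K M]
    {S : Set (HeightOneSpectrum (𝓞 M))} (hst : ∀ w ∈ S, ∀ v, ConjP K v w → v ∈ S)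
    (δ : M ≃ₐ[K] M) (w : InfinitePlace M) (e : ℕ) :
    (perm hst δ ^ e) (Sum.inl w) = Sum.inl (w.comap ((δ ^ e : M ≃ₐ[K] M) : M →+* M)) := by
  induction e with
  | zero => rfl
  | succ e ih =>
    rw [pow_succ', Equiv.Perm.mul_apply, ih, pow_succ]
    rfl

/-- `S_EIG` for base fields with at most `d` infinite places unramified in `M`. -/
def S_EIGR : Prop :=
  ∀ (K M : Type) [Field K] [NumberField K] [Field M] [NumberField M]
    [Algebra K M] [IsGalois K M] (m d s₀ : ℕ) (δ : M ≃ₐ[K] M), orderOf δ = m → finrank K M = m →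
    nUr K M ≤ d → 0 < m →
  ∀ S : Set (HeightOneSpectrum (𝓞 M)), S.Finite → (∀ w ∈ S, ∀ v, ConjP K v w → v ∈ S) →
    {w ∈ S | FreeP K w}.ncard = m * s₀ →
  ∀ ζ' : ℂ, IsPrimitiveRoot ζ' m →
  ∃ D : Additive (S.unit M) →+ Additive (S.unit M),
    (∀ x : S.unit M, (((D (Additive.ofMul x)).toMul : S.unit M) : Mˣ) =
      Units.map ((δ : M →+* M) : M →* M) (x : Mˣ)) ∧
    Module.Finite ℤ (Additive (S.unit M)) ∧
    finrank ℂ (LinearMap.ker ((extEnd D : (ℂ ⊗[ℤ] Additive (S.unit M)) →ₗ[ℂ]
      (ℂ ⊗[ℤ] Additive (S.unit M))) - ζ' • LinearMap.id)) ≤ d + s₀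

theorem s_eigR : S_EIGR := by
  intro K M _ _ _ _ _ _ m d s₀ δ hδ hm hd hm0 S hS hst hfree ζ' hζ'
  classical
  have : Fintype S := hS.fintype
  have : Module.Finite ℤ (Additive (S.unit M)) := by
    have h1 : LinearMap.range (fU S) = LinearMap.ker (gS S) := (exact_fg (S := S)).linearMap_ker_eq.symm
    have h2 : IsNoetherian ℤ (Additive (S.unit M)) := isNoetherian_of_range_eq_ker _ _ h1
    infer_instance
  refine ⟨DS hst δ, fun x => rfl, this, ?_⟩
  let Λ : (ℂ ⊗[ℤ] Additive (S.unit M)) →ₗ[ℂ] (InfinitePlace M ⊕ S → ℂ) :=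
    LinearMap.pi fun y => extHom (cS S y)
  have hΛ : Function.Injective Λ := by
    rw [← LinearMap.ker_eq_bot, LinearMap.ker_eq_bot']
    intro x hx
    exact inj_coord hS x fun y => congrFun hx y
  set E := LinearMap.ker ((extEnd (DS hst δ) : (ℂ ⊗[ℤ] Additive (S.unit M)) →ₗ[ℂ]
      (ℂ ⊗[ℤ] Additive (S.unit M))) - ζ' • LinearMap.id) with hE
  have hfin : finrank ℂ E = finrank ℂ (E.map Λ) :=
    (Submodule.equivMapOfInjective Λ hΛ E).finrank_eq
  rw [hfin]
  let F : Finset (InfinitePlace M ⊕ S) := Finset.univ.filter fun y =>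
    ∀ e : ℕ, 0 < e → e < m → (perm hst δ ^ e) y ≠ y
  have hmain := perm_eig (perm hst δ) (hζ'.ne_zero hm0.ne')
    (fun e h1 h2 => hζ'.pow_ne_one_of_pos_of_lt h1.ne' h2) (E.map Λ) (by
      rintro f ⟨x, hx, rfl⟩ y
      have hx' : extEnd (DS hst δ) x = ζ' • x := by
        have := LinearMap.mem_ker.1 hx
        rw [LinearMap.sub_apply, sub_eq_zero] at this
        exact this
      change extHom (cS S (perm hst δ y)) x = ζ' * extHom (cS S y) x
      rw [← extHom_extEnd (DS hst δ) (cS S y) (cS S (perm hst δ y)) (coord_perm hst δ y), hx',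
        map_smul, smul_eq_mul]) F (by
      intro y
      simp only [F, Finset.mem_filter, Finset.mem_univ, true_and])
  -- the generator
  have hgen : ∀ g : M ≃ₐ[K] M, ∃ e < m, δ ^ e = g := by
    intro g
    have h1 : Subgroup.zpowers δ = ⊤ := by
      apply Subgroup.eq_top_of_card_eq
      rw [Nat.card_zpowers, hδ, ← hm, IsGalois.card_aut_eq_finrank]
    have h2 : g ∈ Subgroup.zpowers δ := by rw [h1]; trivial
    rw [mem_zpowers_iff_mem_range_orderOf, Finset.mem_image] at h2
    obtain ⟨e, he, h3⟩ := h2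
    rw [Finset.mem_range, hδ] at he
    exact ⟨e, he, h3⟩
  -- the infinite places
  have hinf : {w : InfinitePlace M | w.IsUnramified K}.ncard ≤ m * d := by
    rw [card_inf_le K M, hm]
    exact Nat.mul_le_mul_left _ hd
  have hFcard : F.card ≤ m * d + m * s₀ := by
    let F₂ : Finset S := Finset.univ.filter fun w => FreeP K (w : HeightOneSpectrum (𝓞 M))
    let F₁ : Finset (InfinitePlace M) := Finset.univ.filter fun w => w.IsUnramified K
    have hF₁ : F₁.card ≤ m * d := by
      refine le_trans (le_of_eq ?_) hinf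
      rw [Set.ncard_eq_toFinset_card', Set.toFinset_ofPred]
    have hsub : F ⊆ F₁.image Sum.inl ∪ F₂.image Sum.inr := by
      intro y hy
      rw [Finset.mem_union]
      rcases y with w | w
      · refine Or.inl (Finset.mem_image_of_mem _ ?_)
        rw [Finset.mem_filter]
        refine ⟨Finset.mem_univ _, unram_of_free hgen w fun e h1 h2 h3 => ?_⟩
        apply (Finset.mem_filter.1 hy).2 e h1 h2
        rw [perm_pow_inl, h3]
      · refine Or.inr (Finset.mem_image_of_mem _ ?_)
        rw [Finset.mem_filter]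
        refine ⟨Finset.mem_univ _, ?_⟩
        intro g hg
        obtain ⟨e, he, rfl⟩ := hgen g
        rcases Nat.eq_zero_or_pos e with rfl | he0
        · exact pow_zero δ
        · exfalso
          have h1 := (Finset.mem_filter.1 hy).2 e he0 he
          apply h1
          obtain ⟨w', h2, h3⟩ := perm_pow_inr hst δ w e
          rw [h2]
          congr 1
          apply Subtype.ext
          apply eq_of_val
          intro y
          rw [h3, hg]
    have hF₂ : F₂.card = m * s₀ := by
      rw [← hfree]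
      have h1 : {w ∈ S | FreeP K w} = ((F₂.map (Function.Embedding.subtype _) :
          Finset (HeightOneSpectrum (𝓞 M))) : Set (HeightOneSpectrum (𝓞 M))) := by
        ext w
        simp only [F₂, Finset.coe_map, Set.mem_image, Finset.mem_coe, Finset.mem_filter,
          Finset.mem_univ, true_and, Function.Embedding.subtype_apply, Subtype.exists]
        constructor
        · rintro ⟨h2, h3⟩
          exact ⟨w, h2, h3, rfl⟩
        · rintro ⟨w', h2, h3, rfl⟩
          exact ⟨h2, h3⟩
      rw [h1, Set.ncard_coe_finset, Finset.card_map]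
    calc F.card ≤ (F₁.image Sum.inl ∪ F₂.image Sum.inr :
          Finset (InfinitePlace M ⊕ S)).card := Finset.card_le_card hsub
      _ ≤ (F₁.image Sum.inl : Finset (InfinitePlace M ⊕ S)).card +
          (F₂.image Sum.inr : Finset (InfinitePlace M ⊕ S)).card := Finset.card_union_le _ _
      _ ≤ F₁.card + F₂.card :=
          Nat.add_le_add Finset.card_image_le Finset.card_image_le
      _ ≤ m * d + m * s₀ := by rw [hF₂]; exact Nat.add_le_add_right hF₁ _
  have h5 : m * finrank ℂ (E.map Λ) ≤ m * (d + s₀) := by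
    rw [mul_add]
    exact hmain.trans hFcard
  exact Nat.le_of_mul_le_mul_left h5 hm0

/-- `S_UPB` for base fields with at most `d` infinite places unramified in `M`. -/
def S_UPBR : Prop :=
  ∀ (p : ℕ) [Fact p.Prime] (k : Type) [NormedField k] [NormedAlgebra ℚ_[p] k] (K M : Type)
    [Field K] [NumberField K] [Field M] [NumberField M] [Algebra K M]
    [IsGalois K M] (m d s₀ : ℕ) (δ : M ≃ₐ[K] M) (ζ : k) (Φ : ℤ_[p][X]) (P : (ZMod p)[X]),
    PhiData p m ζ Φ P → orderOf δ = m → finrank K M = m →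
    nUr K M ≤ d → TorOK P δ →
  ∀ S : Set (HeightOneSpectrum (𝓞 M)), S.Finite → (∀ w ∈ S, ∀ v, ConjP K v w → v ∈ S) →
    {w ∈ S | FreeP K w}.ncard = m * s₀ →
  ∀ F : Finset Mˣ, (∀ x ∈ F, x ∈ S.unit M ∧ Pw p (pol P δ x)) →
    (∀ x ∈ F, ∀ y ∈ F, x ≠ y → ¬ Pw p (x / y)) → F.card ≤ p ^ (P.natDegree * (d + s₀))

theorem s_upbR (h1 : S_LEM) (h2 : S_EIGR) : S_UPBR := by
  intro p hpf k _ _ K M _ _ _ _ _ _ m d s₀ δ ζ Φ P hΦ hord hfin hdeg hTor S hSfin hSst hSfree
    F hF hne
  classical
  have hp0 : p ≠ 0 := hpf.out.ne_zero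
  have hm1 : 0 < m := lt_trans zero_lt_one hΦ.one_lt
  have : NeZero m := ⟨hm1.ne'⟩
  have hζ' : IsPrimitiveRoot (Complex.exp (2 * Real.pi * Complex.I / m)) m :=
    Complex.isPrimitiveRoot_exp m hm1.ne'
  obtain ⟨D, hD, hfinA, hrank⟩ := h2 K M m d s₀ δ hord hfin hdeg hm1 S hSfin hSst hSfree _ hζ'
  have := hfinA
  obtain ⟨i, hi, hTor⟩ := hTor
  set φ : Mˣ →* Mˣ := Units.map ((δ : M →+* M) : M →* M) with hφ
  have hδm : δ ^ m = 1 := by rw [← hord]; exact pow_orderOf_eq_one δ
  -- the iterates
  have hiter : ∀ (j : ℕ) (x : Additive (S.unit M)),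
      (((D^[j] x).toMul : S.unit M) : Mˣ) =
        Units.map (((δ ^ j : M ≃ₐ[K] M) : M →+* M) : M →* M) ((x.toMul : S.unit M) : Mˣ) := by
    intro j
    induction j with
    | zero => intro x; ext; simp
    | succ j ih =>
      intro x
      rw [Function.iterate_succ', Function.comp_apply]
      have h3 := hD (D^[j] x).toMul
      rw [ofMul_toMul, ih x] at h3
      rw [h3]
      ext
      rw [hφ, pow_succ']
      simp only [Units.coe_map, MonoidHom.coe_coe, RingHom.coe_coe]
      rfl
  have hDm : ∀ x : Additive (S.unit M), D^[m] x = x := by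
    intro x
    apply Additive.toMul.injective
    apply Subtype.ext
    rw [hiter m x, hδm]
    ext
    simp
  have hfix : ∀ (x : Additive (S.unit M)) (n : ℕ), p ^ n • x = 0 → D x = i • x := by
    intro x n hx
    apply Additive.toMul.injective
    apply Subtype.ext
    have h3 := hiter 1 x
    rw [Function.iterate_one] at h3
    rw [h3]
    have h4 : ((x.toMul : S.unit M) : Mˣ) ^ (p ^ n) = 1 := by
      have h5 := congrArg (fun z : Additive (S.unit M) => ((z.toMul : S.unit M) : Mˣ)) hx
      simpa using h5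
    have h6 : (((x.toMul : S.unit M) : Mˣ) : M) ^ (p ^ n) = 1 := by
      have h7 := congrArg Units.val h4
      simpa using h7
    ext
    simpa using hTor _ n h6
  -- the finset
  set f : {x // x ∈ F} → Additive (S.unit M) :=
    fun x => Additive.ofMul (⟨x.1, (hF x.1 x.2).1⟩ : S.unit M) with hf
  have hfinj : Function.Injective f := by
    intro x y hxy
    apply Subtype.ext
    have := congrArg (fun z : Additive (S.unit M) => ((z.toMul : S.unit M) : Mˣ)) hxy
    simpa [hf] using this
  set F' : Finset (Additive (S.unit M)) := F.attach.map ⟨f, hfinj⟩ with hF'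
  have hcard : F'.card = F.card := by simp [hF']
  have key := h1 p k m ζ Φ P hΦ (Additive (S.unit M)) D i hDm hfix hi _ hζ' F' ?_ ?_
  · rw [hcard] at key
    exact key.trans (Nat.pow_le_pow_right (Nat.pos_of_ne_zero hp0) (Nat.mul_le_mul_left _ hrank))
  · intro x hx
    obtain ⟨z, -, rfl⟩ := Finset.mem_map.1 hx
    obtain ⟨hz1, y, hy⟩ := hF z.1 z.2
    have hcoe : ∀ (s : Finset ℕ),
        (((∑ j ∈ s, (P.coeff j).val • D^[j] (f z)).toMul : S.unit M) : Mˣ) =
        ∏ j ∈ s, (Units.map (((δ ^ j : M ≃ₐ[K] M) : M →+* M) : M →* M) z.1) ^ (P.coeff j).val := by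
      intro s
      induction s using Finset.induction_on with
      | empty => simp
      | insert a s ha ih =>
        rw [Finset.sum_insert ha, Finset.prod_insert ha, ← ih, toMul_add, Subgroup.coe_mul,
          toMul_nsmul, Subgroup.coe_pow, hiter]
        simp [hf]
    have hpol : (((∑ j ∈ P.support, (P.coeff j).val • D^[j] (f z)).toMul : S.unit M) : Mˣ)
        = y ^ p := by
      rw [hcoe, ← hy, pol, MonoidHom.finsetProd_apply]
      rfl
    have hyS : y ∈ S.unit M := by
      refine mem_unit_of_pow (x := y ^ p) hp0 rfl ?_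
      rw [← hpol]
      exact Subtype.property _
    refine ⟨Additive.ofMul (⟨y, hyS⟩ : S.unit M), ?_⟩
    apply Additive.toMul.injective
    apply Subtype.ext
    show (((∑ j ∈ P.support, (P.coeff j).val • D^[j] (f z)).toMul : S.unit M) : Mˣ) = _
    rw [hpol]
    simp
  · intro x hx y hy hxy
    obtain ⟨z, -, rfl⟩ := Finset.mem_map.1 hx
    obtain ⟨w, -, rfl⟩ := Finset.mem_map.1 hy
    rintro ⟨b, hb⟩
    have hzw : z.1 ≠ w.1 := by
      intro h
      exact hxy (congrArg f (Subtype.ext h))
    refine hne z.1 z.2 w.1 w.2 hzw ⟨((b.toMul : S.unit M) : Mˣ), ?_⟩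
    have h3 := congrArg (fun z : Additive (S.unit M) => ((z.toMul : S.unit M) : Mˣ)) hb
    have h4 : z.1 = w.1 * ((b.toMul : S.unit M) : Mˣ) ^ p := by
      simpa [hf] using h3
    rw [h4, mul_comm, mul_div_assoc, div_self', mul_one]

/-- `rank_le` for base fields with at most `d` infinite places unramified in `M`. -/
theorem rank_leR (h2 : P_FUN) {p : ℕ} [Fact p.Prime] {k : Type} [NormedField k]
    [NormedAlgebra ℚ_[p] k] {K M K₁ M₁ : Type} [Field K] [NumberField K]
    [Field M] [NumberField M] [Field K₁] [NumberField K₁] [Field M₁] [NumberField M₁] [Algebra K M]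
    [Algebra K K₁] [Algebra K M₁] [Algebra M M₁] [Algebra K₁ M₁] [IsGalois K M] {ε : K₁}
    {m d s₀ : ℕ} {δ : M ≃ₐ[K] M} {ζ : k} {Φ : ℤ_[p][X]} {P : (ZMod p)[X]}
    (hPhi : PhiData p m ζ Φ P) (hord : orderOf δ = m) (hfr : finrank K M = m)
    (hd : nUr K M ≤ d) (htor : TorOK P δ) (B : Base p K M K₁ M₁ ε δ P)
    (hSf : (up M B.S).Finite) (hst : ∀ w ∈ up M B.S, ∀ w', ConjP K w' w → w' ∈ up M B.S)
    (hs₀ : {w ∈ up M B.S | FreeP K w}.ncard = m * s₀) : B.r ≤ d + s₀ := by
  classical
  have hp : p.Prime := Fact.out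
  have upb : S_UPBR := s_upbR Pool.Agent.Helper19.RP.s_lem s_eigR
  have hδm : δ ^ m = 1 := by rw [← hord]; exact pow_orderOf_eq_one δ
  have hm0 : 0 < m := lt_trans zero_lt_one hPhi.one_lt
  obtain ⟨hF, -⟩ := h2 p K M m δ P hm0 hPhi.copm hδm hPhi.irr hPhi.dvdP
  have hirr : Fact (Irreducible P) := ⟨hPhi.irr⟩
  have hP0 : P ≠ 0 := hPhi.irr.ne_zero
  have hfd : FiniteDimensional (ZMod p) (AdjoinRoot P) := (AdjoinRoot.powerBasis hP0).finite
  have hfin : Finite (AdjoinRoot P) := Module.finite_of_finite (ZMod p)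
  have hft : Fintype (AdjoinRoot P) := Fintype.ofFinite _
  have hcard : Fintype.card (AdjoinRoot P) = p ^ P.natDegree := by
    rw [Module.card_eq_pow_finrank (K := ZMod p) (V := AdjoinRoot P), ZMod.card,
      (AdjoinRoot.powerBasis hP0).finrank, AdjoinRoot.powerBasis_dim]
  choose c hc using fun z : AdjoinRoot P => AdjoinRoot.mk_surjective (g := P) z
  let e : (Fin B.r → AdjoinRoot P) → Mˣ := fun z => ∏ i, pol (c (z i)) δ (B.u i)
  have hrho : ∀ z i, B.rho i (e z) = z i := by
    intro z i
    show B.rho i (∏ j, pol (c (z j)) δ (B.u j)) = z i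
    rw [hom_prod (B.rhoP i).1]
    have h : ∀ j, B.rho i (pol (c (z j)) δ (B.u j)) = if i = j then z j else 0 := by
      intro j
      rw [(hF _ (B.rhoP i)).1, hc, B.rhou]
      split_ifs <;> simp
    rw [Finset.sum_congr rfl fun j _ => h j, Finset.sum_ite_eq]
    simp
  have hinj : ∀ z z', Pw p (e z / e z') → z = z' := by
    intro z z' h
    funext i
    have h1 := (hF _ (B.rhoP i)).2 _ h
    rw [hom_div (B.rhoP i).1, hrho, hrho, sub_eq_zero] at h1
    exact h1
  have hpw1 : Pw p (1 : Mˣ) := ⟨1, (one_pow p).symm⟩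
  have hinj' : Function.Injective e := by
    intro z z' h
    refine hinj z z' ?_
    rw [h, div_self']
    exact hpw1
  have hle := upb p k K M m d s₀ δ ζ Φ P hPhi hord hfr hd htor (up M B.S) hSf hst hs₀
    (Finset.univ.image e)
    (by
      intro x hx
      obtain ⟨z, -, rfl⟩ := Finset.mem_image.1 hx
      refine ⟨Subgroup.prod_mem _ fun i _ => unit_pol hst δ _ (B.uS i), ?_⟩
      show Pw p (pol P δ (∏ i, pol (c (z i)) δ (B.u i)))
      rw [map_prod]
      refine pw_prod _ fun i => ?_
      rw [pol_cm]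
      exact pw_pol δ _ (B.uP i))
    (by
      intro x hx y hy hxy
      obtain ⟨z, -, rfl⟩ := Finset.mem_image.1 hx
      obtain ⟨z', -, rfl⟩ := Finset.mem_image.1 hy
      intro h
      exact hxy (by rw [hinj z z' h]))
  rw [Finset.card_image_of_injective _ hinj', Finset.card_univ, Fintype.card_fun, hcard,
    Fintype.card_fin, ← pow_mul] at hle
  have h3 := (Nat.pow_le_pow_iff_right hp.one_lt).1 hle
  exact Nat.le_of_mul_le_mul_left h3 hPhi.irr.natDegree_pos

end Pool.Agent.Helper42.PW
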