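import Pool.Agent.Helper42.PW.TRN
import Pool.Agent.Helper42.PB.SEL
import Pool.Agent.Helper94.PB.VLOC3

/-!
# Project W: the local conditions `LocW`, conjugation and change of the local class
-/

set_option autoImplicit false

namespace Pool.Agent.Helper42.PW

open NumberField Polynomial Module IsDedekindDomain
open Pool.Agent.Helper51.RP Pool.Agent.Helper42.RD Pool.Agent.Helper42.PP Pool.Agent.Helper42.PP1
open Pool.Agent.Helper42.PB
open Pool.Agent.Helper51.SigLeo (IwasawaLog)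
open Pool.Agent.Helper40.RS (bel)
open Pool.Agent.Helper8.PP (pol_act)
open Pool.Agent.Helper40.RD (bel_of_above ordW valW)

theorem cl_up {p : ℕ} {F E : Type} [Field F] [NumberField F] [Field E] [NumberField E]
    [Algebra F E] {W : HeightOneSpectrum (𝓞 E)} {w : HeightOneSpectrum (𝓞 F)} (hW : Above W w)
    {u : F} (h : Cl p w u) : Cl p W (algebraMap F E u) := by
  obtain ⟨h1, h2⟩ := h
  have e0 : w.asIdeal.ramificationIdx' W.asIdeal ≠ 0 := by
    have h5 := Pool.Agent.Helper79.PP.ram_ne (A := F) W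
    rwa [bel_of_above hW] at h5
  have e1 : algebraMap F E u - 1 = algebraMap F E (u - 1) := by rw [map_sub, map_one]
  have e2 : (p : E) = algebraMap F E (p : F) := by rw [map_natCast]
  refine ⟨?_, ?_⟩
  · rw [e1, valW, bel_of_above hW]
    exact pow_lt_one₀ zero_le h1 e0
  · rw [e1, e2, valW, valW, bel_of_above hW, ← pow_mul, mul_comm _ 3, pow_mul]
    exact pow_le_pow_left₀ zero_le h2 _

section

variable {p : ℕ} [hp : Fact p.Prime] {F E : Type} [Field F] [Field E] [NumberField E]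
  [Algebra F E]

/-- The local condition for an element of type `ω` at conjugate primes. -/
theorem locW_conj (hGRP : N_GRP) {ε α : E} (hε : IsPrimitiveRoot ε p) (hα0 : α ≠ 0)
    (hα : OmType p F ε α)
    (g : E ≃ₐ[F] E) {W W' : HeightOneSpectrum (𝓞 E)}
    (hW' : ∀ y : E, W.valuation E (g y) = W'.valuation E y) {x : E} (h : LocW p W' α x) :
    LocW p W α (g x) := by
  have hpp := hp.out
  have hp0 : p ≠ 0 := hpp.ne_zero
  obtain ⟨n, C, hn, hC⟩ := hα g
  have hcop : n.Coprime p := by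
    rw [Nat.coprime_comm, hpp.coprime_iff_not_dvd]
    rintro ⟨m, rfl⟩
    rw [pow_mul, hε.pow_eq_one, one_pow] at hn
    have h1 : ε = 1 := by
      apply g.injective
      rw [hn, map_one]
    have h2 := hε
    rw [h1] at h2
    exact hpp.one_lt.ne' (h2.unique IsPrimitiveRoot.one)
  have hC0 : C ≠ 0 := by
    rintro rfl
    rw [zero_pow hp0, mul_zero] at hC
    exact hα0 ((map_eq_zero g).1 hC)
  have hval : W.valuation E (p : E) = W'.valuation E (p : E) := by
    have e := hW' (p : E)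
    rwa [map_natCast] at e
  obtain ⟨t1, t2, -⟩ := n_trn p E E (g : E ≃+* E) W' W (fun y => hW' y) α x
  obtain ⟨-, -, -, -, -, -, h7⟩ := hGRP p E W
  obtain ⟨-, -, -, -, h8⟩ := h7 α hα0
  obtain ⟨h9, h10⟩ := h8 n C hcop hC0
  have t1' : PwAt p W (g α) ↔ PwAt p W' α := t1
  have t2' : NmAt p W (g α) (g x) ↔ NmAt p W' α x := t2
  refine ⟨fun hv => ?_, fun hv => ⟨?_, fun hpw => ?_⟩⟩
  · exact Pool.Agent.Helper94.PB.locAt_conj hε hα0 hα g hW' (h.1 (by rw [← hval]; exact hv))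
  · rw [← h9, ← hC]
    exact t2'.2 (h.2 (by rw [← hval]; exact hv)).1
  · have h11 : PwAt p W' α := by
      rw [← t1', hC, h10]
      exact hpw
    have h12 := (h.2 (by rw [← hval]; exact hv)).2 h11
    unfold ordv at h12 ⊢
    rw [hW']
    exact h12

end

section

variable {p : ℕ} [hp : Fact p.Prime] {E : Type} [Field E] [NumberField E]

/-- The local condition at a prime above `p` depends only on the local class of `α`. -/
theorem nmPw_iff (hGRP : N_GRP) (hCHG : N_CHG) {W : HeightOneSpectrum (𝓞 E)} {α α' : E}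
    (h0 : α ≠ 0) (h0' : α' ≠ 0) (h : PwAt p W (α / α')) (x : E) :
    (NmAt p W α x ↔ NmAt p W α' x) ∧ (PwAt p W α ↔ PwAt p W α') := by
  obtain ⟨-, -, h3, h4, -, -, -⟩ := hGRP p E W
  have h5 : PwAt p W (α' / α) := by
    have := h4 _ h
    rwa [inv_div] at this
  refine ⟨⟨hCHG p E W α α' h0 h0' h x, hCHG p E W α' α h0' h0 h5 x⟩, fun h6 => ?_, fun h6 => ?_⟩
  · have := h3 _ _ h5 h6
    rwa [div_mul_cancel₀ _ h0] at this
  · have := h3 _ _ h h6
    rwa [div_mul_cancel₀ _ h0'] at this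

end

section main

variable {p : ℕ} [hp : Fact p.Prime] {k : Type} [NormedField k] [NormedAlgebra ℚ_[p] k]
  [IsUltrametricDist k] {K M K₁ M₁ J M₂ : Type} [Field K] [NumberField K] [Field M]
  [NumberField M] [Field K₁] [NumberField K₁] [Field M₁] [NumberField M₁] [Field J]
  [NumberField J] [Field M₂] [NumberField M₂] [Algebra K M] [Algebra K K₁] [Algebra K M₁]
  [Algebra M M₁] [Algebra K₁ M₁] [Algebra K J] [Algebra K M₂] [Algebra M M₂] [Algebra K₁ M₂]
  [Algebra M₁ M₂] [Algebra J M₂] {ε : K₁} {δ : M ≃ₐ[K] M} {P : (ZMod p)[X]} {a₀ : M₂ˣ}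

/-- The Selmer group is stable under `δ`. -/
theorem selW_act (hGRP : N_GRP) (hB : SitB p K M K₁ M₁ J M₂ ε δ P a₀) (L : IwasawaLog p k)
    (T : Set (K →+* k)) (a : K₁ˣ) (ha : OmType p K ε (a : K₁)) (x : Mˣ)
    (hx : SelW L (above T) P δ ((a₀ : M₂) * algebraMap K₁ M₂ (a : K₁)) x) :
    SelW L (above T) P δ ((a₀ : M₂) * algebraMap K₁ M₂ (a : K₁)) (act δ x) := by
  have := hB.sit.gM
  have := hB.gM₂
  have := tow_M hB
  refine ⟨?_, ?_, Pool.Agent.Helper90.RP.loc_delta L δ hx.sig⟩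
  · obtain ⟨y, hy⟩ := hx.pol
    exact ⟨act δ y, by rw [pol_act, hy, map_pow]⟩
  · set g : M₂ ≃ₐ[K] M₂ := AlgEquiv.liftNormal δ M₂ with hg
    have hgM : ∀ y : M, g (algebraMap M M₂ y) = algebraMap M M₂ (δ y) := fun y =>
      AlgEquiv.liftNormal_commutes δ M₂ y
    intro W
    obtain ⟨W', -, hW'⟩ := Pool.Agent.Helper90.RP.exists_pull (K := K) g W
    have hxx : algebraMap M M₂ ((act δ x : Mˣ) : M) = g (algebraMap M M₂ (x : M)) := (hgM _).symm
    rw [hxx]
    exact locW_conj hGRP (hB.sit.prim.map_of_injective (algebraMap K₁ M₂).injective)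
      (mul_ne_zero a₀.ne_zero ((_root_.map_ne_zero _).2 a.ne_zero))
      (Pool.Agent.Helper94.PB.om_alpha hB ha) g hW' (hx.loc W')

/-- The local conditions at `S` depend only on the local class. -/
theorem locW_cls (hGRP : N_GRP) (hCHG : N_CHG) (hB : SitB p K M K₁ M₁ J M₂ ε δ P a₀)
    (L : IwasawaLog p k) (S : Finset (HeightOneSpectrum (𝓞 K))) (a aτ : K₁ˣ)
    (ha : OmType p K ε (a : K₁))
    (hS : LocS p (up K₁ S) (a / aτ)) (W : HeightOneSpectrum (𝓞 M₂)) (hW : W ∈ up M₂ S) (x : M₂) :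
    LocW p W ((a₀ : M₂) * algebraMap K₁ M₂ (a : K₁)) x ↔
      LocW p W ((a₀ : M₂) * algebraMap K₁ M₂ (aτ : K₁)) x := by
  have := tow_K hB
  have h1 := (v_slg p k K M K₁ M₁ J M₂ ε δ P a₀ hB L ∅ S a ha).2 aτ hS W hW x
  have hA0 : algebraMap K₁ M₂ (a : K₁) ≠ 0 := (_root_.map_ne_zero _).2 a.ne_zero
  have hB0 : algebraMap K₁ M₂ (aτ : K₁) ≠ 0 := (_root_.map_ne_zero _).2 aτ.ne_zero
  obtain ⟨y, hy⟩ := hS
  obtain ⟨v, hv, hWv⟩ := hW
  obtain ⟨Q, hQ⟩ := Pool.Agent.Helper95.RL.exists_below (M := K₁) W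
  have hQv : Above Q v := Pool.Agent.Helper96.RL.above_mid hQ hWv
  have h2 : PwAt p W (((a₀ : M₂) * algebraMap K₁ M₂ (a : K₁)) /
      ((a₀ : M₂) * algebraMap K₁ M₂ (aτ : K₁))) := by
    refine ⟨algebraMap K₁ M₂ (y : K₁), ?_⟩
    have h3 : Cl p Q (((a / aτ : K₁ˣ) : K₁) * (y : K₁) ^ p) := hy Q ⟨v, hv, hQv⟩
    have h4 := cl_up hQ h3
    rw [Units.val_div_eq_div_val, map_mul, map_pow, map_div₀] at h4
    rwa [mul_div_mul_left _ _ a₀.ne_zero]
  obtain ⟨h5, h6⟩ := nmPw_iff hGRP hCHG (mul_ne_zero a₀.ne_zero hA0) (mul_ne_zero a₀.ne_zero hB0)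
    h2 x
  unfold LocW
  rw [h1, h5, h6]

end main

end Pool.Agent.Helper42.PW
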